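import Pool.Agent.N852.GR.Stm

/-!
Project GR: minors of a minimal pair at the infinite places (ARC, helper966).
-/

namespace Pool.Agent.N852.GR

open scoped Classical
open NumberField Module Matrix

namespace Arc

variable {F : Type} [Field F] [NumberField F] {n : ℕ}

lemma le_io (x : Fin n → 𝓞 F) (i : Fin n) (w : InfinitePlace F) : w (x i : F) ≤ ‖io x‖ := by
  refine le_trans ?_ (norm_le_pi_norm (io x) i)
  change _ ≤ ‖mixedEmbedding F (x i : F)‖
  rw [mixedEmbedding.norm_eq_sup'_normAtPlace, ← mixedEmbedding.normAtPlace_apply w (x i : F)]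
  exact Finset.le_sup' (fun w => mixedEmbedding.normAtPlace w (mixedEmbedding F (x i : F)))
    (Finset.mem_univ w)

lemma ge_at (x : Fin n → 𝓞 F) (w₀ : InfinitePlace F) {r R : ℝ} (hr : r < R) (hR : 0 < R)
    (hx : R ≤ ‖io x‖) (hw : ∀ w ≠ w₀, ∀ i, w (x i : F) ≤ r) : ∃ i, R ≤ w₀ (x i : F) := by
  by_contra hcon
  push Not at hcon
  apply absurd hx
  rw [not_le, pi_norm_lt_iff hR]
  intro i
  change ‖mixedEmbedding F (x i : F)‖ < R
  rw [mixedEmbedding.norm_eq_sup'_normAtPlace, Finset.sup'_lt_iff]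
  intro w _
  rw [mixedEmbedding.normAtPlace_apply]
  by_cases h : w = w₀
  · rw [h]; exact hcon i
  · exact (hw w h i).trans_lt hr

omit [NumberField F] in
lemma tri (w : InfinitePlace F) (x y : F) : w (x + y) ≤ w x + w y := w.1.add_le x y

omit [NumberField F] in
lemma tri' (w : InfinitePlace F) (x y : F) : w (x - y) ≤ w x + w y := by
  rw [sub_eq_add_neg]
  refine (tri w _ _).trans (le_of_eq ?_)
  congr 1
  exact w.1.map_neg y

end Arc

theorem arcP (F : Type) [Field F] [NumberField F] (hP : Pig1P F) : ArcP F := by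
  obtain ⟨M0, hM0⟩ := hP (1 / 8) (by norm_num)
  set M := max M0 1 with hM
  have hM1 : 1 ≤ M := le_max_right _ _
  have hMp : 0 < M := by linarith
  refine ⟨7 / (8 * M ^ 2), by positivity, fun n P a b h w₀ => ?_⟩
  obtain ⟨haP, hbP, ha0, hb, hab, hmin, hmin2⟩ := h
  obtain ⟨i0, hi0⟩ := Function.ne_iff.1 ha0
  have hi0' : (a i0 : F) ≠ 0 := by
    intro h
    apply hi0
    exact_mod_cast h
  set A := ‖io a‖ with hA
  set B := ‖io b‖ with hB
  have hA0 : 0 < A := lt_of_lt_of_le (InfinitePlace.pos_iff.2 hi0') (Arc.le_io a i0 w₀)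
  have hB0 : 0 < B := hA0.trans_le hab
  -- the first vector
  obtain ⟨j, hj⟩ : ∃ j, A ≤ M * w₀ (a j : F) := by
    obtain ⟨α, γ, hα, h1, -, h2⟩ := hM0 w₀ 0
    have hαF : (α : F) ≠ 0 := by
      intro h
      apply hα
      exact_mod_cast h
    set x : Fin n → 𝓞 F := fun i => α * a i with hx
    have hxe : ∀ i, (x i : F) = (α : F) * (a i : F) := fun i => map_mul (algebraMap (𝓞 F) F) _ _
    have hco : co x = (α : F) • co a := by
      funext i
      rw [Pi.smul_apply, smul_eq_mul]
      exact hxe i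
    have hx0 : x ≠ 0 := by
      intro h
      have h3 := congrFun h i0
      exact hi0 (by
        rw [hx] at h3
        exact (mul_eq_zero.1 h3).resolve_left hα)
    have h3 := hmin x (by rw [hco]; exact P.smul_mem _ haP) hx0
    obtain ⟨i, hi⟩ := Arc.ge_at x w₀ (r := A / 8) (R := A) (by linarith) hA0 h3 (by
      intro w hw i
      rw [hxe, map_mul]
      calc w (α : F) * w (a i : F) ≤ 1 / 8 * A :=
            mul_le_mul (h2 w hw).1 (Arc.le_io a i w) (apply_nonneg _ _) (by norm_num)
        _ = A / 8 := by ring)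
    refine ⟨i, hi.trans ?_⟩
    rw [hxe, map_mul]
    exact mul_le_mul_of_nonneg_right (h1.trans (le_max_left _ _)) (apply_nonneg _ _)
  have haj0 : 0 < w₀ (a j : F) := by
    by_contra h
    have h3 : M * w₀ (a j : F) ≤ 0 := mul_nonpos_of_nonneg_of_nonpos hMp.le (not_lt.1 h)
    linarith
  have hajF : (a j : F) ≠ 0 := InfinitePlace.pos_iff.1 haj0
  -- the second vector
  obtain ⟨α, γ, hα, h1, h1', h2⟩ := hM0 w₀ ((b j : F) / (a j : F))
  have hαF : (α : F) ≠ 0 := by
    intro h
    apply hα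
    exact_mod_cast h
  set x : Fin n → 𝓞 F := fun i => α * b i - γ * a i with hx
  have hxe : ∀ i, (x i : F) = (α : F) * (b i : F) - (γ : F) * (a i : F) := fun i => by
    rw [hx]
    change algebraMap (𝓞 F) F (α * b i - γ * a i) = _
    rw [map_sub, map_mul, map_mul]
  have hco : co x = (α : F) • co b - (γ : F) • co a := by
    funext i
    rw [Pi.sub_apply, Pi.smul_apply, Pi.smul_apply, smul_eq_mul, smul_eq_mul]
    exact hxe i
  have hxP : co x ∈ P := by
    rw [hco]
    exact P.sub_mem (P.smul_mem _ hbP) (P.smul_mem _ haP)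
  have hxn : co x ∉ Submodule.span F {co a} := by
    intro h
    apply hb
    have h3 : (α : F) • co b ∈ Submodule.span F {co a} := by
      have e : (α : F) • co b = co x + (γ : F) • co a := by rw [hco]; abel
      rw [e]
      exact Submodule.add_mem _ h (Submodule.smul_mem _ _ (Submodule.mem_span_singleton_self _))
    exact (Submodule.smul_mem_iff _ hαF).1 h3
  obtain ⟨i, hi⟩ := Arc.ge_at x w₀ (r := B / 4) (R := B) (by linarith) hB0 (hmin2 x hxP hxn) (by
    intro w hw i
    rw [hxe]
    have h3 : w ((α : F) * (b i : F)) ≤ 1 / 8 * B := by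
      rw [map_mul]
      exact mul_le_mul (h2 w hw).1 (Arc.le_io b i w) (apply_nonneg _ _) (by norm_num)
    have h4 : w ((γ : F) * (a i : F)) ≤ 1 / 8 * A := by
      rw [map_mul]
      exact mul_le_mul (h2 w hw).2 (Arc.le_io a i w) (apply_nonneg _ _) (by norm_num)
    refine (Arc.tri' w _ _).trans ?_
    linarith)
  refine ⟨(j, i), ?_⟩
  set D := w₀ (pl (co a) (co b) (j, i)) with hD
  have hD0 : 0 ≤ D := apply_nonneg _ _
  have h5 : w₀ ((b i : F) - (b j : F) / (a j : F) * (a i : F)) * w₀ (a j : F) = D := by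
    rw [hD, ← map_mul]
    congr 1
    change _ = (a j : F) * (b i : F) - (a i : F) * (b j : F)
    field_simp
  have h6 : w₀ ((b i : F) - (b j : F) / (a j : F) * (a i : F)) * A ≤ D * M := by
    calc w₀ ((b i : F) - (b j : F) / (a j : F) * (a i : F)) * A
        ≤ w₀ ((b i : F) - (b j : F) / (a j : F) * (a i : F)) * (M * w₀ (a j : F)) :=
          mul_le_mul_of_nonneg_left hj (apply_nonneg _ _)
      _ = D * M := by rw [← h5]; ring
  have h7 : B ≤ M * w₀ ((b i : F) - (b j : F) / (a j : F) * (a i : F)) + B / 8 := by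
    refine hi.trans ?_
    have e : (x i : F) = (α : F) * ((b i : F) - (b j : F) / (a j : F) * (a i : F)) +
        ((α : F) * ((b j : F) / (a j : F)) - γ) * (a i : F) := by
      rw [hxe]; ring
    rw [e]
    refine (Arc.tri w₀ _ _).trans (add_le_add ?_ ?_)
    · rw [map_mul]
      exact mul_le_mul_of_nonneg_right (h1.trans (le_max_left _ _)) (apply_nonneg _ _)
    · rw [map_mul]
      calc w₀ ((α : F) * ((b j : F) / (a j : F)) - γ) * w₀ (a i : F) ≤ 1 / 8 * A :=
            mul_le_mul h1' (Arc.le_io a i w₀) (apply_nonneg _ _) (by norm_num)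
        _ ≤ B / 8 := by linarith
  have h8 : 7 / 8 * (A * B) ≤ M ^ 2 * D := by
    have h9 : 7 / 8 * B ≤ M * w₀ ((b i : F) - (b j : F) / (a j : F) * (a i : F)) := by linarith
    calc 7 / 8 * (A * B) = A * (7 / 8 * B) := by ring
      _ ≤ A * (M * w₀ ((b i : F) - (b j : F) / (a j : F) * (a i : F))) :=
        mul_le_mul_of_nonneg_left h9 hA0.le
      _ = M * (w₀ ((b i : F) - (b j : F) / (a j : F) * (a i : F)) * A) := by ring
      _ ≤ M * (D * M) := mul_le_mul_of_nonneg_left h6 hMp.le
      _ = M ^ 2 * D := by ring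
  rw [div_mul_eq_mul_div, div_le_iff₀ (by positivity)]
  nlinarith

end Pool.Agent.N852.GR

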