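import Pool.Agent.N852.GR.Stm
import Pool.Agent.H548.BL.Pack

/-!
# Project GR (helper852), CEL (helper394): nets and cells in a normed space
-/

set_option autoImplicit false

open scoped Classical
open NumberField Module Matrix

namespace Pool.Agent.N852.GR

open MeasureTheory Metric

section cel

variable {E : Type} [NormedAddCommGroup E] [NormedSpace ℝ E] [FiniteDimensional ℝ E]

/-- maximal separated subsets of a bounded set -/
theorem cel_max (K : Set E) (R δ : ℝ) (hδ : 0 < δ) (hR : 0 ≤ R) (hK : ∀ x ∈ K, ‖x‖ ≤ R) :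
    ∃ G : Finset E, (∀ s ∈ G, s ∈ K) ∧ (∀ s ∈ G, ∀ t ∈ G, s ≠ t → δ ≤ ‖s - t‖) ∧
      ∀ x ∈ K, ∃ s ∈ G, ‖x - s‖ < δ := by
  by_contra hcon
  push Not at hcon
  have key : ∀ n : ℕ, ∃ G : Finset E, G.card = n ∧ (∀ s ∈ G, s ∈ K) ∧
      (∀ s ∈ G, ∀ t ∈ G, s ≠ t → δ ≤ ‖s - t‖) := by
    intro n
    induction n with
    | zero => exact ⟨∅, rfl, by simp, by simp⟩
    | succ n ih =>
      obtain ⟨G, hn, h1, h2⟩ := ih
      obtain ⟨x, hx, h3⟩ := hcon G h1 h2
      have hxG : x ∉ G := by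
        intro hx'
        have h4 := h3 x hx'
        rw [sub_self, norm_zero] at h4
        linarith
      refine ⟨insert x G, by rw [Finset.card_insert_of_notMem hxG, hn], ?_, ?_⟩
      · intro s hs
        rcases Finset.mem_insert.1 hs with rfl | hs
        · exact hx
        · exact h1 s hs
      · intro s hs t ht hst
        rcases Finset.mem_insert.1 hs with hsx | hs'
        · rcases Finset.mem_insert.1 ht with htx | ht'
          · exact absurd (hsx.trans htx.symm) hst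
          · rw [hsx]
            exact h3 t ht'
        · rcases Finset.mem_insert.1 ht with htx | ht'
          · rw [htx, norm_sub_rev]
            exact h3 s hs'
          · exact h2 s hs' t ht' hst
  obtain ⟨n, hn⟩ := exists_nat_gt ((2 * R / δ + 1) ^ finrank ℝ E)
  obtain ⟨G, h1, h2, h3⟩ := key n
  have h4 := Pool.Agent.H548.BL.sep_card G R δ hδ hR (fun c hc => hK c (h2 c hc)) h3
  rw [h1] at h4
  linarith

/-- a net in a ball of radius one -/
theorem cel_net (p : E) {μ : ℝ} (hμ : 1 ≤ μ) : ∃ G : Finset E, (∀ s ∈ G, ‖s - p‖ ≤ 1) ∧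
    (∀ s ∈ G, ∀ t ∈ G, s ≠ t → 1 / μ ≤ ‖s - t‖) ∧ μ ^ finrank ℝ E ≤ (G.card : ℝ) := by
  have hμ0 : 0 < μ := by linarith
  obtain ⟨G, h1, h2, h3⟩ := cel_max (closedBall p 1) (‖p‖ + 1) (1 / μ) (by positivity)
    (by positivity) (fun x hx => by
      rw [mem_closedBall, dist_eq_norm] at hx
      calc ‖x‖ = ‖p + (x - p)‖ := by congr 1; abel
        _ ≤ ‖p‖ + ‖x - p‖ := norm_add_le _ _
        _ ≤ ‖p‖ + 1 := by linarith)
  refine ⟨G, fun s hs => ?_, h2, ?_⟩
  · have h4 := h1 s hs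
    rwa [mem_closedBall, dist_eq_norm] at h4
  · borelize E
    let ν : Measure E := Measure.addHaar
    have hcov : closedBall p 1 ⊆ ⋃ s ∈ G, ball s (1 / μ) := by
      intro x hx
      obtain ⟨s, hs, h4⟩ := h3 x hx
      exact Set.mem_biUnion hs (by rw [mem_ball, dist_eq_norm]; exact h4)
    have h4 : ν (closedBall p 1) ≤ (G.card : ENNReal) *
        (ENNReal.ofReal ((1 / μ) ^ finrank ℝ E) * ν (ball 0 1)) := by
      calc ν (closedBall p 1) ≤ ν (⋃ s ∈ G, ball s (1 / μ)) := measure_mono hcov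
        _ ≤ ∑ s ∈ G, ν (ball s (1 / μ)) := measure_biUnion_finset_le _ _
        _ = ∑ s ∈ G, ENNReal.ofReal ((1 / μ) ^ finrank ℝ E) * ν (ball 0 1) :=
            Finset.sum_congr rfl fun s _ => Measure.addHaar_ball_of_pos ν s (by positivity)
        _ = _ := by rw [Finset.sum_const, nsmul_eq_mul]
    rw [Measure.addHaar_closedBall ν p zero_le_one, one_pow, ENNReal.ofReal_one, one_mul,
      ← mul_assoc] at h4
    have hb0 : ν (ball (0 : E) 1) ≠ 0 := (measure_ball_pos _ _ zero_lt_one).ne'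
    have hbt : ν (ball (0 : E) 1) ≠ ⊤ := measure_ball_lt_top.ne
    have h5 : (1 : ENNReal) ≤ (G.card : ENNReal) * ENNReal.ofReal ((1 / μ) ^ finrank ℝ E) := by
      rw [← ENNReal.mul_le_mul_iff_left hb0 hbt, one_mul]
      exact h4
    have h6 : (1 : ℝ) ≤ G.card * (1 / μ) ^ finrank ℝ E := by
      have h7 := ENNReal.toReal_mono (ENNReal.mul_ne_top (ENNReal.natCast_ne_top _)
        ENNReal.ofReal_ne_top) h5
      rwa [ENNReal.toReal_mul, ENNReal.toReal_natCast, ENNReal.toReal_ofReal (by positivity),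
        ENNReal.toReal_one] at h7
    rw [one_div, inv_pow, ← div_eq_mul_inv, le_div_iff₀ (by positivity), one_mul] at h6
    exact h6

end cel

/-- nets and cells -/
theorem celP : CelP := by
  intro W _ _ _ A
  obtain ⟨A', hA'⟩ : ∃ A', A' = max A 0 := ⟨_, rfl⟩
  have hA0 : 0 ≤ A' := by rw [hA']; exact le_max_right _ _
  have hAA : A ≤ A' := by rw [hA']; exact le_max_left _ _
  refine ⟨(8 * (A' + 1) + 1) ^ finrank ℝ W, one_le_pow₀ (by linarith), ?_⟩
  intro β Z S p μ Q hμ hQ hp hY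
  have hμ0 : 0 < μ := by linarith
  -- the nets
  have hG : ∀ b, ∃ G : Finset W, b ∈ Z →
      (∀ s ∈ G, s ∈ S b ∧ ‖s - p b‖ ≤ 1) ∧
      (∀ s ∈ G, ∀ t ∈ G, s ≠ t → 1 / μ ≤ ‖s - t‖) ∧ μ ^ finrank ℝ (S b) ≤ (G.card : ℝ) := by
    intro b
    by_cases hb : b ∈ Z
    · obtain ⟨G, h1, h2, h3⟩ := cel_net (E := S b) ⟨p b, (hp b hb).1⟩ hμ
      refine ⟨G.image (fun s : S b => (s : W)), fun _ => ⟨?_, ?_, ?_⟩⟩
      · intro s hs
        obtain ⟨t, ht, rfl⟩ := Finset.mem_image.1 hs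
        exact ⟨t.2, h1 t ht⟩
      · intro s hs t ht hst
        obtain ⟨s', hs', rfl⟩ := Finset.mem_image.1 hs
        obtain ⟨t', ht', rfl⟩ := Finset.mem_image.1 ht
        exact h2 s' hs' t' ht' fun h => hst (by rw [h])
      · rw [Finset.card_image_of_injective _ Subtype.val_injective]
        exact h3
    · exact ⟨∅, fun h => absurd h hb⟩
  choose G hG using hG
  -- the cells
  obtain ⟨X, hX1, hX2, hX3⟩ := cel_max (closedBall (0 : W) (A' + 1)) (A' + 1) (1 / (4 * μ))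
    (by positivity) (by linarith) (fun x hx => mem_closedBall_zero_iff.1 hx)
  have hXc : (X.card : ℝ) ≤ (8 * (A' + 1) + 1) ^ finrank ℝ W * μ ^ finrank ℝ W := by
    refine (Pool.Agent.H548.BL.sep_card X (A' + 1) (1 / (4 * μ)) (by positivity) (by linarith)
      (fun c hc => mem_closedBall_zero_iff.1 (hX1 c hc)) hX2).trans ?_
    rw [← mul_pow]
    refine pow_le_pow_left₀ (by positivity) ?_ _
    have e : 2 * (A' + 1) / (1 / (4 * μ)) = 8 * (A' + 1) * μ := by
      rw [div_div_eq_mul_div, div_one]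
      ring
    rw [e]
    nlinarith
  have hf : ∀ s : W, ∃ x : W, ‖s‖ ≤ A' + 1 → x ∈ X ∧ ‖s - x‖ < 1 / (4 * μ) := by
    intro s
    by_cases hs : ‖s‖ ≤ A' + 1
    · obtain ⟨x, hx, h1⟩ := hX3 s (mem_closedBall_zero_iff.2 hs)
      exact ⟨x, fun _ => ⟨hx, h1⟩⟩
    · exact ⟨0, fun h => absurd h hs⟩
  choose f hf using hf
  have hnorm : ∀ b ∈ Z, ∀ s ∈ G b, ‖s‖ ≤ A' + 1 := by
    intro b hb s hs
    have h1 := ((hG b hb).1 s hs).2
    calc ‖s‖ = ‖p b + (s - p b)‖ := by congr 1; abel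
      _ ≤ ‖p b‖ + ‖s - p b‖ := norm_add_le _ _
      _ ≤ A' + 1 := add_le_add ((hp b hb).2.trans hAA) h1
  have hinj : ∀ b ∈ Z, Set.InjOn f (G b : Set W) := by
    intro b hb s hs t ht hst
    by_contra hne
    have h1 := (hG b hb).2.1 s hs t ht hne
    have h2 := (hf s (hnorm b hb s hs)).2
    have h3 := (hf t (hnorm b hb t ht)).2
    rw [← hst, norm_sub_rev] at h3
    have h4 : ‖s - t‖ ≤ ‖s - f s‖ + ‖f s - t‖ := by
      calc ‖s - t‖ = ‖(s - f s) + (f s - t)‖ := by congr 1; abel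
        _ ≤ _ := norm_add_le _ _
    have h5 : 1 / (4 * μ) + 1 / (4 * μ) < 1 / μ := by
      rw [← add_div, div_lt_div_iff₀ (by positivity) hμ0]
      linarith
    linarith
  have hcell : ∀ x ∈ X, (((Z.filter fun b => x ∈ (G b).image f).card : ℕ) : ℝ) ≤ Q := by
    intro x _
    refine hY x _ fun b hb => ?_
    rw [Finset.mem_filter, Finset.mem_image] at hb
    obtain ⟨hb, s, hs, hc⟩ := hb
    have h2 := (hG b hb).1 s hs
    refine ⟨hb, s, h2.1, h2.2, ?_⟩
    have h3 := (hf s (hnorm b hb s hs)).2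
    rw [hc] at h3
    refine h3.le.trans ?_
    rw [div_le_div_iff₀ (by positivity) hμ0]
    linarith
  calc ∑ b ∈ Z, μ ^ finrank ℝ (S b) ≤ ∑ b ∈ Z, ((G b).card : ℝ) :=
        Finset.sum_le_sum fun b hb => (hG b hb).2.2
    _ = ∑ b ∈ Z, ∑ x ∈ X, (if x ∈ (G b).image f then (1 : ℝ) else 0) := by
        refine Finset.sum_congr rfl fun b hb => ?_
        rw [← Finset.sum_filter, Finset.sum_const, nsmul_eq_mul, mul_one,
          ← Finset.card_image_of_injOn (hinj b hb)]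
        congr 2
        ext x
        rw [Finset.mem_filter]
        refine ⟨fun h => ⟨?_, h⟩, fun h => h.2⟩
        rw [Finset.mem_image] at h
        obtain ⟨s, hs, rfl⟩ := h
        exact (hf s (hnorm b hb s hs)).1
    _ = ∑ x ∈ X, (((Z.filter fun b => x ∈ (G b).image f).card : ℕ) : ℝ) := by
        rw [Finset.sum_comm]
        refine Finset.sum_congr rfl fun x _ => ?_
        rw [← Finset.sum_filter, Finset.sum_const, nsmul_eq_mul, mul_one]
    _ ≤ ∑ x ∈ X, Q := Finset.sum_le_sum hcell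
    _ = (X.card : ℝ) * Q := by rw [Finset.sum_const, nsmul_eq_mul]
    _ ≤ (8 * (A' + 1) + 1) ^ finrank ℝ W * μ ^ finrank ℝ W * Q :=
        mul_le_mul_of_nonneg_right hXc hQ

end Pool.Agent.N852.GR
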