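import Pool.Agent.N852.GR.Stm

/-!
Project GR, part CNT: integral vectors with small image (helper374, after
`Pool.Agent.N232.MM.CntP`).
-/

namespace Pool.Agent.N852.GR

open scoped Classical
open NumberField Module Matrix

namespace CntAux

section Sep

open Finset MeasureTheory Metric Module
open scoped ENNReal Topology

/-- Separated points in a ball of a real normed space of finite dimension. -/
theorem sep_card {E : Type*} [NormedAddCommGroup E] [NormedSpace ℝ E] [FiniteDimensional ℝ E]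
    (s : Finset E) (R δ : ℝ) (hδ : 0 < δ) (hR : 0 ≤ R) (hs : ∀ c ∈ s, ‖c‖ ≤ R)
    (h : ∀ c ∈ s, ∀ d ∈ s, c ≠ d → δ ≤ ‖c - d‖) :
    (s.card : ℝ) ≤ (2 * R / δ + 1) ^ finrank ℝ E := by
  borelize E
  let μ : Measure E := Measure.addHaar
  have hδ2 : 0 < δ / 2 := by positivity
  have ρpos : 0 < R + δ / 2 := by positivity
  set A := ⋃ c ∈ s, ball (c : E) (δ / 2) with hA
  have D : Set.Pairwise (s : Set E) (Function.onFun Disjoint fun c => ball (c : E) (δ / 2)) := by
    rintro c hc d hd hcd
    apply ball_disjoint_ball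
    rw [dist_eq_norm]
    have := h c hc d hd hcd
    linarith
  have A_subset : A ⊆ ball (0 : E) (R + δ / 2) := by
    refine Set.iUnion₂_subset fun x hx => ?_
    apply ball_subset_ball'
    rw [dist_zero_right]
    have := hs x hx
    linarith
  have I : (s.card : ℝ≥0∞) * ENNReal.ofReal ((δ / 2) ^ finrank ℝ E) * μ (ball 0 1) ≤
      ENNReal.ofReal ((R + δ / 2) ^ finrank ℝ E) * μ (ball 0 1) :=
    calc
      (s.card : ℝ≥0∞) * ENNReal.ofReal ((δ / 2) ^ finrank ℝ E) * μ (ball 0 1) = μ A := by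
        rw [hA, measure_biUnion_finset D fun c _ => measurableSet_ball]
        simp only [μ.addHaar_ball_of_pos _ hδ2]
        simp only [Finset.sum_const, nsmul_eq_mul, mul_assoc]
      _ ≤ μ (ball (0 : E) (R + δ / 2)) := measure_mono A_subset
      _ = ENNReal.ofReal ((R + δ / 2) ^ finrank ℝ E) * μ (ball 0 1) := by
        simp only [μ.addHaar_ball_of_pos _ ρpos]
  have J : (s.card : ℝ≥0∞) * ENNReal.ofReal ((δ / 2) ^ finrank ℝ E) ≤
      ENNReal.ofReal ((R + δ / 2) ^ finrank ℝ E) :=
    (ENNReal.mul_le_mul_iff_left (measure_ball_pos _ _ zero_lt_one).ne' measure_ball_lt_top.ne).1 I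
  have K : (s.card : ℝ) * (δ / 2) ^ finrank ℝ E ≤ (R + δ / 2) ^ finrank ℝ E := by
    have := ENNReal.toReal_le_of_le_ofReal (pow_nonneg ρpos.le _) J
    rwa [ENNReal.toReal_mul, ENNReal.toReal_natCast, ENNReal.toReal_ofReal (by positivity)] at this
  have e : (2 * R / δ + 1) = (R + δ / 2) / (δ / 2) := by
    field_simp
  rw [e, div_pow, le_div_iff₀ (by positivity)]
  exact K

end Sep

/-- a maximal separated subset -/
theorem max_sep {β : Type*} (r : β → β → Prop) (hr : ∀ a, r a a) (hs : ∀ a b, r a b → r b a)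
    (Z : Finset β) : ∃ Z1 ⊆ Z, (∀ a ∈ Z1, ∀ b ∈ Z1, a ≠ b → ¬ r a b) ∧
      ∀ z ∈ Z, ∃ z1 ∈ Z1, r z z1 := by
  classical
  induction Z using Finset.induction_on with
  | empty => exact ⟨∅, by simp, by simp, by simp⟩
  | insert a Z ha ih =>
    obtain ⟨Z1, h1, h2, h3⟩ := ih
    by_cases h : ∃ z1 ∈ Z1, r a z1
    · refine ⟨Z1, h1.trans (Finset.subset_insert _ _), h2, ?_⟩
      intro z hz
      rw [Finset.mem_insert] at hz
      rcases hz with rfl | hz
      · exact h
      · exact h3 z hz
    · push Not at h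
      refine ⟨insert a Z1, Finset.insert_subset_insert _ h1, ?_, ?_⟩
      · intro x hx y hy hxy
        rw [Finset.mem_insert] at hx hy
        rcases hx with rfl | hx
        · rcases hy with rfl | hy
          · exact absurd rfl hxy
          · exact h y hy
        · rcases hy with rfl | hy
          · exact fun h4 => h x hx (hs _ _ h4)
          · exact h2 x hx y hy hxy
      · intro z hz
        rw [Finset.mem_insert] at hz
        rcases hz with rfl | hz
        · exact ⟨z, Finset.mem_insert_self _ _, hr z⟩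
        · obtain ⟨z1, h4, h5⟩ := h3 z hz
          exact ⟨z1, Finset.mem_insert_of_mem h4, h5⟩

end CntAux

open CntAux

theorem io_sub {F : Type} [Field F] [NumberField F] {n : ℕ} (x y : Fin n → 𝓞 F) :
    io (x - y) = io x - io y := by
  funext i
  simp [io, em, co]

/-- CNT: integral vectors with small image under a real linear map. -/
theorem cntP (F : Type) [Field F] [NumberField F] (hL : LatP F) : CntP F := by
  intro n r c K hc hK
  obtain ⟨-, hfin, -⟩ := hL n
  set r0 : ℝ := 3 * K / c + 1 with hr0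
  set M : ℕ := {x : Fin n → 𝓞 F | ‖io x‖ ≤ r0}.ncard with hM
  refine ⟨3 ^ (finrank ℚ F * n) * (M + 1), ?_, ?_⟩
  · have h1 : (1 : ℝ) ≤ 3 ^ (finrank ℚ F * n) := one_le_pow₀ (by norm_num)
    have h2 : (0 : ℝ) ≤ M := Nat.cast_nonneg _
    nlinarith
  intro B P hP hB hBP μ hμ
  have hYfin : {x : Fin n → 𝓞 F | ‖io x‖ ≤ μ ∧ ‖B (io x)‖ ≤ K}.Finite :=
    (hfin μ).subset fun x hx => hx.1
  set Z : Finset (Fin n → 𝓞 F) := hYfin.toFinset with hZ
  have hZc : {x : Fin n → 𝓞 F | ‖io x‖ ≤ μ ∧ ‖B (io x)‖ ≤ K}.ncard = Z.card :=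
    Set.ncard_eq_toFinset_card _ hYfin
  rw [hZc]
  have hZm : ∀ x ∈ Z, ‖io x‖ ≤ μ ∧ ‖B (io x)‖ ≤ K := fun x hx => by
    rw [hZ, Set.Finite.mem_toFinset] at hx
    exact hx
  have hcl : IsClosed (P : Set (Fin n → EE F)) := P.closed_of_finiteDimensional
  have hfr : finrank ℝ (Fin n → EE F) = finrank ℚ F * n := by
    rw [Module.finrank_pi_fintype, Finset.sum_const, Finset.card_univ, Fintype.card_fin,
      mixedEmbedding.finrank, smul_eq_mul, mul_comm]
  have hfinq : finrank ℝ ((Fin n → EE F) ⧸ P) = finrank ℚ F * n - r := by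
    have h1 := Submodule.finrank_quotient_add_finrank P
    rw [hfr] at h1
    omega
  -- the maximal separated subset
  have hsym : ∀ a b : Fin n → 𝓞 F,
      ‖(Submodule.Quotient.mk (io a - io b) : (Fin n → EE F) ⧸ P)‖ =
        ‖(Submodule.Quotient.mk (io b - io a) : (Fin n → EE F) ⧸ P)‖ := by
    intro a b
    have : (Submodule.Quotient.mk (io a - io b) : (Fin n → EE F) ⧸ P) =
        - Submodule.Quotient.mk (io b - io a) := by
      rw [← Submodule.Quotient.mk_neg, neg_sub]
    rw [this, norm_neg]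
  obtain ⟨Z1, hZ1, hsep, hcov⟩ := max_sep (fun a b : Fin n → 𝓞 F =>
    ‖(Submodule.Quotient.mk (io a - io b) : (Fin n → EE F) ⧸ P)‖ < 1) (fun a => by
      simp) (fun a b h => by rw [hsym]; exact h) Z
  -- the number of elements of `Z1`
  have hcard1 : (Z1.card : ℝ) ≤ 3 ^ (finrank ℚ F * n) * μ ^ (finrank ℚ F * n - r) := by
    set S' : Finset ((Fin n → EE F) ⧸ P) := Z1.image fun z => Submodule.Quotient.mk (io z) with hS'
    have hinj : S'.card = Z1.card := by
      apply Finset.card_image_of_injOn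
      intro x hx y hy hxy
      by_contra hne
      have h1 := hsep x hx y hy hne
      apply h1
      simp only at hxy
      rw [Submodule.Quotient.mk_sub, hxy, sub_self, norm_zero]
      exact one_pos
    have h1 := sep_card S' μ 1 one_pos (by linarith) (by
      intro x hx
      rw [hS', Finset.mem_image] at hx
      obtain ⟨z, hz, rfl⟩ := hx
      exact (Submodule.Quotient.norm_mk_le P _).trans (hZm z (hZ1 hz)).1) (by
      intro x hx y hy hxy
      rw [hS', Finset.mem_image] at hx hy
      obtain ⟨z, hz, rfl⟩ := hx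
      obtain ⟨z', hz', rfl⟩ := hy
      rw [← Submodule.Quotient.mk_sub]
      refine not_lt.1 (hsep z hz z' hz' ?_)
      rintro rfl
      exact hxy rfl)
    rw [hinj, hfinq] at h1
    have h2 : 2 * μ / 1 + 1 ≤ 3 * μ := by linarith
    calc (Z1.card : ℝ) ≤ (2 * μ / 1 + 1) ^ (finrank ℚ F * n - r) := h1
      _ ≤ (3 * μ) ^ (finrank ℚ F * n - r) := pow_le_pow_left₀ (by positivity) h2 _
      _ = 3 ^ (finrank ℚ F * n - r) * μ ^ (finrank ℚ F * n - r) := mul_pow _ _ _
      _ ≤ 3 ^ (finrank ℚ F * n) * μ ^ (finrank ℚ F * n - r) := by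
          gcongr
          · norm_num
          · omega
  -- the number of elements near an element of `Z1`
  have hcard2 : ∀ z1 ∈ Z1, ((Z.filter fun z =>
      ‖(Submodule.Quotient.mk (io z - io z1) : (Fin n → EE F) ⧸ P)‖ < 1).card : ℝ) ≤ M := by
    intro z1 hz1
    have hM' : M = (hfin r0).toFinset.card := Set.ncard_eq_toFinset_card _ (hfin r0)
    rw [hM']
    norm_cast
    apply Finset.card_le_card_of_injOn (fun z => z - z1)
    · intro z hz
      rw [Finset.mem_coe, Finset.mem_filter] at hz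
      rw [Finset.mem_coe, Set.Finite.mem_toFinset, Set.mem_ofPred_eq, io_sub]
      obtain ⟨m, hm1, hm2⟩ := Submodule.Quotient.norm_mk_lt
        (Submodule.Quotient.mk (io z - io z1) : (Fin n → EE F) ⧸ P)
        (ε := 1 - ‖(Submodule.Quotient.mk (io z - io z1) : (Fin n → EE F) ⧸ P)‖) (by linarith [hz.2])
      have hm3 : ‖m‖ < 1 := by linarith
      rw [Submodule.Quotient.eq] at hm1
      have hp : (io z - io z1) - m ∈ P := by
        have := P.neg_mem hm1
        rwa [neg_sub] at this
      set v := io z - io z1 with hv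
      have h1 : ‖B (v - m)‖ ≤ 3 * K := by
        have e : B (v - m) = (B (io z) - B (io z1)) - B m := by
          rw [hv, map_sub, map_sub]
        rw [e]
        refine (norm_sub_le _ _).trans ?_
        have h3 := hB m
        have h4 : K * ‖m‖ ≤ K * 1 := mul_le_mul_of_nonneg_left hm3.le hK
        have h5 := norm_sub_le (B (io z)) (B (io z1))
        have h6 := (hZm z hz.1).2
        have h7 := (hZm z1 (hZ1 hz1)).2
        linarith
      have h4 : ‖v - m‖ ≤ 3 * K / c := by
        rw [le_div_iff₀ hc]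
        have := hBP _ hp
        linarith
      calc ‖v‖ = ‖(v - m) + m‖ := by rw [sub_add_cancel]
        _ ≤ ‖v - m‖ + ‖m‖ := norm_add_le _ _
        _ ≤ r0 := by rw [hr0]; linarith
    · intro z _ z' _ h
      exact sub_left_injective h
  -- conclusion
  have hsub : Z ⊆ Z1.biUnion fun z1 => Z.filter fun z =>
      ‖(Submodule.Quotient.mk (io z - io z1) : (Fin n → EE F) ⧸ P)‖ < 1 := by
    intro z hz
    obtain ⟨z1, h1, h2⟩ := hcov z hz
    rw [Finset.mem_biUnion]
    exact ⟨z1, h1, Finset.mem_filter.2 ⟨hz, h2⟩⟩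
  have h1 : (Z.card : ℝ) ≤ ∑ z1 ∈ Z1, ((Z.filter fun z =>
      ‖(Submodule.Quotient.mk (io z - io z1) : (Fin n → EE F) ⧸ P)‖ < 1).card : ℝ) := by
    exact_mod_cast (Finset.card_le_card hsub).trans Finset.card_biUnion_le
  calc (Z.card : ℝ) ≤ _ := h1
    _ ≤ ∑ z1 ∈ Z1, (M : ℝ) := Finset.sum_le_sum hcard2
    _ = Z1.card * M := by rw [Finset.sum_const, nsmul_eq_mul]
    _ ≤ 3 ^ (finrank ℚ F * n) * μ ^ (finrank ℚ F * n - r) * M :=
        mul_le_mul_of_nonneg_right hcard1 (by positivity)
    _ ≤ 3 ^ (finrank ℚ F * n) * μ ^ (finrank ℚ F * n - r) * (M + 1) := by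
        gcongr
        linarith
    _ = _ := by ring

end Pool.Agent.N852.GR
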