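import Pool.Agent.N852.GR.Stm

/-!
Project GR, part CTT: the ideal of the minors of a minimal pair contains a fixed integer
(helper749).
-/

namespace Pool.Agent.N852.GR

open scoped Classical
open NumberField Module Matrix

namespace Ctt

variable {F : Type} [Field F] [NumberField F] {n : ℕ}

theorem w_le (x : Fin n → 𝓞 F) (i : Fin n) (w : InfinitePlace F) : w (x i : F) ≤ ‖io x‖ := by
  have h1 : ‖io x i‖ ≤ ‖io x‖ := norm_le_pi_norm (io x) i
  have h2 : mixedEmbedding.normAtPlace w (io x i) ≤ ‖io x i‖ := by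
    rw [mixedEmbedding.norm_eq_sup'_normAtPlace]
    exact Finset.le_sup' (fun w => mixedEmbedding.normAtPlace w (io x i)) (Finset.mem_univ w)
  have h3 : mixedEmbedding.normAtPlace w (io x i) = w (x i : F) :=
    mixedEmbedding.normAtPlace_apply w (x i : F)
  rw [← h3]
  exact h2.trans h1

theorem io_le (x : Fin n → 𝓞 F) (B : ℝ) (hB : 0 ≤ B)
    (h : ∀ (i : Fin n) (w : InfinitePlace F), w (x i : F) ≤ B) : ‖io x‖ ≤ B := by
  rw [pi_norm_le_iff_of_nonneg hB]
  intro i
  rw [mixedEmbedding.norm_eq_sup'_normAtPlace]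
  refine Finset.sup'_le _ _ fun w _ => ?_
  have h3 : mixedEmbedding.normAtPlace w (io x i) = w (x i : F) :=
    mixedEmbedding.normAtPlace_apply w (x i : F)
  rw [h3]
  exact h i w

theorem io_pos {x : Fin n → 𝓞 F} (h : x ≠ 0) : 0 < ‖io x‖ := by
  obtain ⟨i, hi⟩ : ∃ i, x i ≠ 0 := by
    by_contra h1
    push Not at h1
    exact h (funext h1)
  obtain ⟨w⟩ : Nonempty (InfinitePlace F) := inferInstance
  have h2 : (x i : F) ≠ 0 := by
    intro h3
    exact hi (by exact_mod_cast h3)
  exact lt_of_lt_of_le (w.pos_iff.2 h2) (w_le x i w)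

theorem co_ne {x : Fin n → 𝓞 F} (h : x ≠ 0) : co x ≠ 0 := by
  intro h1
  apply h
  funext i
  have h2 : (x i : F) = 0 := congrFun h1 i
  exact_mod_cast h2

/-- The coordinates of an integral vector of `P` with respect to a minimal pair have bounded
denominators. -/
theorem index {K : ℕ} (hK : ∀ s t : F, ∃ m : ℕ, 1 ≤ m ∧ m ≤ K ∧ ∃ γ η : 𝓞 F,
      ∀ w : InfinitePlace F, w ((m : F) * s - γ) ≤ 1 / 4 ∧ w ((m : F) * t - η) ≤ 1 / 4)
    {P : Submodule F (Fin n → F)} {a b : Fin n → 𝓞 F} (h : Mn P a b) (x : Fin n → 𝓞 F) (s t : F)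
    (hx : co x = s • co a + t • co b) :
    (∃ γ : 𝓞 F, (γ : F) = (K.factorial : F) * s) ∧ ∃ η : 𝓞 F, (η : F) = (K.factorial : F) * t := by
  obtain ⟨haP, hbP, ha0, hb, hab, hmin1, hmin2⟩ := h
  obtain ⟨m, hm1, hmK, γ, η, hw⟩ := hK s t
  have hb0 : b ≠ 0 := by
    intro h
    apply hb
    have : co b = 0 := by
      rw [h]
      funext i
      show ((0 : 𝓞 F) : F) = 0
      simp
    rw [this]
    exact Submodule.zero_mem _
  set u : F := (m : F) * s - γ with hu
  set v : F := (m : F) * t - η with hv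
  obtain ⟨y, hy⟩ : ∃ y : Fin n → 𝓞 F, y = fun i => (m : 𝓞 F) * x i - γ * a i - η * b i := ⟨_, rfl⟩
  have hcoy : co y = u • co a + v • co b := by
    funext i
    have h1 : algebraMap (𝓞 F) F (x i) =
        s * algebraMap (𝓞 F) F (a i) + t * algebraMap (𝓞 F) F (b i) := congrFun hx i
    rw [hy, hu, hv]
    show algebraMap (𝓞 F) F ((m : 𝓞 F) * x i - γ * a i - η * b i) =
      ((m : F) * s - algebraMap (𝓞 F) F γ) * algebraMap (𝓞 F) F (a i) +
      ((m : F) * t - algebraMap (𝓞 F) F η) * algebraMap (𝓞 F) F (b i)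
    rw [map_sub, map_sub, map_mul, map_mul, map_mul, map_natCast, h1]
    ring
  have hyP : co y ∈ P := by
    rw [hcoy]
    exact P.add_mem (P.smul_mem _ haP) (P.smul_mem _ hbP)
  have hyi : ∀ i (w : InfinitePlace F), w (y i : F) ≤ w u * ‖io a‖ + w v * ‖io b‖ := by
    intro i w
    have h1 : (y i : F) = u * (a i : F) + v * (b i : F) := congrFun hcoy i
    rw [h1]
    refine (w.1.add_le _ _).trans ?_
    rw [w.1.map_mul, w.1.map_mul]
    exact add_le_add (mul_le_mul_of_nonneg_left (w_le a i w) (apply_nonneg w _))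
      (mul_le_mul_of_nonneg_left (w_le b i w) (apply_nonneg w _))
  have hA0 : 0 < ‖io a‖ := io_pos ha0
  have hB0 : 0 < ‖io b‖ := io_pos hb0
  -- `v = 0`
  have hv0 : v = 0 := by
    by_contra hv0
    have h1 : co y ∉ Submodule.span F {co a} := by
      intro h2
      apply hb
      have h3 : v • co b ∈ Submodule.span F {co a} := by
        have h4 : v • co b = co y - u • co a := by
          rw [hcoy]
          abel
        rw [h4]
        exact Submodule.sub_mem _ h2
          (Submodule.smul_mem _ _ (Submodule.mem_span_singleton_self _))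
      exact (Submodule.smul_mem_iff _ hv0).1 h3
    have h2 := hmin2 y hyP h1
    have h3 : ‖io y‖ ≤ ‖io b‖ / 2 := by
      refine io_le y _ (by positivity) fun i w => ?_
      refine (hyi i w).trans ?_
      have h4 : w u * ‖io a‖ ≤ 1 / 4 * ‖io b‖ :=
        mul_le_mul (hw w).1 hab (norm_nonneg _) (by norm_num)
      have h5 : w v * ‖io b‖ ≤ 1 / 4 * ‖io b‖ :=
        mul_le_mul_of_nonneg_right (hw w).2 (norm_nonneg _)
      linarith
    linarith
  have hu0 : u = 0 := by
    by_contra hu0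
    have h1 : y ≠ 0 := by
      intro h2
      have h3 : co y = 0 := by
        rw [h2]
        funext i
        show ((0 : 𝓞 F) : F) = 0
        simp
      rw [hcoy, hv0, zero_smul, add_zero] at h3
      exact (smul_ne_zero hu0 (co_ne ha0)) h3
    have h2 := hmin1 y hyP h1
    have h3 : ‖io y‖ ≤ ‖io a‖ / 4 := by
      refine io_le y _ (by positivity) fun i w => ?_
      refine (hyi i w).trans ?_
      have h4 : w u * ‖io a‖ ≤ 1 / 4 * ‖io a‖ :=
        mul_le_mul_of_nonneg_right (hw w).1 (norm_nonneg _)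
      rw [hv0, map_zero]
      linarith
    linarith
  obtain ⟨q, hq⟩ : m ∣ K.factorial := Nat.dvd_factorial (by omega) hmK
  refine ⟨⟨(q : 𝓞 F) * γ, ?_⟩, ⟨(q : 𝓞 F) * η, ?_⟩⟩
  · have h1 : (m : F) * s = algebraMap (𝓞 F) F γ := sub_eq_zero.1 (hu.symm.trans hu0)
    show algebraMap (𝓞 F) F ((q : 𝓞 F) * γ) = _
    rw [map_mul, map_natCast, ← h1, hq, Nat.cast_mul]
    ring
  · have h1 : (m : F) * t = algebraMap (𝓞 F) F η := sub_eq_zero.1 (hv.symm.trans hv0)
    show algebraMap (𝓞 F) F ((q : 𝓞 F) * η) = _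
    rw [map_mul, map_natCast, ← h1, hq, Nat.cast_mul]
    ring

end Ctt

open Ctt in
/-- **The ideal of the minors of a minimal pair contains a fixed integer.** -/
theorem cttP (F : Type) [Field F] [NumberField F] (hP : Pig2P F) : CttP F := by
  obtain ⟨K, hK⟩ := hP (1 / 4) (by norm_num)
  refine ⟨K.factorial ^ 2, pow_ne_zero _ (Nat.factorial_ne_zero _), ?_⟩
  intro n P a b _ h
  obtain ⟨c, hc⟩ : ∃ c : Ideal (𝓞 F), c = Ideal.span (Set.range (pl a b)) := ⟨_, rfl⟩
  have hmem : ∀ p, pl a b p ∈ c := fun p => by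
    rw [hc]
    exact Ideal.subset_span ⟨p, rfl⟩
  rw [← hc]
  have ha0 := h.2.2.1
  -- the ideal is not zero
  have hc0 : c ≠ ⊥ := by
    intro hc0
    obtain ⟨j, hj⟩ : ∃ j, a j ≠ 0 := by
      by_contra h1
      push Not at h1
      exact ha0 (funext h1)
    have hj' : (a j : F) ≠ 0 := by
      intro h3
      exact hj (by exact_mod_cast h3)
    apply h.2.2.2.1
    rw [Submodule.mem_span_singleton]
    refine ⟨(b j : F) / (a j : F), ?_⟩
    funext i
    have h1 : pl a b (j, i) = 0 := by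
      have := hmem (j, i)
      rw [hc0] at this
      exact (Ideal.mem_bot).1 this
    have h2 : a j * b i - a i * b j = 0 := h1
    have h3 : (a j : F) * (b i : F) - (a i : F) * (b j : F) = 0 := by exact_mod_cast h2
    show (b j : F) / (a j : F) * (a i : F) = (b i : F)
    field_simp
    linear_combination -h3
  -- the inverse ideal
  have key : ∀ α : F, (∀ p, ∃ z : 𝓞 F, (z : F) = α * (pl a b p : 𝓞 F)) →
      ∃ z : 𝓞 F, (z : F) = ((K.factorial ^ 2 : ℕ) : F) * α := by
    intro α hα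
    choose z hz using hα
    have h1 : ∀ j, ∃ γ : 𝓞 F, (γ : F) = (K.factorial : F) * (α * (a j : F)) := by
      intro j
      have h2 : co (fun i => z (j, i)) = (-(α * (b j : F))) • co a + (α * (a j : F)) • co b := by
        funext i
        show (z (j, i) : F) = (-(α * (b j : F))) * (a i : F) + (α * (a j : F)) * (b i : F)
        rw [hz]
        show α * ((a j * b i - a i * b j : 𝓞 F) : F) = _
        push_cast
        ring
      exact (index hK h _ _ _ h2).2
    choose γ hγ using h1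
    have h2 : co γ = ((K.factorial : F) * α) • co a + (0 : F) • co b := by
      funext j
      show (γ j : F) = ((K.factorial : F) * α) * (a j : F) + 0 * (b j : F)
      rw [hγ]
      ring
    obtain ⟨y, hy⟩ := (index hK h _ _ _ h2).1
    refine ⟨y, ?_⟩
    rw [hy]
    push_cast
    ring
  have hcF : (c : FractionalIdeal (nonZeroDivisors (𝓞 F)) F) ≠ 0 :=
    FractionalIdeal.coeIdeal_ne_zero.2 hc0
  have h1 : FractionalIdeal.spanSingleton (nonZeroDivisors (𝓞 F)) (((K.factorial ^ 2 : ℕ) : F)) *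
      (c : FractionalIdeal (nonZeroDivisors (𝓞 F)) F)⁻¹ ≤ 1 := by
    rw [FractionalIdeal.spanSingleton_mul_le_iff]
    intro α hα
    rw [FractionalIdeal.mem_inv_iff hcF] at hα
    rw [FractionalIdeal.mem_one_iff]
    refine key α fun p => ?_
    have h2 := hα (algebraMap (𝓞 F) F (pl a b p))
      ((FractionalIdeal.mem_coeIdeal _).2 ⟨_, hmem p, rfl⟩)
    rw [FractionalIdeal.mem_one_iff] at h2
    exact h2
  have h2 : FractionalIdeal.spanSingleton (nonZeroDivisors (𝓞 F)) (((K.factorial ^ 2 : ℕ) : F)) ≤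
      (c : FractionalIdeal (nonZeroDivisors (𝓞 F)) F) := by
    calc FractionalIdeal.spanSingleton (nonZeroDivisors (𝓞 F)) (((K.factorial ^ 2 : ℕ) : F))
        = (FractionalIdeal.spanSingleton (nonZeroDivisors (𝓞 F)) (((K.factorial ^ 2 : ℕ) : F)) *
          (c : FractionalIdeal (nonZeroDivisors (𝓞 F)) F)⁻¹) *
          (c : FractionalIdeal (nonZeroDivisors (𝓞 F)) F) := by
          rw [mul_assoc, inv_mul_cancel₀ hcF, mul_one]
      _ ≤ 1 * (c : FractionalIdeal (nonZeroDivisors (𝓞 F)) F) := by gcongr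
      _ = _ := one_mul _
  rw [FractionalIdeal.spanSingleton_le_iff_mem, FractionalIdeal.mem_coeIdeal] at h2
  obtain ⟨x, hx, hx'⟩ := h2
  have h3 : x = ((K.factorial ^ 2 : ℕ) : 𝓞 F) := by
    apply FaithfulSMul.algebraMap_injective (𝓞 F) F
    rw [hx']
    simp
  rw [← h3]
  exact hx

end Pool.Agent.N852.GR
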