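import Pool.Agent.N852.GR.Stm

/-!
Project GR, part DIM: the real dimension of the solution space (helper374).
-/

namespace Pool.Agent.N852.GR

open scoped Classical
open NumberField Module Matrix

/-- the vectors of `F^n` orthogonal to `z` -/
noncomputable def orthF {F : Type} [Field F] [NumberField F] {n : ℕ} (z : Fin n → EE F) :
    Submodule F (Fin n → F) where
  carrier := {v | ∑ j, z j * mixedEmbedding F (v j) = 0}
  zero_mem' := by
    simp
  add_mem' := by
    intro a b ha hb
    have h1 : ∑ j, z j * mixedEmbedding F (a j) = 0 := ha
    have h2 : ∑ j, z j * mixedEmbedding F (b j) = 0 := hb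
    show ∑ j, z j * mixedEmbedding F ((a + b) j) = 0
    simp only [Pi.add_apply, map_add, mul_add, Finset.sum_add_distrib]
    rw [h1, h2, add_zero]
  smul_mem' := by
    intro c a ha
    have h1 : ∑ j, z j * mixedEmbedding F (a j) = 0 := ha
    show ∑ j, z j * mixedEmbedding F ((c • a) j) = 0
    simp only [Pi.smul_apply, smul_eq_mul, map_mul]
    have : ∀ j, z j * (mixedEmbedding F c * mixedEmbedding F (a j)) =
        mixedEmbedding F c * (z j * mixedEmbedding F (a j)) := fun j => by ring
    simp only [this]
    rw [← Finset.mul_sum, h1, mul_zero]

/-- DIM: the real dimension of the solution space of `F`-linear equations. -/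
theorem dimP (F : Type) [Field F] [NumberField F] : DimP F := by
  intro n ι _ u
  unfold rk
  obtain ⟨U, hU⟩ : ∃ U, U = Submodule.span F (Set.range fun i => co (u i)) := ⟨_, rfl⟩
  rw [← hU]
  let g := Module.finBasis F U
  have hgspan : Submodule.span F (Set.range fun l => (g l : Fin n → F)) = U := by
    have h1 := congrArg (Submodule.map U.subtype) g.span_eq
    rw [Submodule.map_span, Submodule.map_top, Submodule.range_subtype, ← Set.range_comp] at h1
    exact h1
  have hli : LinearIndependent F (fun l => (g l : Fin n → F)) :=
    g.linearIndependent.map' U.subtype U.ker_subtype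
  have hinj : Function.Injective (Fintype.linearCombination F (fun l => (g l : Fin n → F))) :=
    linearIndependent_iff_injective_fintypeLinearCombination.1 hli
  obtain ⟨L, hL⟩ := LinearMap.exists_leftInverse_of_injective _ (LinearMap.ker_eq_bot.2 hinj)
  let Ψ : (Fin n → EE F) →ₗ[ℝ] (Fin (finrank F U) → EE F) :=
    { toFun := fun z l => ∑ j, z j * mixedEmbedding F ((g l : Fin n → F) j)
      map_add' := by
        intro x y
        funext l
        simp only [Pi.add_apply, add_mul, Finset.sum_add_distrib]
      map_smul' := by
        intro c x
        funext l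
        simp only [Pi.smul_apply, RingHom.id_apply, smul_mul_assoc, ← Finset.smul_sum] }
  have hker : LinearMap.ker Ψ = WW u := by
    ext z
    rw [LinearMap.mem_ker]
    have e1 : Ψ z = 0 ↔ U ≤ orthF z := by
      have e3 : U ≤ orthF z ↔
          Submodule.span F (Set.range fun l => (g l : Fin n → F)) ≤ orthF z := by rw [hgspan]
      rw [e3, Submodule.span_le]
      constructor
      · rintro h _ ⟨l, rfl⟩
        exact congrFun h l
      · intro h
        funext l
        exact h ⟨l, rfl⟩
    have e2 : z ∈ WW u ↔ U ≤ orthF z := by
      rw [hU, Submodule.span_le]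
      constructor
      · rintro h _ ⟨i, rfl⟩
        exact h i
      · intro h i
        exact h ⟨i, rfl⟩
    rw [e1, e2]
  have hsurj : LinearMap.range Ψ = ⊤ := by
    rw [LinearMap.range_eq_top]
    intro y
    refine ⟨fun j => ∑ m, y m * mixedEmbedding F (L (Pi.single j 1) m), ?_⟩
    funext l
    show ∑ j, (∑ m, y m * mixedEmbedding F (L (Pi.single j 1) m)) *
      mixedEmbedding F ((g l : Fin n → F) j) = y l
    have h1 : ∀ m, ∑ j, (g l : Fin n → F) j * L (Pi.single j 1) m = if m = l then 1 else 0 := by
      intro m
      have h2 : L (g l : Fin n → F) = Pi.single l 1 := by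
        have h3 := congrArg (fun f => f (Pi.single l (1 : F))) hL
        simp only [LinearMap.comp_apply, LinearMap.id_apply] at h3
        rw [Fintype.linearCombination_apply_single, one_smul] at h3
        exact h3
      have h4 : (g l : Fin n → F) = ∑ j, (g l : Fin n → F) j • (Pi.single j (1 : F) : Fin n → F) := by
        funext i
        simp [Finset.sum_apply, Pi.single_apply]
      have h5 := congrFun h2 m
      rw [h4, map_sum, Finset.sum_apply] at h5
      simp only [map_smul, Pi.smul_apply, smul_eq_mul] at h5
      rw [h5, Pi.single_apply]
    calc ∑ j, (∑ m, y m * mixedEmbedding F (L (Pi.single j 1) m)) *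
          mixedEmbedding F ((g l : Fin n → F) j)
        = ∑ m, y m * mixedEmbedding F (∑ j, (g l : Fin n → F) j * L (Pi.single j 1) m) := by
          simp only [Finset.sum_mul]
          rw [Finset.sum_comm]
          refine Finset.sum_congr rfl fun m _ => ?_
          rw [map_sum, Finset.mul_sum]
          refine Finset.sum_congr rfl fun j _ => ?_
          rw [map_mul]
          ring
      _ = y l := by
          simp only [h1]
          rw [Finset.sum_eq_single l]
          · rw [if_pos rfl, map_one, mul_one]
          · intro m _ hm
            rw [if_neg hm, map_zero, mul_zero]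
          · intro h
            exact absurd (Finset.mem_univ l) h
  have hdim : ∀ m : ℕ, finrank ℝ (Fin m → EE F) = finrank ℚ F * m := by
    intro m
    rw [Module.finrank_pi_fintype, Finset.sum_const, Finset.card_univ, Fintype.card_fin,
      mixedEmbedding.finrank, smul_eq_mul, mul_comm]
  have h1 := LinearMap.finrank_range_add_finrank_ker Ψ
  rw [hker, hsurj, finrank_top, hdim, hdim] at h1
  rw [Nat.mul_sub]
  omega

end Pool.Agent.N852.GR
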