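import Mathlib

/-!
Project GR: weak Manin conjecture for smooth linear sections of the Grassmannian `Gr(2,n)` over
number fields.  Definitions and the statements of the parts.
-/

namespace Pool.Agent.N852.GR

open scoped Classical
open NumberField Module Matrix

variable (F : Type) [Field F] [NumberField F]

/-- `F ⊗ ℝ`, with the norm `max_w |x|_w`. -/
abbrev EE : Type := mixedEmbedding.mixedSpace F

variable {F} {n k : ℕ}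

/-- The vector of `(F ⊗ ℝ)^n` given by a vector of `F^n`. -/
noncomputable def em (x : Fin n → F) : Fin n → EE F := fun i => mixedEmbedding F (x i)

/-- An integral vector as a vector of `F^n`. -/
def co (x : Fin n → 𝓞 F) : Fin n → F := fun i => (x i : F)

/-- The vector of `(F ⊗ ℝ)^n` given by an integral vector. -/
noncomputable def io (x : Fin n → 𝓞 F) : Fin n → EE F := em (co x)

/-- The `2 × 2` minors. -/
def pl {R : Type} [CommRing R] (a b : Fin n → R) : Fin n × Fin n → R :=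
  fun p => a p.1 * b p.2 - a p.2 * b p.1

/-- The space of the `z` in `(F ⊗ ℝ)^n` with `u_i · z = 0` for all `i`. -/
noncomputable def WW {ι : Type} (u : ι → Fin n → 𝓞 F) : Submodule ℝ (Fin n → EE F) where
  carrier := {z | ∀ i, ∑ j, z j * mixedEmbedding F (u i j : F) = 0}
  zero_mem' := by
    intro i
    simp
  add_mem' := by
    intro a b ha hb i
    have h1 := ha i
    have h2 := hb i
    simp only [Pi.add_apply, add_mul, Finset.sum_add_distrib]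
    rw [h1, h2, add_zero]
  smul_mem' := by
    intro c a ha i
    have h1 := ha i
    simp only [Pi.smul_apply, smul_mul_assoc]
    rw [← Finset.smul_sum, h1, smul_zero]

/-- The rank over `F` of a family of vectors. -/
noncomputable def rk {ι : Type} (u : ι → Fin n → 𝓞 F) : ℕ :=
  finrank F (Submodule.span F (Set.range fun i => co (u i)))

/-- The equations for the second vector: `A_i a`. -/
def dr (A : Fin k → Matrix (Fin n) (Fin n) (𝓞 F)) (a : Fin n → 𝓞 F) : Fin k → Fin n → 𝓞 F :=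
  fun i => (A i).mulVec a

/-- `a` is good: `A_1 a, …, A_k a` are linearly independent. -/
def Gd (A : Fin k → Matrix (Fin n) (Fin n) (𝓞 F)) (a : Fin n → 𝓞 F) : Prop :=
  LinearIndependent F fun i => co (dr A a i)

/-- The space of the real relations between the `A_i b`. -/
noncomputable def RR (A : Fin k → Matrix (Fin n) (Fin n) (𝓞 F)) (b : Fin n → 𝓞 F) :
    Submodule ℝ (Fin k → EE F) :=
  WW fun (j : Fin n) (i : Fin k) => dr A b i j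

/-- The map `z ↦ ∑ s_i A_i z`. -/
noncomputable def AS (A : Fin k → Matrix (Fin n) (Fin n) (𝓞 F)) (s : Fin k → EE F) :
    (Fin n → EE F) →ₗ[ℝ] (Fin n → EE F) where
  toFun z := fun j => ∑ i, s i * ∑ l, mixedEmbedding F (A i j l : F) * z l
  map_add' := by
    intro x y
    funext j
    simp only [Pi.add_apply, mul_add, Finset.sum_add_distrib]
  map_smul' := by
    intro c x
    funext j
    simp only [Pi.smul_apply, RingHom.id_apply, mul_smul_comm, ← Finset.smul_sum]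

/-- The pairs with a good first vector. -/
def TS (A : Fin k → Matrix (Fin n) (Fin n) (𝓞 F)) (X Y : ℝ) :
    Set ((Fin n → 𝓞 F) × (Fin n → 𝓞 F)) :=
  {p | ‖io p.1‖ ≤ X ∧ ‖io p.2‖ ≤ Y ∧ Gd A p.1 ∧ ∀ i, dr A p.1 i ⬝ᵥ p.2 = 0}

/-- The good pairs. -/
def NS (A : Fin k → Matrix (Fin n) (Fin n) (𝓞 F)) (X Y : ℝ) :
    Set ((Fin n → 𝓞 F) × (Fin n → 𝓞 F)) :=
  {p | p ∈ TS A X Y ∧ Gd A p.2}

/-- Every nonzero complex combination has rank at least `R`. -/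
def RC (A : Fin k → Matrix (Fin n) (Fin n) F) (R : ℕ) : Prop :=
  ∀ (σ : F →+* ℂ) (l : Fin k → ℂ), l ≠ 0 → R ≤ (∑ i, l i • (A i).map σ).rank

/-- The matrices over `F` given by matrices over the integers. -/
def cm (A : Fin k → Matrix (Fin n) (Fin n) (𝓞 F)) : Fin k → Matrix (Fin n) (Fin n) F :=
  fun i => (A i).map (algebraMap (𝓞 F) F)

/-- The Jacobian criterion for `{P : A_i | P = 0}` in the Grassmannian of planes. -/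
def Smooth (A : Fin k → Matrix (Fin n) (Fin n) F) : Prop :=
  ∀ (σ : F →+* ℂ) (a b : Fin n → ℂ), LinearIndependent ℂ ![a, b] →
    (∀ i, a ⬝ᵥ ((A i).map σ).mulVec b = 0) → ∀ l : Fin k → ℂ, l ≠ 0 →
      (∑ i, l i • (A i).map σ).mulVec a ≠ 0 ∨ (∑ i, l i • (A i).map σ).mulVec b ≠ 0

/-- The pair consists of successive minimal vectors of the lattice of `P`. -/
def Mn (P : Submodule F (Fin n → F)) (a b : Fin n → 𝓞 F) : Prop :=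
  co a ∈ P ∧ co b ∈ P ∧ a ≠ 0 ∧ co b ∉ Submodule.span F {co a} ∧ ‖io a‖ ≤ ‖io b‖ ∧
    (∀ x : Fin n → 𝓞 F, co x ∈ P → x ≠ 0 → ‖io a‖ ≤ ‖io x‖) ∧
    ∀ x : Fin n → 𝓞 F, co x ∈ P → co x ∉ Submodule.span F {co a} → ‖io b‖ ≤ ‖io x‖

/-! ### The parts -/

/-- LAT -/
def LatP (F : Type) [Field F] [NumberField F] : Prop :=
  ∀ n : ℕ, (∀ x : Fin n → 𝓞 F, x ≠ 0 → 1 ≤ ‖io x‖) ∧
    (∀ B : ℝ, {x : Fin n → 𝓞 F | ‖io x‖ ≤ B}.Finite) ∧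
    ∀ (L : AddSubgroup (Fin n → 𝓞 F)) (W : Submodule ℝ (Fin n → EE F)), (∀ x ∈ L, io x ∈ W) →
      ∀ B ρ : ℝ, 0 < ρ → ρ ≤ B → ({x : Fin n → 𝓞 F | x ∈ L ∧ ‖io x‖ ≤ B}.ncard : ℝ) ≤
        (3 * B / ρ) ^ finrank ℝ W * ({x : Fin n → 𝓞 F | x ∈ L ∧ ‖io x‖ ≤ ρ}.ncard : ℝ)

/-- DIM -/
def DimP (F : Type) [Field F] [NumberField F] : Prop :=
  ∀ (n : ℕ) (ι : Type) [Finite ι] (u : ι → Fin n → 𝓞 F),
    finrank ℝ (WW u) = finrank ℚ F * (n - rk u)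

/-- TRK -/
def TrkP (F : Type) [Field F] [NumberField F] : Prop :=
  ∀ (n k : ℕ) (u : Fin k → Fin n → 𝓞 F), rk u = rk (fun (j : Fin n) (i : Fin k) => u i j)

/-- CEL -/
def CelP : Prop := ∀ (W : Type) [NormedAddCommGroup W] [NormedSpace ℝ W] [FiniteDimensional ℝ W]
  (A : ℝ), ∃ C : ℝ, 1 ≤ C ∧ ∀ (β : Type) (Z : Finset β) (S : β → Submodule ℝ W) (p : β → W)
    (μ Q : ℝ), 1 ≤ μ → 0 ≤ Q → (∀ b ∈ Z, p b ∈ S b ∧ ‖p b‖ ≤ A) →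
    (∀ (s₀ : W) (Y : Finset β), (∀ b ∈ Y, b ∈ Z ∧ ∃ s ∈ S b, ‖s - p b‖ ≤ 1 ∧ ‖s - s₀‖ ≤ 1 / μ) →
      (Y.card : ℝ) ≤ Q) →
    ∑ b ∈ Z, μ ^ finrank ℝ (S b) ≤ C * μ ^ finrank ℝ W * Q

/-- CNT -/
def CntP (F : Type) [Field F] [NumberField F] : Prop :=
  ∀ (n r : ℕ) (c K : ℝ), 0 < c → 0 ≤ K → ∃ C : ℝ, 1 ≤ C ∧
    ∀ (B : (Fin n → EE F) →ₗ[ℝ] (Fin n → EE F)) (P : Submodule ℝ (Fin n → EE F)),
      finrank ℝ P = r → (∀ z, ‖B z‖ ≤ K * ‖z‖) → (∀ p ∈ P, c * ‖p‖ ≤ ‖B p‖) →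
      ∀ μ : ℝ, 1 ≤ μ → ({x : Fin n → 𝓞 F | ‖io x‖ ≤ μ ∧ ‖B (io x)‖ ≤ K}.ncard : ℝ) ≤
        C * μ ^ (finrank ℚ F * n - r)

/-- RNK -/
def RnkP (F : Type) [Field F] [NumberField F] : Prop :=
  ∀ (n k R : ℕ) (A : Fin k → Matrix (Fin n) (Fin n) (𝓞 F)), RC (cm A) R →
    ∃ c : ℝ, 0 < c ∧ ∀ s : Fin k → EE F, ‖s‖ ≤ 5 →
      (∀ w : InfinitePlace F, ∃ i, 1 ≤ mixedEmbedding.normAtPlace w (s i)) →
      ∃ P : Submodule ℝ (Fin n → EE F), finrank ℝ P = finrank ℚ F * R ∧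
        ∀ p ∈ P, c * ‖p‖ ≤ ‖AS A s p‖

/-- PBP -/
def PbP (F : Type) [Field F] [NumberField F] : Prop :=
  ∀ (n k : ℕ) (A : Fin k → Matrix (Fin n) (Fin n) (𝓞 F)) (b : Fin n → 𝓞 F), ¬ Gd A b →
    ∃ p ∈ RR A b, ‖p‖ ≤ 3 ∧ ∀ w : InfinitePlace F, ∃ i, mixedEmbedding.normAtPlace w (p i) = 3

/-- BAD -/
def BadP (F : Type) [Field F] [NumberField F] : Prop :=
  ∀ (n k R : ℕ) (A : Fin k → Matrix (Fin n) (Fin n) (𝓞 F)), RC (cm A) R → R ≤ n →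
    ∃ C : ℝ, 1 ≤ C ∧ ∀ μ : ℝ, 1 ≤ μ → ∀ Z : Finset (Fin n → 𝓞 F),
      (∀ b ∈ Z, ‖io b‖ ≤ μ ∧ ¬ Gd A b) →
      ∑ b ∈ Z, μ ^ (finrank ℚ F * (k - rk (dr A b))) ≤ C * μ ^ (finrank ℚ F * (k + n - R))

/-- EPS -/
def EpsP : Prop := ∀ (N T : ℝ → ℝ → ℝ) (d m k e : ℕ) (C : ℝ), 1 ≤ d → 1 ≤ k → 1 ≤ C →
  (∀ X Y, 0 ≤ N X Y) → (∀ X Y, N X Y ≤ T X Y) → (∀ X Y, N X Y = N Y X) →
  (∀ X Y ρ, 1 ≤ X → 1 ≤ ρ → ρ ≤ Y → T X Y ≤ C * (Y / ρ) ^ (d * m) * T X ρ) →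
  (∀ X ρ g, 1 ≤ X → 1 ≤ ρ → 1 ≤ g → X ≤ g * ρ →
    T X ρ ≤ N X ρ + C * (X * ρ) ^ (d * m) * (g ^ (d * k) / ρ ^ d)) →
  (∀ X Y, 1 ≤ X → 1 ≤ Y → N X Y ≤ C * (X * Y) ^ e) →
  ∀ ε : ℝ, 0 < ε → ∃ C' : ℝ, 1 ≤ C' ∧ ∀ X Y M : ℝ, 1 ≤ X → X ≤ M → 1 ≤ Y → Y ≤ M →
    N X Y ≤ C' * (X * Y) ^ (d * m) * M ^ ε

/-- ENG: the count of the good pairs. -/
def EngP (F : Type) [Field F] [NumberField F] : Prop :=
  ∀ (n k : ℕ) (A : Fin k → Matrix (Fin n) (Fin n) (𝓞 F)), 1 ≤ k → (∀ i, (A i)ᵀ = -(A i)) →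
    RC (cm A) (2 * k + 1) → ∀ ε : ℝ, 0 < ε → ∃ C : ℝ, 1 ≤ C ∧ ∀ X Y M : ℝ,
      1 ≤ X → X ≤ M → 1 ≤ Y → Y ≤ M → (NS A X Y).Finite ∧
        ((NS A X Y).ncard : ℝ) ≤ C * (X * Y) ^ (finrank ℚ F * (n - k)) * M ^ ε

/-- PIG1 -/
def Pig1P (F : Type) [Field F] [NumberField F] : Prop :=
  ∀ ε : ℝ, 0 < ε → ∃ M : ℝ, ∀ (w₀ : InfinitePlace F) (τ : F), ∃ α γ : 𝓞 F, α ≠ 0 ∧
    w₀ (α : F) ≤ M ∧ w₀ ((α : F) * τ - γ) ≤ ε ∧
    ∀ w : InfinitePlace F, w ≠ w₀ → w (α : F) ≤ ε ∧ w (γ : F) ≤ ε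

/-- PIG2 -/
def Pig2P (F : Type) [Field F] [NumberField F] : Prop :=
  ∀ ε : ℝ, 0 < ε → ∃ K : ℕ, ∀ s t : F, ∃ m : ℕ, 1 ≤ m ∧ m ≤ K ∧ ∃ γ η : 𝓞 F,
    ∀ w : InfinitePlace F, w ((m : F) * s - γ) ≤ ε ∧ w ((m : F) * t - η) ≤ ε

/-- RED: existence of minimal pairs. -/
def RedP (F : Type) [Field F] [NumberField F] : Prop :=
  ∀ (n : ℕ) (P : Submodule F (Fin n → F)), finrank F P = 2 →
    ∃ a b : Fin n → 𝓞 F, Mn P a b ∧ Submodule.span F {co a, co b} = P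

/-- ARC: the minors at the infinite places. -/
def ArcP (F : Type) [Field F] [NumberField F] : Prop :=
  ∃ c : ℝ, 0 < c ∧ ∀ (n : ℕ) (P : Submodule F (Fin n → F)) (a b : Fin n → 𝓞 F), Mn P a b →
    ∀ w : InfinitePlace F, ∃ p : Fin n × Fin n, c * (‖io a‖ * ‖io b‖) ≤ w (pl (co a) (co b) p)

/-- CTT: the ideal generated by the minors. -/
def CttP (F : Type) [Field F] [NumberField F] : Prop :=
  ∃ m : ℕ, m ≠ 0 ∧ ∀ (n : ℕ) (P : Submodule F (Fin n → F)) (a b : Fin n → 𝓞 F),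
    finrank F P = 2 → Mn P a b → (m : 𝓞 F) ∈ Ideal.span (Set.range (pl a b))

/-- HGT: the height. -/
def HgtP (F : Type) [Field F] [NumberField F] : Prop :=
  ∃ C : ℝ, 1 ≤ C ∧ ∀ (n : ℕ) (P : Submodule F (Fin n → F)) (a b : Fin n → 𝓞 F),
    finrank F P = 2 → Mn P a b →
      (‖io a‖ * ‖io b‖) ^ finrank ℚ F ≤ C * Height.mulHeight (pl (co a) (co b))

/-- LLD: locally linearly dependent maps. -/
def LldP : Prop := ∀ (K : Type) [Field K] [Infinite K] (V W : Type) [AddCommGroup V] [Module K V]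
  [AddCommGroup W] [Module K W] [FiniteDimensional K V] [FiniteDimensional K W] (k : ℕ)
  (B : Fin k → V →ₗ[K] W), 1 ≤ k →
  (∀ l : Fin k → K, l ≠ 0 → k ≤ finrank K (LinearMap.range (∑ i, l i • B i))) →
  ∃ v, LinearIndependent K fun i => B i v

/-- EXU: a rational point. -/
def ExuP (F : Type) [Field F] [NumberField F] : Prop :=
  ∀ (n k : ℕ) (A : Fin k → Matrix (Fin n) (Fin n) F), 1 ≤ k → (∀ i, (A i)ᵀ = -(A i)) →
    RC A (3 * k) → ∃ a b : Fin n → F, LinearIndependent F ![a, b] ∧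
      (∀ i, a ⬝ᵥ (A i).mulVec b = 0) ∧
      LinearIndependent F (Sum.elim (fun i => (A i).mulVec a) fun i => (A i).mulVec b)

/-- SMT: smoothness and the ranks. -/
def SmtP (F : Type) [Field F] [NumberField F] : Prop :=
  ∀ (n k : ℕ) (A : Fin k → Matrix (Fin n) (Fin n) F), (∀ i, (A i)ᵀ = -(A i)) → Smooth A →
    k ≤ n → RC A (n - k)

/-- FIN: the count of the planes. -/
def FinP (F : Type) [Field F] [NumberField F] : Prop :=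
  ∀ (n k : ℕ) (A : Fin k → Matrix (Fin n) (Fin n) (𝓞 F)), 1 ≤ k → (∀ i, (A i)ᵀ = -(A i)) →
    RC (cm A) (2 * k + 1) → ∀ ε : ℝ, 0 < ε → ∃ C : ℝ, 1 ≤ C ∧ ∀ T : ℝ, 1 ≤ T →
      ∀ S : Set (Submodule F (Fin n → F)), (∀ P ∈ S, finrank F P = 2 ∧
        (∀ a b : Fin n → 𝓞 F, Submodule.span F {co a, co b} = P →
          Gd A a ∧ Gd A b ∧ (∀ i, dr A a i ⬝ᵥ b = 0) ∧
            Height.mulHeight (pl (co a) (co b)) ≤ T)) →
        S.Finite ∧ (S.ncard : ℝ) ≤ C * T ^ ((n : ℝ) - k + ε)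

end Pool.Agent.N852.GR
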