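import Mathlib
import Pool.Agent.N852.GR.Stm

/-!
Project GR, part ENG: the count of the good pairs.
-/

namespace Pool.Agent.N852.GR

open scoped Classical
open NumberField Module Matrix

namespace EngT

set_option linter.unusedSectionVars false

variable {F : Type} [Field F] [NumberField F] {n k : ℕ}

theorem dr_dot_symm (A : Fin k → Matrix (Fin n) (Fin n) (𝓞 F)) (hA : ∀ i, (A i)ᵀ = -(A i))
    (a b : Fin n → 𝓞 F) (i : Fin k) : dr A b i ⬝ᵥ a = -(dr A a i ⬝ᵥ b) := by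
  unfold dr
  rw [dotProduct_comm, Matrix.dotProduct_mulVec, ← Matrix.mulVec_transpose, hA i,
    Matrix.neg_mulVec, neg_dotProduct]

theorem NS_swap (A : Fin k → Matrix (Fin n) (Fin n) (𝓞 F)) (hA : ∀ i, (A i)ᵀ = -(A i))
    (X Y : ℝ) : Prod.swap '' (NS A X Y) = NS A Y X := by
  ext p
  rw [Set.mem_image]
  constructor
  · rintro ⟨q, ⟨⟨h1, h2, h3, h4⟩, h5⟩, rfl⟩
    refine ⟨⟨h2, h1, h5, fun i => ?_⟩, h3⟩
    have := dr_dot_symm A hA q.1 q.2 i
    rw [h4 i, neg_zero] at this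
    exact this
  · rintro ⟨⟨h1, h2, h3, h4⟩, h5⟩
    refine ⟨p.swap, ⟨⟨h2, h1, h5, fun i => ?_⟩, h3⟩, Prod.swap_swap p⟩
    have := dr_dot_symm A hA p.1 p.2 i
    rw [h4 i, neg_zero] at this
    exact this

/-- The lattice of the second vectors. -/
def LL (A : Fin k → Matrix (Fin n) (Fin n) (𝓞 F)) (a : Fin n → 𝓞 F) :
    AddSubgroup (Fin n → 𝓞 F) where
  carrier := {b | ∀ i, dr A a i ⬝ᵥ b = 0}
  zero_mem' := by
    intro i
    simp
  add_mem' := by
    intro x y hx hy i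
    rw [dotProduct_add, hx i, hy i, add_zero]
  neg_mem' := by
    intro x hx i
    rw [dotProduct_neg, hx i, neg_zero]

theorem mem_LL (A : Fin k → Matrix (Fin n) (Fin n) (𝓞 F)) (a b : Fin n → 𝓞 F) :
    b ∈ LL A a ↔ ∀ i, dr A a i ⬝ᵥ b = 0 := Iff.rfl

theorem io_mem_WW (A : Fin k → Matrix (Fin n) (Fin n) (𝓞 F)) (a b : Fin n → 𝓞 F)
    (h : b ∈ LL A a) : io b ∈ WW (dr A a) := by
  intro i
  have h1 : algebraMap (𝓞 F) F (dr A a i ⬝ᵥ b) = 0 := by
    rw [(mem_LL A a b).1 h i, map_zero]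
  have h2 : mixedEmbedding F (algebraMap (𝓞 F) F (dr A a i ⬝ᵥ b)) = 0 := by rw [h1, map_zero]
  rw [← h2]
  unfold dotProduct io em co
  rw [map_sum (algebraMap (𝓞 F) F), map_sum]
  refine Finset.sum_congr rfl fun j _ => ?_
  rw [map_mul, map_mul, mul_comm]

theorem rk_le (A : Fin k → Matrix (Fin n) (Fin n) (𝓞 F)) (a : Fin n → 𝓞 F) :
    rk (dr A a) ≤ k := by
  unfold rk
  have := finrank_range_le_card (R := F) (fun i => co (dr A a i))
  rw [Fintype.card_fin] at this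
  exact this

theorem rk_good (A : Fin k → Matrix (Fin n) (Fin n) (𝓞 F)) (a : Fin n → 𝓞 F) (h : Gd A a) :
    rk (dr A a) = k := by
  unfold rk
  rw [finrank_span_eq_card h, Fintype.card_fin]

/-- The bound for the rank. -/
theorem RC_le (A : Fin k → Matrix (Fin n) (Fin n) (𝓞 F)) (hk : 1 ≤ k) (R : ℕ)
    (h : RC (cm A) R) : R ≤ n := by
  have : Nonempty (F →+* ℂ) := inferInstance
  obtain ⟨σ⟩ := this
  have h1 : (Function.const (Fin k) (1 : ℂ)) ≠ 0 := by
    intro h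
    have := congrFun h ⟨0, hk⟩
    simp at this
  refine (h σ _ h1).trans ?_
  refine (Matrix.rank_le_card_width _).trans ?_
  rw [Fintype.card_fin]

/-! ### Counting -/

theorem ncard_fib {α β : Type} (S : Set (α × β)) (hS : S.Finite) (G : Finset α)
    (hG : ∀ p ∈ S, p.1 ∈ G) : S.ncard = ∑ a ∈ G, {b | (a, b) ∈ S}.ncard := by
  rw [Set.ncard_eq_toFinset_card S hS,
    Finset.card_eq_sum_card_fiberwise (f := Prod.fst) (t := G)
      (fun p hp => hG p ((Set.Finite.mem_toFinset hS).1 hp))]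
  refine Finset.sum_congr rfl fun a _ => ?_
  have hinj : Function.Injective (Prod.mk a : β → α × β) := fun x y h => (Prod.mk.inj h).2
  rw [← Set.ncard_image_of_injective _ hinj, ← Set.ncard_coe_finset]
  congr 1
  ext p
  simp only [Finset.coe_filter, Set.Finite.mem_toFinset, Set.mem_ofPred_eq, Set.mem_image]
  constructor
  · rintro ⟨h1, h2⟩
    subst h2
    exact ⟨p.2, h1, rfl⟩
  · rintro ⟨b, h1, h2⟩
    subst h2
    exact ⟨h1, rfl⟩

variable (hL : LatP F)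

include hL

theorem ball_finite (n : ℕ) (X : ℝ) : {x : Fin n → 𝓞 F | ‖io x‖ ≤ X}.Finite := (hL n).2.1 X

theorem TS_finite (A : Fin k → Matrix (Fin n) (Fin n) (𝓞 F)) (X Y : ℝ) : (TS A X Y).Finite := by
  refine ((ball_finite hL n X).prod (ball_finite hL n Y)).subset ?_
  rintro p ⟨h1, h2, -, -⟩
  exact ⟨h1, h2⟩

theorem NS_finite (A : Fin k → Matrix (Fin n) (Fin n) (𝓞 F)) (X Y : ℝ) : (NS A X Y).Finite :=
  (TS_finite hL A X Y).subset fun _ h => h.1

/-- The number of the points in a ball. -/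
theorem cnt_le (L : AddSubgroup (Fin n → 𝓞 F)) (W : Submodule ℝ (Fin n → EE F))
    (h : ∀ x ∈ L, io x ∈ W) (X : ℝ) (hX : 1 ≤ X) :
    ({x : Fin n → 𝓞 F | x ∈ L ∧ ‖io x‖ ≤ X}.ncard : ℝ) ≤ (6 * X) ^ finrank ℝ W := by
  have h1 := (hL n).2.2 L W h X (1 / 2) (by norm_num) (by linarith)
  have h2 : {x : Fin n → 𝓞 F | x ∈ L ∧ ‖io x‖ ≤ 1 / 2}.ncard ≤ 1 := by
    refine (Set.ncard_le_ncard (t := {0}) ?_ (Set.finite_singleton _)).trans
      (Set.ncard_singleton _).le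
    rintro x ⟨-, hx⟩
    by_contra h0
    have := (hL n).1 x h0
    linarith
  have h3 : ({x : Fin n → 𝓞 F | x ∈ L ∧ ‖io x‖ ≤ 1 / 2}.ncard : ℝ) ≤ 1 := by exact_mod_cast h2
  have h4 : 3 * X / (1 / 2) = 6 * X := by ring
  rw [h4] at h1
  calc _ ≤ _ := h1
    _ ≤ (6 * X) ^ finrank ℝ W * 1 := by
        refine mul_le_mul_of_nonneg_left h3 (by positivity)
    _ = _ := mul_one _

/-- The number of the points in a ball. -/
theorem ball_le (n : ℕ) (X : ℝ) (hX : 1 ≤ X) :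
    ({x : Fin n → 𝓞 F | ‖io x‖ ≤ X}.ncard : ℝ) ≤ (6 * X) ^ (finrank ℚ F * n) := by
  have h1 := cnt_le hL (⊤ : AddSubgroup (Fin n → 𝓞 F)) (⊤ : Submodule ℝ (Fin n → EE F))
    (fun x _ => Submodule.mem_top) X hX
  have h2 : finrank ℝ (⊤ : Submodule ℝ (Fin n → EE F)) = finrank ℚ F * n := by
    rw [finrank_top, Module.finrank_pi_fintype]
    simp only [Finset.sum_const, Finset.card_univ, Fintype.card_fin, smul_eq_mul,
      mixedEmbedding.finrank]
    ring
  rw [h2] at h1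
  have h3 : {x : Fin n → 𝓞 F | x ∈ (⊤ : AddSubgroup (Fin n → 𝓞 F)) ∧ ‖io x‖ ≤ X} =
      {x : Fin n → 𝓞 F | ‖io x‖ ≤ X} := by
    ext x
    simp
  rw [h3] at h1
  exact h1

variable (hD : DimP F)

include hD

/-- The packing bound for good first vectors. -/
theorem TS_pack (A : Fin k → Matrix (Fin n) (Fin n) (𝓞 F)) (X Y ρ : ℝ) (hρ : 1 ≤ ρ)
    (hY : ρ ≤ Y) : ((TS A X Y).ncard : ℝ) ≤
      (3 * Y / ρ) ^ (finrank ℚ F * (n - k)) * ((TS A X ρ).ncard : ℝ) := by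
  have hf : {a : Fin n → 𝓞 F | ‖io a‖ ≤ X ∧ Gd A a}.Finite :=
    (ball_finite hL n X).subset fun _ h => h.1
  have hG : ∀ Z : ℝ, ∀ p ∈ TS A X Z, p.1 ∈ hf.toFinset := by
    rintro Z p ⟨h1, -, h2, -⟩
    exact (Set.Finite.mem_toFinset hf).2 ⟨h1, h2⟩
  rw [ncard_fib (TS A X Y) (TS_finite hL A X Y) hf.toFinset (hG Y),
    ncard_fib (TS A X ρ) (TS_finite hL A X ρ) hf.toFinset (hG ρ)]
  push_cast
  rw [Finset.mul_sum]
  refine Finset.sum_le_sum fun a ha => ?_
  obtain ⟨ha1, ha2⟩ := (Set.Finite.mem_toFinset hf).1 ha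
  have hS : ∀ Z : ℝ, {b | (a, b) ∈ TS A X Z} = {b | b ∈ LL A a ∧ ‖io b‖ ≤ Z} := by
    intro Z
    ext b
    constructor
    · rintro ⟨-, h2, -, h4⟩
      exact ⟨h4, h2⟩
    · rintro ⟨h4, h2⟩
      exact ⟨ha1, h2, ha2, h4⟩
  rw [hS Y, hS ρ]
  have h1 := (hL n).2.2 (LL A a) (WW (dr A a)) (fun x hx => io_mem_WW A a x hx) Y ρ
    (by linarith) hY
  rw [hD n (Fin k) (dr A a), rk_good A a ha2] at h1
  exact h1

/-- The bound for the bad second vectors. -/
theorem TS_le (A : Fin k → Matrix (Fin n) (Fin n) (𝓞 F)) (hA : ∀ i, (A i)ᵀ = -(A i))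
    (hkn : k ≤ n) (X ρ : ℝ) (hX : 1 ≤ X) (Z : Finset (Fin n → 𝓞 F))
    (hZ : ∀ b, b ∈ Z ↔ ‖io b‖ ≤ ρ ∧ ¬ Gd A b) : ((TS A X ρ).ncard : ℝ) ≤
      (NS A X ρ).ncard + 6 ^ (finrank ℚ F * n) * X ^ (finrank ℚ F * (n - k)) *
        ∑ b ∈ Z, X ^ (finrank ℚ F * (k - rk (dr A b))) := by
  set D : Set ((Fin n → 𝓞 F) × (Fin n → 𝓞 F)) :=
    {p | (‖io p.1‖ ≤ ρ ∧ ¬ Gd A p.1) ∧ (p.2 ∈ LL A p.1 ∧ ‖io p.2‖ ≤ X)} with hDdef
  have hDf : D.Finite := by
    refine ((ball_finite hL n ρ).prod (ball_finite hL n X)).subset ?_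
    rintro p ⟨⟨h1, -⟩, -, h2⟩
    exact ⟨h1, h2⟩
  have hsub : TS A X ρ ⊆ NS A X ρ ∪ Prod.swap '' D := by
    rintro p hp
    by_cases hg : Gd A p.2
    · exact Or.inl ⟨hp, hg⟩
    · refine Or.inr ⟨p.swap, ⟨⟨hp.2.1, hg⟩, fun i => ?_, hp.1⟩, Prod.swap_swap p⟩
      have := dr_dot_symm A hA p.1 p.2 i
      rw [hp.2.2.2 i, neg_zero] at this
      exact this
  have h1 : (TS A X ρ).ncard ≤ (NS A X ρ).ncard + D.ncard := by
    refine (Set.ncard_le_ncard hsub ((NS_finite hL A X ρ).union (hDf.image _))).trans ?_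
    refine (Set.ncard_union_le _ _).trans ?_
    rw [Set.ncard_image_of_injective _ Prod.swap_injective]
  have h2 : (D.ncard : ℝ) ≤ 6 ^ (finrank ℚ F * n) * X ^ (finrank ℚ F * (n - k)) *
        ∑ b ∈ Z, X ^ (finrank ℚ F * (k - rk (dr A b))) := by
    rw [ncard_fib D hDf Z (fun p hp => (hZ p.1).2 hp.1)]
    push_cast
    rw [Finset.mul_sum]
    refine Finset.sum_le_sum fun b hb => ?_
    have hS : {a | (b, a) ∈ D} = {a | a ∈ LL A b ∧ ‖io a‖ ≤ X} := by
      ext a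
      constructor
      · rintro ⟨-, h⟩
        exact h
      · intro h
        exact ⟨(hZ b).1 hb, h⟩
    rw [hS]
    have h3 := cnt_le hL (LL A b) (WW (dr A b)) (fun x hx => io_mem_WW A b x hx) X hX
    rw [hD n (Fin k) (dr A b)] at h3
    have h4 : n - rk (dr A b) = (n - k) + (k - rk (dr A b)) := by
      have := rk_le A b
      omega
    have h5 : X ^ (finrank ℚ F * (n - rk (dr A b))) = X ^ (finrank ℚ F * (n - k)) *
        X ^ (finrank ℚ F * (k - rk (dr A b))) := by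
      rw [h4, mul_add, pow_add]
    calc _ ≤ _ := h3
      _ = 6 ^ (finrank ℚ F * (n - rk (dr A b))) * X ^ (finrank ℚ F * (n - rk (dr A b))) :=
          mul_pow _ _ _
      _ ≤ 6 ^ (finrank ℚ F * n) * X ^ (finrank ℚ F * (n - rk (dr A b))) := by
          refine mul_le_mul_of_nonneg_right ?_ (by positivity)
          refine pow_le_pow_right₀ (by norm_num) (Nat.mul_le_mul_left _ (Nat.sub_le _ _))
      _ = _ := by rw [h5]; ring
  have h6 : ((TS A X ρ).ncard : ℝ) ≤ (NS A X ρ).ncard + D.ncard := by exact_mod_cast h1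
  linarith

end EngT

/-- ENG: the count of the good pairs. -/
theorem engP (F : Type) [Field F] [NumberField F] (hL : LatP F) (hD : DimP F) (hB : BadP F)
    (hE : EpsP) : EngP F := by
  intro n k A hk hA hRC ε hε
  have hRn : 2 * k + 1 ≤ n := EngT.RC_le A hk _ hRC
  have hkn : k ≤ n := by omega
  obtain ⟨CB, hCB1, hCB⟩ := hB n k (2 * k + 1) A hRC hRn
  set d := finrank ℚ F with hd
  have hd1 : 1 ≤ d := Module.finrank_pos
  set C : ℝ := 6 ^ (2 * (d * n)) * CB with hC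
  have h6 : (1 : ℝ) ≤ 6 ^ (d * n) := one_le_pow₀ (by norm_num)
  have h66 : (6 : ℝ) ^ (2 * (d * n)) = 6 ^ (d * n) * 6 ^ (d * n) := by
    rw [two_mul, pow_add]
  have hC2 : (6 : ℝ) ^ (d * n) * 6 ^ (d * n) ≤ C := by
    rw [hC, h66]
    nlinarith [mul_pos (lt_of_lt_of_le one_pos h6) (lt_of_lt_of_le one_pos h6)]
  have hC3 : (6 : ℝ) ^ (d * n) * CB ≤ C := by
    rw [hC, h66]
    have : 0 ≤ 6 ^ (d * n) * CB := by positivity
    nlinarith
  have hC1 : (1 : ℝ) ≤ C := by nlinarith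
  have hC4 : (6 : ℝ) ^ (d * n) ≤ C := by nlinarith
  obtain ⟨C', hC'1, hC'⟩ := hE (fun X Y => ((NS A X Y).ncard : ℝ))
    (fun X Y => ((TS A X Y).ncard : ℝ)) d (n - k) k (d * n) C hd1 hk hC1
    (fun X Y => Nat.cast_nonneg _)
    (fun X Y => by
      have := Set.ncard_le_ncard (s := NS A X Y) (t := TS A X Y) (fun _ h => h.1)
        (EngT.TS_finite hL A X Y)
      exact_mod_cast this)
    (fun X Y => by
      show ((NS A X Y).ncard : ℝ) = ((NS A Y X).ncard : ℝ)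
      rw [← EngT.NS_swap A hA X Y, Set.ncard_image_of_injective _ Prod.swap_injective])
    (fun X Y ρ hX hρ hY => by
      show ((TS A X Y).ncard : ℝ) ≤ C * (Y / ρ) ^ (d * (n - k)) * ((TS A X ρ).ncard : ℝ)
      refine (EngT.TS_pack hL hD A X Y ρ hρ hY).trans ?_
      refine mul_le_mul_of_nonneg_right ?_ (Nat.cast_nonneg _)
      rw [mul_div_assoc, mul_pow]
      have hYρ : 0 ≤ Y / ρ := by
        have : 0 ≤ Y := by linarith
        positivity
      refine mul_le_mul_of_nonneg_right ?_ (by positivity)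
      refine le_trans ?_ hC4
      calc (3 : ℝ) ^ (d * (n - k)) ≤ 6 ^ (d * (n - k)) :=
            pow_le_pow_left₀ (by norm_num) (by norm_num) _
        _ ≤ 6 ^ (d * n) := pow_le_pow_right₀ (by norm_num) (Nat.mul_le_mul_left _ (Nat.sub_le _ _)))
    (fun X ρ g hX hρ hg hXg => by
      show ((TS A X ρ).ncard : ℝ) ≤ ((NS A X ρ).ncard : ℝ) +
        C * (X * ρ) ^ (d * (n - k)) * (g ^ (d * k) / ρ ^ d)
      have hf : {b : Fin n → 𝓞 F | ‖io b‖ ≤ ρ ∧ ¬ Gd A b}.Finite :=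
        (EngT.ball_finite hL n ρ).subset fun _ h => h.1
      have h1 := EngT.TS_le hL hD A hA hkn X ρ hX hf.toFinset
        (fun b => Set.Finite.mem_toFinset hf)
      refine h1.trans ?_
      have h2 := hCB ρ hρ hf.toFinset (fun b hb => (Set.Finite.mem_toFinset hf).1 hb)
      have h3 : ∑ b ∈ hf.toFinset, X ^ (d * (k - rk (dr A b))) ≤
          g ^ (d * k) * ∑ b ∈ hf.toFinset, ρ ^ (d * (k - rk (dr A b))) := by
        rw [Finset.mul_sum]
        refine Finset.sum_le_sum fun b _ => ?_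
        calc X ^ (d * (k - rk (dr A b))) ≤ (g * ρ) ^ (d * (k - rk (dr A b))) :=
              pow_le_pow_left₀ (by linarith) hXg _
          _ = g ^ (d * (k - rk (dr A b))) * ρ ^ (d * (k - rk (dr A b))) := mul_pow _ _ _
          _ ≤ g ^ (d * k) * ρ ^ (d * (k - rk (dr A b))) := by
              refine mul_le_mul_of_nonneg_right ?_ (by positivity)
              exact pow_le_pow_right₀ hg (Nat.mul_le_mul_left _ (Nat.sub_le _ _))
      have hρ0 : 0 < ρ := by linarith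
      have hX0 : 0 < X := by linarith
      have hg0 : 0 < g := by linarith
      have h4 : ρ ^ (d * (k + n - (2 * k + 1))) = ρ ^ (d * (n - k)) / ρ ^ d := by
        rw [eq_div_iff (by positivity), ← pow_add]
        congr 1
        have : n - k = (k + n - (2 * k + 1)) + 1 := by omega
        rw [this]
        ring
      rw [h4] at h2
      have h5 : (6 : ℝ) ^ (d * n) * X ^ (d * (n - k)) *
          ∑ b ∈ hf.toFinset, X ^ (d * (k - rk (dr A b))) ≤
          6 ^ (d * n) * X ^ (d * (n - k)) * (g ^ (d * k) * (CB * (ρ ^ (d * (n - k)) / ρ ^ d))) := by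
        refine mul_le_mul_of_nonneg_left ?_ (by positivity)
        refine h3.trans ?_
        exact mul_le_mul_of_nonneg_left h2 (by positivity)
      have h7 : 6 ^ (d * n) * X ^ (d * (n - k)) * (g ^ (d * k) * (CB * (ρ ^ (d * (n - k)) / ρ ^ d)))
          = (6 ^ (d * n) * CB) * ((X * ρ) ^ (d * (n - k)) * (g ^ (d * k) / ρ ^ d)) := by
        rw [mul_pow]
        ring
      have h8 : (6 ^ (d * n) * CB) * ((X * ρ) ^ (d * (n - k)) * (g ^ (d * k) / ρ ^ d)) ≤
          C * ((X * ρ) ^ (d * (n - k)) * (g ^ (d * k) / ρ ^ d)) :=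
        mul_le_mul_of_nonneg_right hC3 (by positivity)
      have h9 : C * (X * ρ) ^ (d * (n - k)) * (g ^ (d * k) / ρ ^ d) =
          C * ((X * ρ) ^ (d * (n - k)) * (g ^ (d * k) / ρ ^ d)) := by ring
      rw [h9]
      rw [h7] at h5
      linarith)
    (fun X Y hX hY => by
      show ((NS A X Y).ncard : ℝ) ≤ C * (X * Y) ^ (d * n)
      have h1 : (NS A X Y).ncard ≤ {x : Fin n → 𝓞 F | ‖io x‖ ≤ X}.ncard *
          {x : Fin n → 𝓞 F | ‖io x‖ ≤ Y}.ncard := by
        rw [← Set.ncard_prod]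
        refine Set.ncard_le_ncard ?_
          ((EngT.ball_finite hL n X).prod (EngT.ball_finite hL n Y))
        rintro p ⟨⟨h1, h2, -, -⟩, -⟩
        exact ⟨h1, h2⟩
      have h2 : ((NS A X Y).ncard : ℝ) ≤ ({x : Fin n → 𝓞 F | ‖io x‖ ≤ X}.ncard : ℝ) *
          ({x : Fin n → 𝓞 F | ‖io x‖ ≤ Y}.ncard : ℝ) := by exact_mod_cast h1
      refine h2.trans ?_
      have h3 := EngT.ball_le hL n X hX
      have h4 := EngT.ball_le hL n Y hY
      calc _ ≤ (6 * X) ^ (d * n) * (6 * Y) ^ (d * n) :=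
            mul_le_mul h3 h4 (Nat.cast_nonneg _) (by positivity)
        _ = (6 ^ (d * n) * 6 ^ (d * n)) * (X * Y) ^ (d * n) := by
            rw [mul_pow, mul_pow, mul_pow]
            ring
        _ ≤ C * (X * Y) ^ (d * n) := mul_le_mul_of_nonneg_right hC2 (by positivity))
    ε hε
  refine ⟨C', hC'1, fun X Y M hX hXM hY hYM => ⟨EngT.NS_finite hL A X Y, ?_⟩⟩
  exact hC' X Y M hX hXM hY hYM

end Pool.Agent.N852.GR
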