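import Pool.Agent.N852.GR.Stm

/-!
Project GR, part EPS: the iteration (helper374, after `Pool.Agent.N852.MM.Up`).
-/

namespace Pool.Agent.N852.GR

open Filter Topology

/-- EPS: the iteration. -/
theorem epsP : EpsP := by
  intro N T d m k e C hd hk hC hN0 hNT hsym H1 H2 H3 ε hε
  obtain ⟨p, hp⟩ : ∃ p : ℝ → ℝ → ℝ, ∀ X Y, p X Y = N X Y / (X * Y) ^ (d * m) :=
    ⟨_, fun _ _ => rfl⟩
  have hp0 : ∀ X Y, 1 ≤ X → 1 ≤ Y → 0 ≤ p X Y := by
    intro X Y hX hY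
    rw [hp]
    have := hN0 X Y
    positivity
  have hpsym : ∀ X Y, p X Y = p Y X := by
    intro X Y
    rw [hp, hp, hsym, mul_comm X Y]
  have hC0 : 0 < C := by linarith
  -- lowering one coordinate
  have low1 : ∀ X Y M ρ : ℝ, 1 ≤ X → X ≤ M → 1 ≤ ρ → ρ ≤ M → M ^ k ≤ ρ ^ (k + 1) → ρ ≤ Y →
      p X Y ≤ C * (p X ρ + C) := by
    intro X Y M ρ hX hXM hρ hρM hMk hρY
    have hX0 : 0 < X := by linarith
    have hρ0 : 0 < ρ := by linarith
    have hY0 : 0 < Y := by linarith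
    have hM0 : 0 < M := by linarith
    have h1 := H1 X Y ρ hX hρ hρY
    have h2 := H2 X ρ (M / ρ) hX hρ ((one_le_div hρ0).2 hρM) (by
      rw [div_mul_cancel₀ _ hρ0.ne']; exact hXM)
    have h3 : (M / ρ) ^ (d * k) / ρ ^ d ≤ 1 := by
      have e1 : (M / ρ) ^ (d * k) / ρ ^ d = (M ^ k / ρ ^ (k + 1)) ^ d := by
        rw [div_pow, div_div, div_pow, ← pow_add, ← pow_mul, ← pow_mul]
        congr 2
        · ring
        · ring
      rw [e1]
      refine pow_le_one₀ (by positivity) ?_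
      rw [div_le_one (by positivity)]
      exact hMk
    have h4 : T X ρ ≤ N X ρ + C * (X * ρ) ^ (d * m) := by
      refine h2.trans ?_
      have : C * (X * ρ) ^ (d * m) * ((M / ρ) ^ (d * k) / ρ ^ d) ≤ C * (X * ρ) ^ (d * m) * 1 := by
        gcongr
      linarith
    rw [hp, hp, div_le_iff₀ (by positivity)]
    calc N X Y ≤ T X Y := hNT X Y
      _ ≤ C * (Y / ρ) ^ (d * m) * T X ρ := h1
      _ ≤ C * (Y / ρ) ^ (d * m) * (N X ρ + C * (X * ρ) ^ (d * m)) := by gcongr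
      _ = C * (N X ρ / (X * ρ) ^ (d * m) + C) * (X * Y) ^ (d * m) := by
          rw [div_pow, mul_pow, mul_pow]
          field_simp
  have low2 : ∀ X Y M ρ : ℝ, 1 ≤ X → X ≤ M → 1 ≤ Y → 1 ≤ ρ → ρ ≤ M → M ^ k ≤ ρ ^ (k + 1) →
      p X Y ≤ C * (p X (min Y ρ) + C) := by
    intro X Y M ρ hX hXM hY hρ hρM hMk
    rcases le_total ρ Y with h | h
    · rw [min_eq_right h]
      exact low1 X Y M ρ hX hXM hρ hρM hMk h
    · rw [min_eq_left h]
      have := hp0 X Y hX hY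
      nlinarith
  have hdesc : ∀ X Y M ρ : ℝ, 1 ≤ X → X ≤ M → 1 ≤ Y → Y ≤ M → 1 ≤ ρ → ρ ≤ M →
      M ^ k ≤ ρ ^ (k + 1) → ∃ X' Y' : ℝ, 1 ≤ X' ∧ X' ≤ ρ ∧ 1 ≤ Y' ∧ Y' ≤ ρ ∧
        p X Y ≤ (2 * C ^ 3) * (1 + p X' Y') := by
    intro X Y M ρ hX hXM hY hYM hρ hρM hMk
    refine ⟨min X ρ, min Y ρ, le_min hX hρ, min_le_right _ _, le_min hY hρ, min_le_right _ _, ?_⟩
    have h1 := low2 X Y M ρ hX hXM hY hρ hρM hMk
    have h2 := low2 (min Y ρ) X M ρ (le_min hY hρ) ((min_le_left _ _).trans hYM) hX hρ hρM hMk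
    rw [hpsym (min Y ρ) X, hpsym (min Y ρ) (min X ρ)] at h2
    have h0 := hp0 (min X ρ) (min Y ρ) (le_min hX hρ) (le_min hY hρ)
    set q := p (min X ρ) (min Y ρ)
    have h3 : p X Y ≤ C * (C * (q + C) + C) := h1.trans (by gcongr)
    have h4 : C ^ 2 ≤ C ^ 3 := pow_le_pow_right₀ hC (by norm_num)
    have h5 : C ^ 2 * q ≤ C ^ 3 * q := by gcongr
    have h6 : 0 ≤ C ^ 3 * q := by positivity
    nlinarith
  have htriv : ∀ X Y M : ℝ, 1 ≤ X → X ≤ M → 1 ≤ Y → Y ≤ M → p X Y ≤ C * (M * M) ^ e := by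
    intro X Y M hX hXM hY hYM
    rw [hp]
    have h1 := H3 X Y hX hY
    have h2 : 1 ≤ (X * Y) ^ (d * m) := one_le_pow₀ (by nlinarith)
    have h3 : N X Y / (X * Y) ^ (d * m) ≤ N X Y := div_le_self (hN0 X Y) h2
    refine h3.trans (h1.trans ?_)
    have hM0 : 0 ≤ M := by linarith
    gcongr
  -- the threshold
  obtain ⟨E, hE⟩ : ∃ E : ℝ, E = 2 * C ^ 3 := ⟨_, rfl⟩
  rw [← hE] at hdesc
  have hE1 : 1 ≤ E := by
    rw [hE]
    have : 1 ≤ C ^ 3 := one_le_pow₀ hC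
    linarith
  have hk0 : (0 : ℝ) < (k : ℝ) + 1 := by positivity
  have hlim : Tendsto (fun x : ℝ => x ^ (ε / (k + 1))) atTop atTop :=
    tendsto_rpow_atTop (by positivity)
  obtain ⟨K₀, hK₀⟩ := eventually_atTop.1 (hlim.eventually_ge_atTop (2 * E))
  obtain ⟨K₁, hK₁⟩ : ∃ K₁ : ℝ, K₁ = max (max K₀ 2) (2 ^ (k + 1)) := ⟨_, rfl⟩
  have e1 : K₀ ≤ K₁ := by rw [hK₁]; exact (le_max_left _ _).trans (le_max_left _ _)
  have e2 : 2 ≤ K₁ := by rw [hK₁]; exact (le_max_right _ _).trans (le_max_left _ _)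
  have e3 : (2 : ℝ) ^ (k + 1) ≤ K₁ := by rw [hK₁]; exact le_max_right _ _
  obtain ⟨A, hA⟩ : ∃ A : ℝ, A = max (2 * E) (C * (K₁ * K₁) ^ e) := ⟨_, rfl⟩
  have hA1 : 2 * E ≤ A := by rw [hA]; exact le_max_left _ _
  have hA2 : C * (K₁ * K₁) ^ e ≤ A := by rw [hA]; exact le_max_right _ _
  have hA0 : 1 ≤ A := by linarith
  have hdiag : ∀ (n : ℕ) (M : ℝ), 1 ≤ M → M < 2 ^ n → ∀ X Y : ℝ, 1 ≤ X → X ≤ M → 1 ≤ Y →
      Y ≤ M → p X Y ≤ A * M ^ ε := by
    intro n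
    induction n with
    | zero =>
      intro K hK h
      rw [pow_zero] at h
      linarith
    | succ n ih =>
      intro K hK hKn X Y hX1 hX2 hY1 hY2
      have hKε : 1 ≤ K ^ ε := Real.one_le_rpow hK hε.le
      rcases lt_or_ge K K₁ with h | h
      · calc p X Y ≤ C * (K * K) ^ e := htriv X Y K hX1 hX2 hY1 hY2
          _ ≤ C * (K₁ * K₁) ^ e := by gcongr
          _ ≤ A := hA2
          _ ≤ A * K ^ ε := le_mul_of_one_le_right (by linarith) hKε
      · have hK0 : 0 < K := by linarith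
        set ρ : ℝ := K ^ ((k : ℝ) / (k + 1)) with hρ
        have hρ1 : 1 ≤ ρ := Real.one_le_rpow hK (by positivity)
        have hρ0 : 0 < ρ := by linarith
        have hprod : ρ * K ^ (1 / ((k : ℝ) + 1)) = K := by
          rw [hρ, ← Real.rpow_add hK0, ← add_div, div_self hk0.ne', Real.rpow_one]
        have h2K : 2 ≤ K ^ (1 / ((k : ℝ) + 1)) := by
          have h5 : ((2 : ℝ) ^ (k + 1)) ^ (1 / ((k : ℝ) + 1)) = 2 := by
            rw [← Real.rpow_natCast, ← Real.rpow_mul (by norm_num)]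
            push_cast
            rw [mul_one_div_cancel hk0.ne', Real.rpow_one]
          rw [← h5]
          exact Real.rpow_le_rpow (by positivity) (e3.trans h) (by positivity)
        have hρK : ρ ≤ K / 2 := by
          rw [le_div_iff₀ (by norm_num)]
          calc ρ * 2 ≤ ρ * K ^ (1 / ((k : ℝ) + 1)) := by gcongr
            _ = K := hprod
        have hpow : K ^ k ≤ ρ ^ (k + 1) := by
          rw [hρ, ← Real.rpow_natCast (K ^ ((k : ℝ) / (k + 1))), ← Real.rpow_mul hK0.le]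
          push_cast
          rw [div_mul_cancel₀ _ hk0.ne', Real.rpow_natCast]
        obtain ⟨X', Y', hX1', hX2', hY1', hY2', h1⟩ :=
          hdesc X Y K ρ hX1 hX2 hY1 hY2 hρ1 (by linarith) hpow
        have h2 := ih ρ hρ1 (by
          rw [pow_succ] at hKn
          linarith) X' Y' hX1' hX2' hY1' hY2'
        have h3 : K ^ ε = ρ ^ ε * K ^ (ε / (k + 1)) := by
          rw [hρ, ← Real.rpow_mul hK0.le, ← Real.rpow_add hK0]
          congr 1
          field_simp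
        have h4 : 2 * E ≤ K ^ (ε / (k + 1)) := hK₀ K (e1.trans h)
        have h5 : 0 < ρ ^ ε := Real.rpow_pos_of_pos hρ0 _
        have h6 : E * (A * ρ ^ ε) ≤ A * K ^ ε / 2 := by
          rw [h3]
          have : A * ρ ^ ε * (2 * E) ≤ A * ρ ^ ε * K ^ (ε / (k + 1)) := by gcongr
          linarith
        have h7 : E ≤ A * K ^ ε / 2 := by nlinarith
        calc p X Y ≤ E * (1 + p X' Y') := h1
          _ ≤ E * (1 + A * ρ ^ ε) := by gcongr
          _ = E + E * (A * ρ ^ ε) := by ring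
          _ ≤ A * K ^ ε := by linarith
  refine ⟨A, hA0, ?_⟩
  intro X Y M hX hXM hY hYM
  obtain ⟨n, hn⟩ := pow_unbounded_of_one_lt M (by norm_num : (1 : ℝ) < 2)
  have h1 := hdiag n M (hX.trans hXM) hn X Y hX hXM hY hYM
  rw [hp, div_le_iff₀ (by positivity)] at h1
  calc N X Y ≤ A * M ^ ε * (X * Y) ^ (d * m) := h1
    _ = A * (X * Y) ^ (d * m) * M ^ ε := by ring

end Pool.Agent.N852.GR
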