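import Mathlib
import Pool.Agent.N852.GR.Stm

/-!
Project GR, EXU: a rational point of the open set.
-/

namespace Pool.Agent.N852.GR

open scoped Classical
open NumberField Module Matrix

theorem rank_map_eq {K L : Type} [Field K] [Field L] {n : ℕ} (σ : K →+* L)
    (M : Matrix (Fin n) (Fin n) K) : (M.map σ).rank = M.rank := by
  obtain ⟨L₁, L₂, D, hM⟩ := Matrix.Pivot.exists_list_transvec_mul_diagonal_mul_list_transvec M
  set P := (L₁.map TransvectionStruct.toMatrix).prod with hP
  set Q := (L₂.map TransvectionStruct.toMatrix).prod with hQ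
  have hPd : P.det = 1 := TransvectionStruct.det_toMatrix_prod _
  have hQd : Q.det = 1 := TransvectionStruct.det_toMatrix_prod _
  have h1 : M.rank = (diagonal D).rank := by
    rw [hM, rank_mul_eq_left_of_isUnit_det Q _ (by rw [hQd]; exact isUnit_one),
      rank_mul_eq_right_of_isUnit_det P _ (by rw [hPd]; exact isUnit_one)]
  have h2 : M.map σ = P.map σ * diagonal (fun i => σ (D i)) * Q.map σ := by
    rw [hM, Matrix.map_mul, Matrix.map_mul, Matrix.diagonal_map (map_zero σ)]
  have hPd' : (P.map σ).det = 1 := by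
    have := (RingHom.map_det σ P).symm
    rw [hPd, map_one] at this
    exact this
  have hQd' : (Q.map σ).det = 1 := by
    have := (RingHom.map_det σ Q).symm
    rw [hQd, map_one] at this
    exact this
  rw [h1, h2, rank_mul_eq_left_of_isUnit_det (Q.map σ) _ (by rw [hQd']; exact isUnit_one),
      rank_mul_eq_right_of_isUnit_det (P.map σ) _ (by rw [hPd']; exact isUnit_one),
      rank_diagonal, rank_diagonal]
  simp only [ne_eq, map_eq_zero]

theorem finrank_le_map_add_ker {K : Type} [Field K] {X Y : Type} [AddCommGroup X] [Module K X]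
    [AddCommGroup Y] [Module K Y] [FiniteDimensional K X] [FiniteDimensional K Y] (f : X →ₗ[K] Y)
    (V : Submodule K X) :
    finrank K V ≤ finrank K (V.map f) + finrank K (LinearMap.ker f) := by
  have h1 := LinearMap.finrank_range_add_finrank_ker (f ∘ₗ V.subtype)
  rw [LinearMap.range_comp, Submodule.range_subtype] at h1
  have h2 : finrank K (LinearMap.ker (f ∘ₗ V.subtype)) ≤ finrank K (LinearMap.ker f) := by
    rw [← Submodule.finrank_map_subtype_eq V (LinearMap.ker (f ∘ₗ V.subtype))]
    apply Submodule.finrank_mono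
    rintro _ ⟨x, hx, rfl⟩
    exact hx
  omega

theorem exuP (F : Type) [Field F] [NumberField F] (hL : LldP) : ExuP F := by
  intro n k A hk hA hRC
  obtain ⟨σ⟩ : Nonempty (F →+* ℂ) := inferInstance
  have hrk : ∀ l : Fin k → F, l ≠ 0 → 3 * k ≤ (∑ i, l i • A i).rank := by
    intro l hl
    have h1 : (∑ i, l i • A i).map σ = ∑ i, σ (l i) • (A i).map σ := by
      ext p q
      simp only [Matrix.map_apply, Matrix.sum_apply, Matrix.smul_apply, smul_eq_mul, map_sum,
        map_mul]
    rw [← rank_map_eq σ, h1]
    apply hRC σ (fun i => σ (l i))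
    intro h0
    apply hl
    funext i
    have := congrFun h0 i
    simpa using this
  have hrg : ∀ l : Fin k → F, finrank F (LinearMap.range (∑ i, l i • (A i).mulVecLin)) =
      (∑ i, l i • A i).rank := by
    intro l
    have h1 : (∑ i, l i • (A i).mulVecLin) = (∑ i, l i • A i).mulVecLin := by
      ext1 j
      ext1
      simp [Matrix.mulVecLin, Matrix.sum_mulVec, Matrix.smul_mulVec]
    rw [h1]
    rfl
  obtain ⟨a, ha⟩ := hL F (Fin n → F) (Fin n → F) k (fun i => (A i).mulVecLin) hk (by
    intro l hl
    rw [hrg l]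
    exact le_trans (by omega) (hrk l hl))
  -- the equations for the second vector
  let φ : (Fin n → F) →ₗ[F] (Fin k → F) :=
    LinearMap.pi fun i => (dotProductBilin F F a).comp (A i).mulVecLin
  have hφ : ∀ z i, φ z i = a ⬝ᵥ (A i).mulVec z := fun z i => rfl
  set V := LinearMap.ker φ with hV
  set S := Submodule.span F (Set.range fun i => (A i).mulVecLin a) with hS
  have hVd : n ≤ finrank F V + k := by
    have h1 := LinearMap.finrank_range_add_finrank_ker φ
    have h2 : finrank F (LinearMap.range φ) ≤ k := by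
      have := Submodule.finrank_le (LinearMap.range φ)
      rwa [finrank_fin_fun] at this
    rw [finrank_fin_fun] at h1
    rw [hV]
    omega
  have hSd : finrank F S ≤ k := by
    have := finrank_range_le_card (R := F) (fun i => (A i).mulVecLin a)
    rwa [Fintype.card_fin] at this
  obtain ⟨v, hv⟩ := hL F V ((Fin n → F) ⧸ S) k
    (fun i => S.mkQ ∘ₗ (A i).mulVecLin ∘ₗ V.subtype) hk (by
    intro l hl
    have h1 : (∑ i, l i • (S.mkQ ∘ₗ (A i).mulVecLin ∘ₗ V.subtype)) =
        S.mkQ ∘ₗ (∑ i, l i • (A i).mulVecLin) ∘ₗ V.subtype := by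
      ext x
      simp [LinearMap.sum_apply, map_sum]
    rw [h1, LinearMap.range_comp, LinearMap.range_comp, Submodule.range_subtype]
    have h2 := finrank_le_map_add_ker (∑ i, l i • (A i).mulVecLin) V
    have h3 := finrank_le_map_add_ker S.mkQ (V.map (∑ i, l i • (A i).mulVecLin))
    rw [Submodule.ker_mkQ] at h3
    have h4 := LinearMap.finrank_range_add_finrank_ker (∑ i, l i • (A i).mulVecLin)
    rw [hrg l, finrank_fin_fun] at h4
    have h5 := hrk l hl
    omega)
  have hsum : LinearIndependent F
      (Sum.elim (fun i => (A i).mulVec a) fun i => (A i).mulVec (v : Fin n → F)) := by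
    let f : Fin k → S := fun i => ⟨(A i).mulVecLin a, Submodule.subset_span ⟨i, rfl⟩⟩
    have hf : LinearIndependent F f := LinearIndependent.of_comp S.subtype ha
    exact hf.sumElim_of_quotient (fun i => (A i).mulVec (v : Fin n → F)) hv
  refine ⟨a, v, ?_, ?_, hsum⟩
  · rw [LinearIndependent.pair_iff]
    intro s t hst
    let i0 : Fin k := ⟨0, hk⟩
    have hinj : Function.Injective (![Sum.inl i0, Sum.inr i0] : Fin 2 → Fin k ⊕ Fin k) := by
      intro x y hxy
      fin_cases x <;> fin_cases y <;> simp_all
    have h1 := hsum.comp _ hinj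
    have h2 : (Sum.elim (fun i => (A i).mulVec a) fun i => (A i).mulVec (v : Fin n → F)) ∘
        ![Sum.inl i0, Sum.inr i0] = ![(A i0).mulVec a, (A i0).mulVec (v : Fin n → F)] := by
      funext x
      fin_cases x <;> rfl
    rw [h2, LinearIndependent.pair_iff] at h1
    apply h1
    rw [← Matrix.mulVec_smul, ← Matrix.mulVec_smul, ← Matrix.mulVec_add, hst, Matrix.mulVec_zero]
  · intro i
    have h1 : φ v = 0 := v.2
    rw [← hφ, h1]
    rfl

end Pool.Agent.N852.GR
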