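import Mathlib
import Pool.Agent.N852.GR.Stm

/-!
Project GR, FIN: from pairs to planes.
-/

namespace Pool.Agent.N852.GR

open scoped Classical
open NumberField Module Matrix

variable {F : Type} [Field F] [NumberField F]

theorem fin_n_ge {n k : ℕ} {A : Fin k → Matrix (Fin n) (Fin n) (𝓞 F)} (hk : 1 ≤ k)
    (h : RC (cm A) (2 * k + 1)) : 2 * k + 1 ≤ n := by
  obtain ⟨σ⟩ : Nonempty (F →+* ℂ) := inferInstance
  have h1 := h σ (fun _ => 1) (by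
    intro h0
    have := congrFun h0 ⟨0, hk⟩
    exact one_ne_zero this)
  exact h1.trans (by simpa using Matrix.rank_le_card_width (∑ i, (1 : ℂ) • ((cm A) i).map σ))

theorem finP (F : Type) [Field F] [NumberField F] (hL : LatP F) (hR : RedP F) (hH : HgtP F)
    (hE : EngP F) : FinP F := by
  intro n k A hk hA hRC ε hε
  have hn := fin_n_ge hk hRC
  have hd : 0 < finrank ℚ F := finrank_pos
  set d := finrank ℚ F with hddef
  have hdR : (0 : ℝ) < d := by exact_mod_cast hd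
  obtain ⟨C1, hC1, hH⟩ := hH
  set ε₁ : ℝ := d * ε / 2 with hε₁
  have hε₁0 : 0 < ε₁ := by positivity
  obtain ⟨C, hC, hE⟩ := hE n k A hk hA hRC ε₁ hε₁0
  have hlog2 : 0 < Real.log 2 := Real.log_pos one_lt_two
  set C2 : ℝ := 1 / (ε₁ * Real.log 2) + 1 with hC2
  have hC20 : 0 < C2 := by positivity
  set m := n - k with hm
  have hmR : ((n : ℝ) - k) = (m : ℝ) := by
    rw [hm, Nat.cast_sub (by omega)]
  refine ⟨max 1 (C2 * C * 2 ^ (d * m) * 2 ^ ε₁ * C1 ^ ((m : ℝ) + ε)), le_max_left _ _, ?_⟩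
  intro T hT S hS
  have hT0 : 0 < T := by linarith
  have hC10 : 0 < C1 := by linarith
  have hCT : 1 ≤ C1 * T := by nlinarith
  set Q : ℝ := (C1 * T) ^ (1 / (d : ℝ)) with hQ
  have hQ1 : 1 ≤ Q := Real.one_le_rpow hCT (by positivity)
  have hQ0 : 0 < Q := by linarith
  have hQd : Q ^ d = C1 * T := by
    rw [hQ, ← Real.rpow_natCast, ← Real.rpow_mul (by positivity), one_div,
      inv_mul_cancel₀ hdR.ne', Real.rpow_one]
  set N : ℕ := ⌊Q ^ ε₁ / (ε₁ * Real.log 2)⌋₊ + 1 with hN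
  have hNle : (N : ℝ) ≤ C2 * Q ^ ε₁ := by
    have h1 : 1 ≤ Q ^ ε₁ := Real.one_le_rpow hQ1 hε₁0.le
    have h2 : ((⌊Q ^ ε₁ / (ε₁ * Real.log 2)⌋₊ : ℕ) : ℝ) ≤ Q ^ ε₁ / (ε₁ * Real.log 2) :=
      Nat.floor_le (by positivity)
    rw [hN, hC2]
    push_cast
    have h3 : (1 / (ε₁ * Real.log 2) + 1) * Q ^ ε₁ = Q ^ ε₁ / (ε₁ * Real.log 2) + Q ^ ε₁ := by
      field_simp
    rw [h3]
    linarith
  -- the choice of a minimal pair
  have hex : ∀ P : Submodule F (Fin n → F), ∃ p : (Fin n → 𝓞 F) × (Fin n → 𝓞 F),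
      P ∈ S → Mn P p.1 p.2 ∧ Submodule.span F {co p.1, co p.2} = P := by
    intro P
    by_cases hP : P ∈ S
    · obtain ⟨a, b, h1, h2⟩ := hR n P (hS P hP).1
      exact ⟨(a, b), fun _ => ⟨h1, h2⟩⟩
    · exact ⟨(0, 0), fun h => absurd h hP⟩
  choose f hf using hex
  set V : Set ((Fin n → 𝓞 F) × (Fin n → 𝓞 F)) :=
    ⋃ i ∈ Finset.range N, NS A (2 ^ (i + 1)) (Q / 2 ^ i) with hV
  have hbd : ∀ i : ℕ, (2 : ℝ) ^ i ≤ Q → (NS A (2 ^ (i + 1)) (Q / 2 ^ i)).Finite ∧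
      ((NS A (2 ^ (i + 1)) (Q / 2 ^ i)).ncard : ℝ) ≤ C * (2 * Q) ^ (d * m) * (2 * Q) ^ ε₁ := by
    intro i hi
    have h2i : (1 : ℝ) ≤ 2 ^ i := one_le_pow₀ (by norm_num)
    have h2i0 : (0 : ℝ) < 2 ^ i := by positivity
    have e1 : (2 : ℝ) ^ (i + 1) = 2 * 2 ^ i := by ring
    have h1 : (1 : ℝ) ≤ Q / 2 ^ i := by
      rw [le_div_iff₀ h2i0]; linarith
    have h2 : Q / 2 ^ i ≤ 2 * Q := by
      rw [div_le_iff₀ h2i0]; nlinarith
    have h3 := hE (2 ^ (i + 1)) (Q / 2 ^ i) (2 * Q) (by linarith) (by linarith) h1 h2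
    have e2 : (2 : ℝ) ^ (i + 1) * (Q / 2 ^ i) = 2 * Q := by
      rw [e1]; field_simp
    rw [e2] at h3
    exact h3
  have hemp : ∀ i : ℕ, Q < (2 : ℝ) ^ i → NS A (2 ^ (i + 1)) (Q / 2 ^ i) = ∅ := by
    intro i hi
    have h2i0 : (0 : ℝ) < 2 ^ i := by positivity
    ext ⟨a, b⟩
    simp only [Set.mem_empty_iff_false, iff_false]
    rintro ⟨⟨h1, h2, h3, h4⟩, h5⟩
    have hb : b ≠ 0 := by
      rintro rfl
      have h6 := h5.ne_zero (⟨0, hk⟩ : Fin k)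
      apply h6
      funext j
      simp [co, dr]
    have h6 := (hL n).1 b hb
    have h7 : Q / 2 ^ i < 1 := by
      rw [div_lt_iff₀ h2i0]; linarith
    have h8 : ‖io b‖ ≤ Q / 2 ^ i := h2
    linarith
  have hall : ∀ i : ℕ, (NS A (2 ^ (i + 1)) (Q / 2 ^ i)).Finite ∧
      ((NS A (2 ^ (i + 1)) (Q / 2 ^ i)).ncard : ℝ) ≤ C * (2 * Q) ^ (d * m) * (2 * Q) ^ ε₁ := by
    intro i
    by_cases hi : (2 : ℝ) ^ i ≤ Q
    · exact hbd i hi
    · rw [hemp i (not_le.1 hi)]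
      refine ⟨Set.finite_empty, ?_⟩
      rw [Set.ncard_empty, Nat.cast_zero]
      positivity
  have hVfin : V.Finite := (Finset.range N).finite_toSet.biUnion fun i _ => (hall i).1
  have hmaps : ∀ P ∈ S, f P ∈ V := by
    intro P hP
    obtain ⟨h1, h2⟩ := hf P hP
    obtain ⟨hP2, h3⟩ := hS P hP
    obtain ⟨hga, hgb, heq, hht⟩ := h3 _ _ h2
    have ha1 : 1 ≤ ‖io (f P).1‖ := (hL n).1 _ h1.2.2.1
    have hab : ‖io (f P).1‖ ≤ ‖io (f P).2‖ := h1.2.2.2.2.1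
    have hprod : (‖io (f P).1‖ * ‖io (f P).2‖) ^ d ≤ Q ^ d := by
      rw [hQd]
      exact (hH n P _ _ hP2 h1).trans (mul_le_mul_of_nonneg_left hht hC10.le)
    have hprod' : ‖io (f P).1‖ * ‖io (f P).2‖ ≤ Q :=
      le_of_pow_le_pow_left₀ hd.ne' hQ0.le hprod
    obtain ⟨i, hi1, hi2⟩ := exists_nat_pow_near ha1 one_lt_two
    have h2i0 : (0 : ℝ) < 2 ^ i := by positivity
    have haQ : ‖io (f P).1‖ ≤ Q := by nlinarith
    have hiQ : (2 : ℝ) ^ i ≤ Q := hi1.trans haQ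
    rw [hV, Set.mem_iUnion₂]
    refine ⟨i, ?_, ?_⟩
    · rw [Finset.mem_range, hN, Nat.lt_succ_iff]
      apply Nat.le_floor
      have h4 : (i : ℝ) * Real.log 2 ≤ Real.log Q := by
        rw [← Real.log_pow]
        exact Real.log_le_log h2i0 hiQ
      have h5 := Real.log_le_rpow_div hQ0.le hε₁0
      rw [le_div_iff₀ (by positivity)]
      rw [le_div_iff₀ hε₁0] at h5
      nlinarith
    · refine ⟨⟨hi2.le, ?_, hga, heq⟩, hgb⟩
      show ‖io (f P).2‖ ≤ Q / 2 ^ i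
      rw [le_div_iff₀ h2i0]
      have : 0 ≤ ‖io (f P).2‖ := norm_nonneg _
      nlinarith
  have hinj : Set.InjOn f S := by
    intro P hP P' hP' h
    rw [← (hf P hP).2, ← (hf P' hP').2, h]
  have hSfin : S.Finite := Set.Finite.of_injOn hmaps hinj hVfin
  refine ⟨hSfin, ?_⟩
  have h1 : S.ncard ≤ V.ncard := Set.ncard_le_ncard_of_injOn f hmaps hinj hVfin
  have h2 : (V.ncard : ℝ) ≤ ∑ i ∈ Finset.range N, C * (2 * Q) ^ (d * m) * (2 * Q) ^ ε₁ := by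
    have h3 : V.ncard ≤ ∑ i ∈ Finset.range N, (NS A (2 ^ (i + 1)) (Q / 2 ^ i)).ncard := by
      rw [hV]
      exact Finset.set_ncard_biUnion_le _ _
    have h4 : (V.ncard : ℝ) ≤
        ∑ i ∈ Finset.range N, ((NS A (2 ^ (i + 1)) (Q / 2 ^ i)).ncard : ℝ) := by
      exact_mod_cast h3
    exact h4.trans (Finset.sum_le_sum fun i _ => (hall i).2)
  rw [Finset.sum_const, Finset.card_range, nsmul_eq_mul] at h2
  have h5 : (S.ncard : ℝ) ≤ (C2 * Q ^ ε₁) * (C * (2 * Q) ^ (d * m) * (2 * Q) ^ ε₁) := by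
    have : (S.ncard : ℝ) ≤ V.ncard := by exact_mod_cast h1
    exact (this.trans h2).trans (mul_le_mul_of_nonneg_right hNle (by positivity))
  refine h5.trans ?_
  rw [hmR]
  have e1 : (2 * Q) ^ (d * m) = 2 ^ (d * m) * (C1 * T) ^ (m : ℝ) := by
    rw [mul_pow, pow_mul Q, hQd, Real.rpow_natCast]
  have e2 : (2 * Q) ^ ε₁ = 2 ^ ε₁ * Q ^ ε₁ := Real.mul_rpow (by norm_num) hQ0.le
  have e3 : Q ^ ε₁ * Q ^ ε₁ = (C1 * T) ^ ε := by
    rw [← Real.rpow_add hQ0, hQ, ← Real.rpow_mul (by positivity)]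
    congr 1
    rw [hε₁]
    field_simp
    ring
  have e4 : (C1 * T) ^ (m : ℝ) * (C1 * T) ^ ε = C1 ^ ((m : ℝ) + ε) * T ^ ((m : ℝ) + ε) := by
    rw [← Real.rpow_add (by positivity), Real.mul_rpow hC10.le hT0.le]
  rw [e1, e2]
  calc C2 * Q ^ ε₁ * (C * (2 ^ (d * m) * (C1 * T) ^ (m : ℝ)) * (2 ^ ε₁ * Q ^ ε₁))
      = C2 * C * 2 ^ (d * m) * 2 ^ ε₁ * ((C1 * T) ^ (m : ℝ) * (Q ^ ε₁ * Q ^ ε₁)) := by ring
    _ = C2 * C * 2 ^ (d * m) * 2 ^ ε₁ * C1 ^ ((m : ℝ) + ε) * T ^ ((m : ℝ) + ε) := by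
        rw [e3, e4]; ring
    _ ≤ _ := mul_le_mul_of_nonneg_right (le_max_right _ _) (by positivity)

end Pool.Agent.N852.GR
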