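import Mathlib
import Pool.Agent.N852.GR.Stm

/-!
Project GR: from the parts to the result.
-/

namespace Pool.Agent.N852.GR

open scoped Classical
open NumberField Module Matrix

variable {F : Type} [Field F] [NumberField F] {n k : ℕ}

/-- `P` is a plane on `X`. -/
def OnX (A : Fin k → Matrix (Fin n) (Fin n) F) (P : Submodule F (Fin n → F)) : Prop :=
  finrank F P = 2 ∧ ∀ i, ∀ a ∈ P, ∀ b ∈ P, a ⬝ᵥ (A i).mulVec b = 0

/-- The open subset `U`. -/
def InU (A : Fin k → Matrix (Fin n) (Fin n) F) (P : Submodule F (Fin n → F)) : Prop :=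
  finrank F (⨆ i, P.map (A i).mulVecLin : Submodule F (Fin n → F)) = 2 * k

theorem sup_eq (A : Fin k → Matrix (Fin n) (Fin n) F) (a b : Fin n → F) :
    (⨆ i, (Submodule.span F {a, b}).map (A i).mulVecLin : Submodule F (Fin n → F)) =
      Submodule.span F (Set.range (Sum.elim (fun i => (A i).mulVec a) fun i => (A i).mulVec b)) := by
  apply le_antisymm
  · refine iSup_le fun i => ?_
    rw [Submodule.map_span, Submodule.span_le]
    rintro _ ⟨x, hx, rfl⟩
    rcases hx with rfl | hx
    · exact Submodule.subset_span ⟨Sum.inl i, rfl⟩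
    · rw [Set.mem_singleton_iff] at hx
      subst hx
      exact Submodule.subset_span ⟨Sum.inr i, rfl⟩
  · rw [Submodule.span_le]
    rintro _ ⟨i | i, rfl⟩
    · refine Submodule.mem_iSup_of_mem i ?_
      exact ⟨a, Submodule.subset_span (Set.mem_insert _ _), rfl⟩
    · refine Submodule.mem_iSup_of_mem i ?_
      exact ⟨b, Submodule.subset_span (Set.mem_insert_of_mem _ rfl), rfl⟩

theorem inU_iff (A : Fin k → Matrix (Fin n) (Fin n) F) (a b : Fin n → F) :
    InU A (Submodule.span F {a, b}) ↔
      LinearIndependent F (Sum.elim (fun i => (A i).mulVec a) fun i => (A i).mulVec b) := by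
  unfold InU
  rw [sup_eq, linearIndependent_iff_card_eq_finrank_span, Set.finrank, Fintype.card_sum,
    Fintype.card_fin, ← two_mul, eq_comm]

theorem alt (M : Matrix (Fin n) (Fin n) F) (h : Mᵀ = -M) (a b : Fin n → F) :
    a ⬝ᵥ M.mulVec b = -(b ⬝ᵥ M.mulVec a) := by
  rw [dotProduct_mulVec, ← mulVec_transpose, h, neg_mulVec, neg_dotProduct, dotProduct_comm]

theorem alt_self (M : Matrix (Fin n) (Fin n) F) (h : Mᵀ = -M) (a : Fin n → F) :
    a ⬝ᵥ M.mulVec a = 0 := by
  have := alt M h a a
  have h2 : (2 : F) * (a ⬝ᵥ M.mulVec a) = 0 := by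
    rw [two_mul]
    nth_rw 1 [this]
    ring
  exact (mul_eq_zero.1 h2).resolve_left two_ne_zero

theorem onX_of (A : Fin k → Matrix (Fin n) (Fin n) F) (hA : ∀ i, (A i)ᵀ = -(A i)) {a b : Fin n → F}
    (hab : LinearIndependent F ![a, b]) (h : ∀ i, a ⬝ᵥ (A i).mulVec b = 0) :
    OnX A (Submodule.span F {a, b}) := by
  constructor
  · have h1 : finrank F (Submodule.span F (Set.range ![a, b])) = 2 := by
      simpa using finrank_span_eq_card hab
    have h2 : Set.range ![a, b] = {a, b} := by
      ext x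
      simp [eq_comm, or_comm]
    rw [h2] at h1
    exact h1
  · intro i x hx y hy
    rw [Submodule.mem_span_pair] at hx hy
    obtain ⟨p, q, rfl⟩ := hx
    obtain ⟨r, s, rfl⟩ := hy
    have h1 := alt_self (A i) (hA i) a
    have h2 := alt_self (A i) (hA i) b
    have h3 := h i
    have h4 := alt (A i) (hA i) b a
    rw [h3, neg_zero] at h4
    simp only [mulVec_add, mulVec_smul, dotProduct_add, add_dotProduct, dotProduct_smul,
      smul_dotProduct, h1, h2, h3, h4, smul_zero, add_zero]

/-- The minors for another basis. -/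
theorem pl_smul {a b a' b' : Fin n → F} (h1 : a' ∈ Submodule.span F {a, b})
    (h2 : b' ∈ Submodule.span F {a, b}) : ∃ c : F, pl a' b' = c • pl a b := by
  rw [Submodule.mem_span_pair] at h1 h2
  obtain ⟨p, q, rfl⟩ := h1
  obtain ⟨r, s, rfl⟩ := h2
  refine ⟨p * s - q * r, ?_⟩
  funext t
  simp only [pl, Pi.add_apply, Pi.smul_apply, smul_eq_mul]
  ring

theorem pl_ne {a b : Fin n → F} (hab : LinearIndependent F ![a, b]) : pl a b ≠ 0 := by
  intro h
  rw [LinearIndependent.pair_iff] at hab
  have ha : a ≠ 0 := by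
    rintro rfl
    have := (hab 1 0 (by simp)).1
    exact one_ne_zero this
  obtain ⟨j, hj⟩ := Function.ne_iff.1 ha
  have h1 := hab (b j) (-(a j)) (by
    funext i
    have h2 := congrFun h (j, i)
    simp only [pl, Pi.zero_apply] at h2
    simp only [Pi.add_apply, Pi.smul_apply, smul_eq_mul, Pi.zero_apply]
    linear_combination -h2)
  exact hj (neg_eq_zero.1 h1.2)

theorem indep_of_finrank {a b : Fin n → F} (h : finrank F (Submodule.span F {a, b}) = 2) :
    LinearIndependent F ![a, b] := by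
  rw [linearIndependent_iff_card_eq_finrank_span]
  have h2 : Set.range ![a, b] = {a, b} := by
    ext x
    simp [eq_comm, or_comm]
  rw [Set.finrank, h2, h]
  rfl

theorem mulHeight_pl {a b a' b' : Fin n → F} {P : Submodule F (Fin n → F)} (hP : finrank F P = 2)
    (h : Submodule.span F {a, b} = P) (h' : Submodule.span F {a', b'} = P) :
    Height.mulHeight (pl a' b') = Height.mulHeight (pl a b) := by
  obtain ⟨c, hc⟩ := pl_smul (a := a) (b := b) (a' := a') (b' := b')
    (by rw [h, ← h']; exact Submodule.subset_span (Set.mem_insert _ _))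
    (by rw [h, ← h']; exact Submodule.subset_span (Set.mem_insert_of_mem _ rfl))
  have hne := pl_ne (indep_of_finrank (a := a') (b := b') (by rw [h', hP]))
  have hc0 : c ≠ 0 := by
    rintro rfl
    rw [zero_smul] at hc
    exact hne hc
  rw [hc]
  exact Height.mulHeight_smul_eq_mulHeight _ hc0

/-- Clearing denominators. -/
theorem clear (A : Fin k → Matrix (Fin n) (Fin n) F) : ∃ (D : F)
    (B : Fin k → Matrix (Fin n) (Fin n) (𝓞 F)), D ≠ 0 ∧ ∀ i, cm B i = D • A i := by
  obtain ⟨b, hb⟩ := IsLocalization.exist_integer_multiples_of_finite (nonZeroDivisors (𝓞 F))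
    (fun p : Fin k × Fin n × Fin n => A p.1 p.2.1 p.2.2)
  choose B hB using hb
  refine ⟨((b : 𝓞 F) : F), fun i => Matrix.of fun j l => B (i, j, l), ?_, ?_⟩
  · have := nonZeroDivisors.ne_zero b.2
    exact_mod_cast this
  · intro i
    ext j l
    have := hB (i, j, l)
    simp only [cm, Matrix.map_apply, Matrix.of_apply, Matrix.smul_apply, smul_eq_mul]
    rw [this, Algebra.smul_def]

theorem rc_smul {A A' : Fin k → Matrix (Fin n) (Fin n) F} {D : F} (hD : D ≠ 0)
    (h : ∀ i, A' i = D • A i) {R : ℕ} (hA : RC A R) : RC A' R := by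
  intro σ l hl
  have h1 : ∑ i, l i • (A' i).map σ = ∑ i, (σ D • l) i • (A i).map σ := by
    refine Finset.sum_congr rfl fun i _ => ?_
    rw [h i]
    ext j m
    simp only [Matrix.smul_apply, Matrix.map_apply, smul_eq_mul, map_mul, Pi.smul_apply]
    ring
  rw [h1]
  apply hA
  intro h2
  apply hl
  have h3 : σ D ≠ 0 := by
    rw [Ne, map_eq_zero]
    exact hD
  exact (smul_eq_zero.1 h2).resolve_left h3

theorem rc_mono {A : Fin k → Matrix (Fin n) (Fin n) F} {R R' : ℕ} (h : R' ≤ R) (hA : RC A R) :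
    RC A R' := fun σ l hl => h.trans (hA σ l hl)

theorem co_dr {A : Fin k → Matrix (Fin n) (Fin n) F} {D : F}
    {B : Fin k → Matrix (Fin n) (Fin n) (𝓞 F)} (h : ∀ i, cm B i = D • A i) (a : Fin n → 𝓞 F)
    (i : Fin k) : co (dr B a i) = D • (A i).mulVec (co a) := by
  rw [← smul_mulVec, ← h i]
  funext j
  simp only [co, dr, cm, Matrix.mulVec, dotProduct, Matrix.map_apply]
  push_cast
  rfl

/-- The result, from the parts. -/
theorem glue (hX : ExuP F) (hS : SmtP F) (hF : FinP F) (hk : 1 ≤ k) (hn : 4 * k ≤ n)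
    (A : Fin k → Matrix (Fin n) (Fin n) F) (hA : ∀ i, (A i)ᵀ = -(A i)) (hsm : Smooth A) :
    (∃ P, OnX A P ∧ InU A P) ∧
    ∀ l : ℝ, 0 < l → ∀ ε : ℝ, 0 < ε → ∃ C : ℝ, ∀ T : ℝ, 1 ≤ T →
      {P : Submodule F (Fin n → F) | OnX A P ∧ InU A P ∧ ∃ a b, Submodule.span F {a, b} = P ∧
        Height.mulHeight (pl a b) ^ l ≤ T}.Finite ∧
      ({P : Submodule F (Fin n → F) | OnX A P ∧ InU A P ∧ ∃ a b, Submodule.span F {a, b} = P ∧
        Height.mulHeight (pl a b) ^ l ≤ T}.ncard : ℝ) ≤ C * T ^ (((n : ℝ) - k) / l + ε) := by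
  have hkn : k ≤ n := by omega
  have hrc : RC A (n - k) := hS n k A hA hsm hkn
  constructor
  · obtain ⟨a, b, h1, h2, h3⟩ := hX n k A hk hA (rc_mono (by omega) hrc)
    exact ⟨Submodule.span F {a, b}, onX_of A hA h1 h2, (inU_iff A a b).2 h3⟩
  intro l hl ε hε
  obtain ⟨D, B, hD, hB⟩ := clear A
  have hBt : ∀ i, (B i)ᵀ = -(B i) := by
    intro i
    ext j m
    have h1 : (((B i)ᵀ j m : 𝓞 F) : F) = ((-(B i)) j m : 𝓞 F) := by
      have e1 : ∀ p q, ((B i p q : 𝓞 F) : F) = D * A i p q := fun p q => by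
        have := congrFun (congrFun (hB i) p) q
        simpa [cm] using this
      have e2 : A i m j = -(A i j m) := by
        have := congrFun (congrFun (hA i) j) m
        simpa using this
      have h3 : ((-(B i)) j m : 𝓞 F) = -(B i j m) := rfl
      have h4 : ((-(B i j m) : 𝓞 F) : F) = -((B i j m : 𝓞 F) : F) := map_neg (algebraMap (𝓞 F) F) _
      rw [h3, h4, e1, Matrix.transpose_apply, e1, e2]
      ring
    exact_mod_cast h1
  obtain ⟨C, hC, hfin⟩ := hF n k B hk hBt (rc_smul hD hB (rc_mono (by omega) hrc)) (l * ε)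
    (by positivity)
  refine ⟨C, ?_⟩
  intro T hT
  have hT0 : 0 < T := by linarith
  have hT1 : 1 ≤ T ^ (1 / l) := Real.one_le_rpow hT (by positivity)
  obtain ⟨h1, h2⟩ := hfin (T ^ (1 / l)) hT1
    {P : Submodule F (Fin n → F) | OnX A P ∧ InU A P ∧ ∃ a b, Submodule.span F {a, b} = P ∧
        Height.mulHeight (pl a b) ^ l ≤ T} (by
      rintro P ⟨hP, hU, a₀, b₀, hab, hH⟩
      refine ⟨hP.1, ?_⟩
      intro a b h
      have hind : LinearIndependent F
          (Sum.elim (fun i => (A i).mulVec (co a)) fun i => (A i).mulVec (co b)) := by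
        rw [← inU_iff, h]
        exact hU
      have hDu : ∀ i : Fin k, (fun _ : Fin k => Units.mk0 D hD) i = Units.mk0 D hD := fun _ => rfl
      refine ⟨?_, ?_, ?_, ?_⟩
      · unfold Gd
        have h3 := hind.comp Sum.inl Sum.inl_injective
        have h4 := h3.units_smul fun _ => Units.mk0 D hD
        convert h4 using 1
        funext i
        rw [co_dr hB]
        rfl
      · unfold Gd
        have h3 := hind.comp Sum.inr Sum.inr_injective
        have h4 := h3.units_smul fun _ => Units.mk0 D hD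
        convert h4 using 1
        funext i
        rw [co_dr hB]
        rfl
      · intro i
        have h3 : co (dr B a i) ⬝ᵥ co b = 0 := by
          rw [co_dr hB, smul_dotProduct, dotProduct_comm, hP.2 i (co b) (by
            rw [← h]; exact Submodule.subset_span (Set.mem_insert_of_mem _ rfl)) (co a) (by
            rw [← h]; exact Submodule.subset_span (Set.mem_insert _ _)), smul_zero]
        have h4 : ((dr B a i ⬝ᵥ b : 𝓞 F) : F) = 0 := by
          rw [← h3]
          simp only [dotProduct, co]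
          push_cast
          rfl
        exact_mod_cast h4
      · rw [mulHeight_pl hP.1 hab h]
        have h0 : 0 ≤ Height.mulHeight (pl a₀ b₀) := (Height.mulHeight_pos _).le
        rw [← Real.rpow_le_rpow_iff h0 (by positivity) hl, ← Real.rpow_mul hT0.le,
          one_div, inv_mul_cancel₀ hl.ne', Real.rpow_one]
        exact hH)
  refine ⟨h1, h2.trans (le_of_eq ?_)⟩
  rw [← Real.rpow_mul hT0.le]
  congr 2
  field_simp

end Pool.Agent.N852.GR
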