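import Pool.Agent.N852.GR.Arc

/-!
Project GR: the height of a plane and a minimal pair (HGT, helper966).
-/

namespace Pool.Agent.N852.GR

open scoped Classical
open NumberField Module Matrix

theorem hgtP (F : Type) [Field F] [NumberField F] (hA : ArcP F) (hC : CttP F) : HgtP F := by
  obtain ⟨c, hc, hA⟩ := hA
  obtain ⟨m, hm, hC⟩ := hC
  set d := finrank ℚ F with hd
  refine ⟨max 1 ((m : ℝ) ^ d / c ^ d), le_max_left _ _, fun n P a b hP h => ?_⟩
  have harc := hA n P a b h
  have hctt := hC n P a b hP h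
  have ha0 : a ≠ 0 := h.2.2.1
  have hab : ‖io a‖ ≤ ‖io b‖ := h.2.2.2.2.1
  obtain ⟨i0, hi0⟩ := Function.ne_iff.1 ha0
  have hi0' : (a i0 : F) ≠ 0 := by
    intro h
    apply hi0
    exact_mod_cast h
  set A := ‖io a‖ with hAdef
  set B := ‖io b‖ with hBdef
  have w₀ : InfinitePlace F := Classical.arbitrary _
  have hA0 : 0 < A := lt_of_lt_of_le (InfinitePlace.pos_iff.2 hi0') (Arc.le_io a i0 w₀)
  have hB0 : 0 < B := hA0.trans_le hab
  have hAB : 0 < c * (A * B) := mul_pos hc (mul_pos hA0 hB0)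
  have hxe : (fun p => ((pl a b p : 𝓞 F) : F)) = pl (co a) (co b) := by
    funext p
    change algebraMap (𝓞 F) F (a p.1 * b p.2 - a p.2 * b p.1) = _
    rw [map_sub, map_mul, map_mul]
    rfl
  have hx0 : pl (co a) (co b) ≠ 0 := by
    obtain ⟨p, hp⟩ := harc w₀
    intro h0
    rw [h0, Pi.zero_apply, map_zero] at hp
    exact absurd hAB (not_lt.2 hp)
  have hx0' : pl a b ≠ 0 := by
    intro h0
    apply hx0
    rw [← hxe, h0]
    funext p
    exact map_zero (algebraMap (𝓞 F) F)
  have h1 := NumberField.absNorm_mul_finprod_finitePlace_eq_one (K := F) hx0'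
  have h2 := NumberField.mulHeight_eq (K := F) hx0
  set N := (Ideal.span (Set.range (pl a b))).absNorm with hN
  have hxe' : ∀ p, ((pl a b p : 𝓞 F) : F) = pl (co a) (co b) p := fun p => congrFun hxe p
  simp only [hxe'] at h1
  set f := ∏ᶠ v : FinitePlace F, ⨆ i, v (pl (co a) (co b) i) with hf
  have hNm : (N : ℝ) ≤ (m : ℝ) ^ d := by
    have h3 : N ∣ (Ideal.span {(m : 𝓞 F)}).absNorm :=
      Ideal.absNorm_dvd_absNorm_of_le ((Ideal.span_singleton_le_iff_mem _).2 hctt)
    have h4 : (Ideal.span {(m : 𝓞 F)}).absNorm = m ^ d := by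
      rw [Ideal.absNorm_span_natCast, NumberField.RingOfIntegers.rank]
    rw [h4] at h3
    have h6 : N ≤ m ^ d := Nat.le_of_dvd (pow_pos (Nat.pos_of_ne_zero hm) _) h3
    exact_mod_cast h6
  have hinf : (c * (A * B)) ^ d ≤ ∏ v : InfinitePlace F, (⨆ i, v (pl (co a) (co b) i)) ^ v.mult := by
    rw [hd, ← InfinitePlace.sum_mult_eq, ← Finset.prod_pow_eq_pow_sum]
    refine Finset.prod_le_prod (fun w _ => pow_nonneg hAB.le _) fun w _ => ?_
    refine pow_le_pow_left₀ hAB.le ?_ _
    obtain ⟨p, hp⟩ := harc w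
    exact hp.trans (le_ciSup (f := fun i => w (pl (co a) (co b) i)) (Set.finite_range _).bddAbove p)
  have hH0 : 0 ≤ Height.mulHeight (pl (co a) (co b)) := by
    have := Height.one_le_mulHeight (pl (co a) (co b))
    linarith
  have h7 : (c * (A * B)) ^ d ≤ (m : ℝ) ^ d * Height.mulHeight (pl (co a) (co b)) := by
    refine hinf.trans ?_
    have e : ∏ v : InfinitePlace F, (⨆ i, v (pl (co a) (co b) i)) ^ v.mult =
        (N : ℝ) * Height.mulHeight (pl (co a) (co b)) := by
      rw [h2]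
      calc _ = (∏ v : InfinitePlace F, (⨆ i, v (pl (co a) (co b) i)) ^ v.mult) * (N * f) := by
            rw [h1, mul_one]
        _ = _ := by ring
    rw [e]
    exact mul_le_mul_of_nonneg_right hNm hH0
  have h8 : (A * B) ^ d ≤ (m : ℝ) ^ d / c ^ d * Height.mulHeight (pl (co a) (co b)) := by
    rw [div_mul_eq_mul_div, le_div_iff₀ (pow_pos hc d)]
    refine le_trans (le_of_eq ?_) h7
    rw [mul_pow c]; ring
  exact h8.trans (mul_le_mul_of_nonneg_right (le_max_right _ _) hH0)

end Pool.Agent.N852.GR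

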