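import Pool.Agent.N852.GR.Stm
import Pool.Agent.H548.BL.Pack

/-!
Project GR: integral vectors in `(F ⊗ ℝ)^n`. Author: helper521.
-/

namespace Pool.Agent.N852.GR

open scoped Classical
open NumberField Module Matrix
open Pool.Agent.H548.BL (sep_card)

variable {F : Type} [Field F] [NumberField F] {n : ℕ}

theorem lat_emb_le (y : F) (B : ℝ) :
    ‖mixedEmbedding F y‖ ≤ B ↔ ∀ w : InfinitePlace F, w y ≤ B := by
  rw [mixedEmbedding.norm_eq_sup'_normAtPlace, Finset.sup'_le_iff]
  constructor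
  · intro h w
    have := h w (Finset.mem_univ w)
    rwa [mixedEmbedding.normAtPlace_apply] at this
  · intro h w _
    rw [mixedEmbedding.normAtPlace_apply]
    exact h w

theorem lat_place_le (x : Fin n → 𝓞 F) (i : Fin n) (w : InfinitePlace F) :
    w (x i : F) ≤ ‖io x‖ :=
  ((lat_emb_le (x i : F) _).1 le_rfl w).trans (norm_le_pi_norm (io x) i)

omit [NumberField F] in
theorem lat_io_sub (x y : Fin n → 𝓞 F) : io (x - y) = io x - io y := by
  funext i
  show mixedEmbedding F ((x i - y i : 𝓞 F) : F) =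
    mixedEmbedding F (x i : F) - mixedEmbedding F (y i : F)
  rw [← map_sub]
  rfl

theorem lat_io_inj {x y : Fin n → 𝓞 F} (h : io x = io y) : x = y := by
  funext i
  have h1 : mixedEmbedding F (x i : F) = mixedEmbedding F (y i : F) := congrFun h i
  exact RingOfIntegers.ext (mixedEmbedding_injective F h1)

theorem lat_one_le {x : Fin n → 𝓞 F} (hx : x ≠ 0) : 1 ≤ ‖io x‖ := by
  obtain ⟨i, hi⟩ : ∃ i, x i ≠ 0 := by
    by_contra h
    push Not at h
    exact hx (funext h)
  by_contra hcon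
  push Not at hcon
  have h1 : ∀ w : InfinitePlace F, w (x i : F) < 1 := fun w =>
    (lat_place_le x i w).trans_lt hcon
  obtain ⟨w⟩ : Nonempty (InfinitePlace F) := inferInstance
  have h2 := InfinitePlace.one_le_of_lt_one (w := w) hi (fun z _ => h1 z)
  exact absurd (h1 w) (not_lt.2 h2)

theorem lat_fin (n : ℕ) (B : ℝ) : {x : Fin n → 𝓞 F | ‖io x‖ ≤ B}.Finite := by
  have h1 : {a : 𝓞 F | ∀ w : InfinitePlace F, w (a : F) ≤ B}.Finite := by
    have h2 := Embeddings.finite_of_norm_le F ℂ B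
    refine Set.Finite.of_finite_image (f := fun a : 𝓞 F => (a : F)) (h2.subset ?_)
      (fun a _ b _ h => RingOfIntegers.ext h)
    rintro _ ⟨a, ha, rfl⟩
    refine ⟨RingOfIntegers.isIntegral_coe a, fun φ => ?_⟩
    rw [← InfinitePlace.apply φ (a : F)]
    exact ha _
  refine (Set.Finite.pi fun _ : Fin n => h1).subset ?_
  intro x hx i _ w
  exact (lat_place_le x i w).trans hx

theorem lat_pack (L : AddSubgroup (Fin n → 𝓞 F)) (W : Submodule ℝ (Fin n → EE F))
    (hLW : ∀ x ∈ L, io x ∈ W) {B ρ : ℝ} (hρ : 0 < ρ) (hB : ρ ≤ B) :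
    ({x : Fin n → 𝓞 F | x ∈ L ∧ ‖io x‖ ≤ B}.ncard : ℝ) ≤
      (3 * B / ρ) ^ finrank ℝ W * ({x : Fin n → 𝓞 F | x ∈ L ∧ ‖io x‖ ≤ ρ}.ncard : ℝ) := by
  have hB0 : 0 < B := hρ.trans_le hB
  have hf : ∀ C : ℝ, {x : Fin n → 𝓞 F | x ∈ L ∧ ‖io x‖ ≤ C}.Finite := fun C =>
    (lat_fin n C).subset fun x hx => hx.2
  rw [Set.ncard_eq_toFinset_card _ (hf B), Set.ncard_eq_toFinset_card _ (hf ρ)]
  set G := (hf B).toFinset with hG
  set Sm := (hf ρ).toFinset with hSm
  have mG : ∀ x, x ∈ G ↔ x ∈ L ∧ ‖io x‖ ≤ B := fun x => by rw [hG, Set.Finite.mem_toFinset]; rfl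
  have mS : ∀ x, x ∈ Sm ↔ x ∈ L ∧ ‖io x‖ ≤ ρ := fun x => by rw [hSm, Set.Finite.mem_toFinset]; rfl
  -- separated subsets
  set Q : Finset (Finset (Fin n → 𝓞 F)) := G.powerset.filter
    fun P => ∀ c ∈ P, ∀ d ∈ P, c ≠ d → ρ ≤ ‖io (c - d)‖ with hQ
  have hQne : Q.Nonempty := ⟨∅, by rw [hQ, Finset.mem_filter]; simp⟩
  obtain ⟨P, hP, hmax⟩ := Finset.exists_max_image Q Finset.card hQne
  rw [hQ, Finset.mem_filter, Finset.mem_powerset] at hP
  obtain ⟨hPG, hPs⟩ := hP
  have hsym : ∀ c d : Fin n → 𝓞 F, ‖io (c - d)‖ = ‖io (d - c)‖ := by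
    intro c d
    rw [lat_io_sub, lat_io_sub, norm_sub_rev]
  -- covering
  have hcov : G ⊆ P.biUnion fun p => Sm.image fun u => p + u := by
    intro v hv
    rw [Finset.mem_biUnion]
    by_contra hcon
    push Not at hcon
    have hfar : ∀ p ∈ P, ρ ≤ ‖io (v - p)‖ := by
      intro p hp
      by_contra hlt
      apply hcon p hp
      rw [Finset.mem_image]
      refine ⟨v - p, ?_, by abel⟩
      rw [mS]
      exact ⟨L.sub_mem ((mG v).1 hv).1 ((mG p).1 (hPG hp)).1, (not_le.1 hlt).le⟩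
    have hvP : v ∉ P := by
      intro h
      have h1 := hfar v h
      rw [lat_io_sub, sub_self, norm_zero] at h1
      linarith
    have h1 : insert v P ∈ Q := by
      rw [hQ, Finset.mem_filter, Finset.mem_powerset]
      refine ⟨Finset.insert_subset hv hPG, ?_⟩
      intro c hc d hd hcd
      rw [Finset.mem_insert] at hc hd
      rcases hc with rfl | hc <;> rcases hd with rfl | hd
      · exact absurd rfl hcd
      · exact hfar d hd
      · rw [hsym]
        exact hfar c hc
      · exact hPs c hc d hd hcd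
    have h2 := hmax _ h1
    rw [Finset.card_insert_of_notMem hvP] at h2
    omega
  -- the number of separated points
  have hPc : (P.card : ℝ) ≤ (3 * B / ρ) ^ finrank ℝ W := by
    have hmem : ∀ p ∈ P, io p ∈ W := fun p hp => hLW p ((mG p).1 (hPG hp)).1
    set s : Finset W := P.attach.image fun p => ⟨io p.1, hmem p.1 p.2⟩ with hs
    have hsc : s.card = P.card := by
      rw [hs, Finset.card_image_of_injective, Finset.card_attach]
      intro p q hpq
      simp only [Subtype.mk.injEq] at hpq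
      exact Subtype.ext (lat_io_inj hpq)
    have h1 := sep_card s B ρ hρ hB0.le (by
      intro c hc
      rw [hs, Finset.mem_image] at hc
      obtain ⟨p, -, rfl⟩ := hc
      rw [Submodule.coe_norm]
      exact ((mG p.1).1 (hPG p.2)).2) (by
      intro c hc d hd hcd
      rw [hs, Finset.mem_image] at hc hd
      obtain ⟨p, -, rfl⟩ := hc
      obtain ⟨q, -, rfl⟩ := hd
      rw [Submodule.coe_norm]
      show ρ ≤ ‖io p.1 - io q.1‖
      rw [← lat_io_sub]
      have h3 : p.1 ≠ q.1 := by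
        intro h
        apply hcd
        simp [h]
      exact hPs p.1 p.2 q.1 q.2 h3)
    rw [hsc] at h1
    have hq : (1 : ℝ) ≤ B / ρ := by
      rw [le_div_iff₀ hρ, one_mul]
      exact hB
    calc (P.card : ℝ) ≤ (2 * B / ρ + 1) ^ finrank ℝ W := h1
      _ ≤ (3 * B / ρ) ^ finrank ℝ W := by
          gcongr
          have : (3 * B / ρ : ℝ) = 2 * B / ρ + B / ρ := by ring
          rw [this]
          linarith
  calc (G.card : ℝ) ≤ ((P.biUnion fun p => Sm.image fun u => p + u).card : ℝ) := by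
        exact_mod_cast Finset.card_le_card hcov
    _ ≤ ((∑ p ∈ P, (Sm.image fun u => p + u).card : ℕ) : ℝ) := by
        exact_mod_cast Finset.card_biUnion_le
    _ ≤ ((∑ p ∈ P, Sm.card : ℕ) : ℝ) := by
        exact_mod_cast Finset.sum_le_sum fun p _ => Finset.card_image_le
    _ = (P.card : ℝ) * Sm.card := by
        rw [Finset.sum_const, smul_eq_mul]
        push_cast
        ring
    _ ≤ (3 * B / ρ) ^ finrank ℝ W * (Sm.card : ℝ) := by
        gcongr

/-- LAT -/
theorem latP (F : Type) [Field F] [NumberField F] : LatP F := fun n =>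
  ⟨fun _ hx => lat_one_le hx, lat_fin n, fun L W hLW _ _ hρ hB => lat_pack L W hLW hρ hB⟩

end Pool.Agent.N852.GR
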