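import Pool.Agent.N852.GR.Stm

/-! GR/LLD: locally linearly dependent maps (helper195). -/

namespace Pool.Agent.N852.GR

open scoped Classical
open NumberField Module Matrix

/-- A perturbation of an independent family is independent for some nonzero parameter. -/
theorem lld_pert {K : Type} [Field K] [Infinite K] {W : Type} [AddCommGroup W] [Module K W]
    {ι : Type} [Finite ι] (x y : ι → W) (hx : LinearIndependent K x) :
    ∃ t : K, t ≠ 0 ∧ LinearIndependent K (fun i => x i + t • y i) := by
  have : Fintype ι := Fintype.ofFinite ι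
  obtain ⟨g, hg⟩ := LinearMap.exists_leftInverse_of_injective (Fintype.linearCombination K x)
    (LinearMap.ker_eq_bot.mpr hx.fintypeLinearCombination_injective)
  have hgx : ∀ i, g (x i) = Pi.single i 1 := by
    intro i
    have h1 := LinearMap.congr_fun hg (Pi.single i 1)
    simpa [Fintype.linearCombination_apply_single] using h1
  obtain ⟨P, hPd⟩ : ∃ P : Matrix ι ι (Polynomial K), P = Matrix.of (fun i j =>
    Polynomial.C ((1 : Matrix ι ι K) i j) + Polynomial.X * Polynomial.C (g (y i) j)) := ⟨_, rfl⟩
  have hP : ∀ t : K, Polynomial.eval t P.det =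
      (Matrix.of (fun i j => (1 : Matrix ι ι K) i j + t * g (y i) j)).det := by
    intro t
    have h1 : Polynomial.eval t P.det = Polynomial.evalRingHom t P.det := rfl
    have h2 : (Polynomial.evalRingHom t).mapMatrix P =
        Matrix.of (fun i j => (1 : Matrix ι ι K) i j + t * g (y i) j) := by
      ext i j
      rw [RingHom.mapMatrix_apply, Matrix.map_apply, Matrix.of_apply, hPd, Matrix.of_apply]
      simp only [map_add, map_mul, Polynomial.coe_evalRingHom, Polynomial.eval_C,
        Polynomial.eval_X]
    rw [h1, RingHom.map_det, h2]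
  have hne : Polynomial.X * P.det ≠ 0 := by
    apply mul_ne_zero Polynomial.X_ne_zero
    intro h0
    have h1 := hP 0
    rw [h0] at h1
    have h2 : (Matrix.of (fun i j => (1 : Matrix ι ι K) i j + 0 * g (y i) j)) = 1 := by
      ext i j
      simp
    rw [h2, Matrix.det_one] at h1
    simp at h1
  obtain ⟨t, ht⟩ : ∃ t : K, Polynomial.eval t (Polynomial.X * P.det) ≠ 0 := by
    by_contra hcon
    push Not at hcon
    exact hne (Polynomial.funext (fun r => by rw [hcon r, Polynomial.eval_zero]))
  rw [Polynomial.eval_mul, Polynomial.eval_X, hP t] at ht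
  refine ⟨t, left_ne_zero_of_mul ht, ?_⟩
  have hdet := right_ne_zero_of_mul ht
  rw [Fintype.linearIndependent_iff]
  intro c hc
  have h1 : c ᵥ* (Matrix.of (fun i j => (1 : Matrix ι ι K) i j + t * g (y i) j)) = 0 := by
    have h2 := congrArg g hc
    rw [map_sum, map_zero] at h2
    funext j
    have h3 := congrFun h2 j
    simp only [Finset.sum_apply, map_smul, map_add, Pi.smul_apply, Pi.add_apply, smul_eq_mul,
      hgx, Pi.zero_apply] at h3
    simp only [Matrix.vecMul, dotProduct, Matrix.of_apply, Pi.zero_apply]
    rw [← h3]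
    apply Finset.sum_congr rfl
    intro i _
    congr 2
    rw [Matrix.one_apply, Pi.single_apply]
    by_cases hij : i = j
    · simp [hij]
    · simp [hij, Ne.symm hij]
  have h2 := Matrix.eq_zero_of_vecMul_eq_zero hdet h1
  intro i
  exact congrFun h2 i

theorem lldP : LldP := by
  intro K _ _ V W _ _ _ _ _ _ k B _ hB
  by_contra hcon
  push Not at hcon
  -- the maximal rank
  let ρ : V → ℕ := fun v => finrank K (Submodule.span K (Set.range fun i => B i v))
  have hρlt : ∀ v, ρ v < k := by
    intro v
    have h1 := hcon v
    rw [linearIndependent_iff_card_le_finrank_span] at h1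
    push Not at h1
    rw [Fintype.card_fin] at h1
    exact h1
  have hbdd : BddAbove (Set.range ρ) := ⟨k, by rintro _ ⟨v, rfl⟩; exact (hρlt v).le⟩
  obtain ⟨v0, hv0⟩ := Nat.sSup_mem (s := Set.range ρ) ⟨_, 0, rfl⟩ hbdd
  have hmax : ∀ v, ρ v ≤ ρ v0 := by
    intro v
    rw [hv0]
    exact le_csSup hbdd ⟨v, rfl⟩
  -- the relation
  have h1 := hcon v0
  rw [Fintype.linearIndependent_iff] at h1
  push Not at h1
  obtain ⟨l, hl, i₀, hi₀⟩ := h1
  have hl0 : l ≠ 0 := fun h => hi₀ (congrFun h i₀)
  have hBv0 : (∑ i, l i • B i) v0 = 0 := by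
    rw [LinearMap.sum_apply]
    simpa using hl
  obtain ⟨κ, a, ha, hspan, hli⟩ := exists_linearIndependent' K (fun i => B i v0)
  have hfin : Finite κ := Finite.of_injective a ha
  have hft : Fintype κ := Fintype.ofFinite κ
  have hcard : Fintype.card κ = ρ v0 := by
    show Fintype.card κ = finrank K (Submodule.span K (Set.range fun i => B i v0))
    rw [← hspan, finrank_span_eq_card hli]
  have hmem : ∀ z, (∑ i, l i • B i) z ∈ Submodule.span K (Set.range ((fun i => B i v0) ∘ a)) := by
    intro z
    by_contra hz
    have hx : LinearIndependent K (fun o : Option κ => Option.casesOn' o ((∑ i, l i • B i) z)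
        ((fun i => B i v0) ∘ a)) := linearIndependent_option'.mpr ⟨hli, hz⟩
    obtain ⟨t, ht, hlt⟩ := lld_pert _ (fun o : Option κ => Option.casesOn' o (0 : W)
      (fun c => B (a c) z)) hx
    have hle : Submodule.span K (Set.range (fun o : Option κ =>
        (Option.casesOn' o ((∑ i, l i • B i) z) ((fun i => B i v0) ∘ a) : W) +
          t • (Option.casesOn' o (0 : W) (fun c => B (a c) z) : W))) ≤
        Submodule.span K (Set.range fun i => B i (v0 + t • z)) := by
      rw [Submodule.span_le]
      rintro _ ⟨o, rfl⟩
      rcases o with _ | c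
      · simp only [Option.casesOn', smul_zero, add_zero, SetLike.mem_coe]
        have h2 : (∑ i, l i • B i) z = t⁻¹ • ∑ i, l i • B i (v0 + t • z) := by
          have h3 : ∑ i, l i • B i (v0 + t • z) = (∑ i, l i • B i) (v0 + t • z) := by
            rw [LinearMap.sum_apply]
            simp
          rw [h3, map_add, hBv0, zero_add, map_smul, smul_smul, inv_mul_cancel₀ ht, one_smul]
        rw [h2]
        apply Submodule.smul_mem
        apply Submodule.sum_mem
        intro i _
        apply Submodule.smul_mem
        exact Submodule.subset_span ⟨i, rfl⟩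
      · simp only [Option.casesOn', Function.comp, SetLike.mem_coe]
        have h2 : B (a c) v0 + t • B (a c) z = B (a c) (v0 + t • z) := by
          rw [map_add, map_smul]
        rw [h2]
        exact Submodule.subset_span ⟨a c, rfl⟩
    have h2 := Submodule.finrank_mono hle
    rw [finrank_span_eq_card hlt, Fintype.card_option, hcard] at h2
    have h3 := hmax (v0 + t • z)
    have h4 : ρ (v0 + t • z) = finrank K (Submodule.span K (Set.range fun i => B i (v0 + t • z))) := rfl
    omega
  have hrange : LinearMap.range (∑ i, l i • B i) ≤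
      Submodule.span K (Set.range ((fun i => B i v0) ∘ a)) := by
    rintro _ ⟨z, rfl⟩
    exact hmem z
  have h2 := Submodule.finrank_mono hrange
  rw [finrank_span_eq_card hli, hcard] at h2
  have h3 := hB l hl0
  have h4 := hρlt v0
  omega

end Pool.Agent.N852.GR
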