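import Pool.Agent.N852.GR.Stm

/-! GR/PBP: a relation of norm 3 at every place (helper195). -/

namespace Pool.Agent.N852.GR

open scoped Classical
open NumberField Module Matrix

theorem pbP (F : Type) [Field F] [NumberField F] : PbP F := by
  intro n k A b hb
  unfold Gd at hb
  rw [Fintype.linearIndependent_iff] at hb
  push Not at hb
  obtain ⟨l, hl, i₀, hi₀⟩ := hb
  have hm : ∀ w : InfinitePlace F, ∃ i, (∀ j, w (l j) ≤ w (l i)) ∧ 0 < w (l i) := by
    intro w
    obtain ⟨i, -, hi⟩ := Finset.exists_max_image Finset.univ (fun j => w (l j))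
      ⟨i₀, Finset.mem_univ _⟩
    refine ⟨i, fun j => hi j (Finset.mem_univ _),
      lt_of_lt_of_le ?_ (hi i₀ (Finset.mem_univ _))⟩
    exact InfinitePlace.pos_iff.mpr hi₀
  choose f hf1 hf2 using hm
  obtain ⟨e, he⟩ : ∃ e : EE F, ∀ w : InfinitePlace F,
      mixedEmbedding.normAtPlace w e = 3 / w (l (f w)) := by
    refine ⟨(fun w => 3 / w.1 (l (f w.1)), fun w => ((3 / w.1 (l (f w.1)) : ℝ) : ℂ)), ?_⟩
    intro w
    have hpos : 0 ≤ 3 / w (l (f w)) := by
      have := hf2 w
      positivity
    rcases w.isReal_or_isComplex with h | h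
    · rw [mixedEmbedding.normAtPlace_apply_of_isReal h]
      simp only [Real.norm_eq_abs]
      exact abs_of_nonneg hpos
    · rw [mixedEmbedding.normAtPlace_apply_of_isComplex h]
      simp only [Complex.norm_real, Real.norm_eq_abs]
      exact abs_of_nonneg hpos
  have hnorm : ∀ (w : InfinitePlace F) (i : Fin k),
      mixedEmbedding.normAtPlace w (e * mixedEmbedding F (l i)) = 3 / w (l (f w)) * w (l i) := by
    intro w i
    rw [map_mul, he, mixedEmbedding.normAtPlace_apply]
  refine ⟨fun i => e * mixedEmbedding F (l i), ?_, ?_, ?_⟩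
  · show ∀ j : Fin n, ∑ i, (e * mixedEmbedding F (l i)) * mixedEmbedding F (dr A b i j : F) = 0
    intro j
    have h1 : ∀ i, (e * mixedEmbedding F (l i)) * mixedEmbedding F (dr A b i j : F) =
        e * mixedEmbedding F (l i * (dr A b i j : F)) := by
      intro i
      rw [map_mul, mul_assoc]
    rw [Finset.sum_congr rfl (fun i _ => h1 i), ← Finset.mul_sum, ← map_sum]
    have h2 : ∑ i, l i * (dr A b i j : F) = 0 := by
      have h3 := congrFun hl j
      simpa [Finset.sum_apply, co] using h3
    rw [h2, map_zero, mul_zero]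
  · rw [pi_norm_le_iff_of_nonneg (by norm_num)]
    intro i
    rw [mixedEmbedding.norm_eq_sup'_normAtPlace]
    apply Finset.sup'_le
    intro w _
    rw [hnorm]
    have h1 := hf1 w i
    have h2 := hf2 w
    rw [div_mul_eq_mul_div, div_le_iff₀ h2]
    linarith
  · intro w
    refine ⟨f w, ?_⟩
    rw [hnorm]
    have h2 := (hf2 w).ne'
    field_simp

end Pool.Agent.N852.GR
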