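import Pool.Agent.N852.GR.Pig2

/-!
Project GR: approximation in a number field, one place (PIG1, helper966).
-/

namespace Pool.Agent.N852.GR

open scoped Classical
open NumberField Module Matrix

namespace Pig1

variable {F : Type} [Field F] [NumberField F]

/-- The component at `w₀`. -/
noncomputable def pr (w₀ : InfinitePlace F) (x : EE F) : EE F :=
  (fun w => if w.1 = w₀ then x.1 w else 0, fun w => if w.1 = w₀ then x.2 w else 0)

lemma pr_self (w₀ : InfinitePlace F) (x y z : EE F) :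
    mixedEmbedding.normAtPlace w₀ (pr w₀ x - pr w₀ y - z) =
      mixedEmbedding.normAtPlace w₀ (x - y - z) := by
  rcases w₀.isReal_or_isComplex with h | h
  · rw [mixedEmbedding.normAtPlace_apply_of_isReal h, mixedEmbedding.normAtPlace_apply_of_isReal h]
    simp [pr]
  · rw [mixedEmbedding.normAtPlace_apply_of_isComplex h,
      mixedEmbedding.normAtPlace_apply_of_isComplex h]
    simp [pr]

lemma pr_ne {w₀ w : InfinitePlace F} (hw : w ≠ w₀) (x y z : EE F) :
    mixedEmbedding.normAtPlace w (pr w₀ x - pr w₀ y - z) =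
      mixedEmbedding.normAtPlace w z := by
  rcases w.isReal_or_isComplex with h | h
  · rw [mixedEmbedding.normAtPlace_apply_of_isReal h, mixedEmbedding.normAtPlace_apply_of_isReal h]
    simp [pr, hw]
  · rw [mixedEmbedding.normAtPlace_apply_of_isComplex h,
      mixedEmbedding.normAtPlace_apply_of_isComplex h]
    simp [pr, hw]

/-- A small integer outside of a place. -/
lemma small (w₀ : InfinitePlace F) (δ : ℝ) (hδ : 0 < δ) : ∃ a : 𝓞 F, a ≠ 0 ∧
    ∀ w : InfinitePlace F, w ≠ w₀ → w (a : F) ≤ δ := by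
  obtain ⟨u, hu⟩ := NumberField.Units.dirichletUnitTheorem.exists_unit F w₀
  have h1 : ∀ w : InfinitePlace F, ∃ N : ℕ, w ≠ w₀ → ∀ n, N ≤ n → w ((u : 𝓞 F) : F) ^ n ≤ δ := by
    intro w
    by_cases hw : w = w₀
    · exact ⟨0, fun h => absurd hw h⟩
    · have h2 : 0 < w ((u : 𝓞 F) : F) := by
        rw [InfinitePlace.pos_iff]
        simp
      have h3 : w ((u : 𝓞 F) : F) < 1 := by
        have := hu w hw
        by_contra h
        exact absurd this (not_lt.2 (Real.log_nonneg (not_lt.1 h)))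
      obtain ⟨N, hN⟩ := exists_pow_lt_of_lt_one hδ h3
      exact ⟨N, fun _ n hn => (pow_le_pow_of_le_one h2.le h3.le hn).trans hN.le⟩
  choose N hN using h1
  refine ⟨(u : 𝓞 F) ^ (∑ w, N w), pow_ne_zero _ u.ne_zero, fun w hw => ?_⟩
  have h4 : (((u : 𝓞 F) ^ (∑ w, N w) : 𝓞 F) : F) = ((u : 𝓞 F) : F) ^ (∑ w, N w) :=
    map_pow (algebraMap (𝓞 F) F) _ _
  rw [h4, map_pow]
  exact hN w hw _ (Finset.single_le_sum (f := N) (fun _ _ => Nat.zero_le _) (Finset.mem_univ w))

end Pig1

theorem pig1P (F : Type) [Field F] [NumberField F] : Pig1P F := by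
  intro ε hε
  obtain ⟨K, hK⟩ := Pig2.pig F ε hε
  have hδ : 0 < ε / (K + 1) := by positivity
  choose a ha0 ha using fun w₀ : InfinitePlace F => Pig1.small w₀ (ε / (K + 1)) hδ
  refine ⟨∑ w : InfinitePlace F, K * w (a w : F), fun w₀ τ => ?_⟩
  obtain ⟨i, j, hij, hj, γ, -, h1, -⟩ := hK
    (fun j => Pig1.pr w₀ (mixedEmbedding F ((j : F) * (a w₀ : F) * τ))) (fun _ => 0)
  have hα : (((j - i : ℕ) : 𝓞 F) * a w₀ : 𝓞 F) ≠ 0 := by
    refine mul_ne_zero ?_ (ha0 w₀)
    have : j - i ≠ 0 := by omega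
    exact_mod_cast this
  have hαe : ((((j - i : ℕ) : 𝓞 F) * a w₀ : 𝓞 F) : F) = ((j - i : ℕ) : F) * (a w₀ : F) :=
    (map_mul (algebraMap (𝓞 F) F) _ _).trans (by rw [map_natCast])
  have hwn : ∀ w : InfinitePlace F, w ((j - i : ℕ) : F) = ((j - i : ℕ) : ℝ) := by
    intro w
    rw [← w.norm_embedding_eq, map_natCast, Complex.norm_natCast]
  have hK' : ((j - i : ℕ) : ℝ) ≤ K := by
    have : j - i ≤ K := by omega
    exact_mod_cast this
  refine ⟨((j - i : ℕ) : 𝓞 F) * a w₀, γ, hα, ?_, ?_, fun w hw => ⟨?_, ?_⟩⟩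
  · rw [hαe, map_mul, hwn]
    refine (mul_le_mul_of_nonneg_right hK' (apply_nonneg _ _)).trans ?_
    exact Finset.single_le_sum (f := fun w : InfinitePlace F => (K : ℝ) * w (a w : F))
      (fun w _ => mul_nonneg (Nat.cast_nonneg _) (apply_nonneg _ _)) (Finset.mem_univ w₀)
  · have h2 := (Pig2.place_le _ w₀).trans h1
    rw [Pig1.pr_self, ← map_sub (mixedEmbedding F), ← map_sub (mixedEmbedding F),
      mixedEmbedding.normAtPlace_apply] at h2
    rw [hαe, Nat.cast_sub hij.le]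
    have e : ((j : F) - (i : F)) * (a w₀ : F) * τ - γ =
        (j : F) * (a w₀ : F) * τ - (i : F) * (a w₀ : F) * τ - γ := by ring
    rw [e]
    exact h2
  · rw [hαe, map_mul, hwn]
    have h3 : ((j - i : ℕ) : ℝ) * w (a w₀ : F) ≤ K * (ε / (K + 1)) :=
      mul_le_mul hK' (ha w₀ w hw) (apply_nonneg _ _) (Nat.cast_nonneg _)
    refine h3.trans ?_
    rw [mul_div_assoc', div_le_iff₀ (by positivity)]
    nlinarith
  · have h2 := (Pig2.place_le _ w).trans h1
    rw [Pig1.pr_ne hw, mixedEmbedding.normAtPlace_apply] at h2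
    exact h2

end Pool.Agent.N852.GR

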