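import Pool.Agent.N852.GR.Stm

/-!
Project GR: pigeonhole modulo the integers of a number field, all places (PIG2, helper966).
-/

namespace Pool.Agent.N852.GR

open scoped Classical
open NumberField Module Matrix

namespace Pig2

variable {F : Type} [Field F] [NumberField F]

lemma place_le (x : EE F) (w : InfinitePlace F) : mixedEmbedding.normAtPlace w x ≤ ‖x‖ := by
  rw [mixedEmbedding.norm_eq_sup'_normAtPlace]
  exact Finset.le_sup' (fun w => mixedEmbedding.normAtPlace w x) (Finset.mem_univ w)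

/-- Pigeonhole in `(E / lattice) ^ 2`. -/
theorem pig (F : Type) [Field F] [NumberField F] (ε : ℝ) (hε : 0 < ε) : ∃ K : ℕ,
    ∀ e f : ℕ → EE F, ∃ i j : ℕ, i < j ∧ j ≤ K ∧ ∃ γ η : 𝓞 F,
      ‖e j - e i - mixedEmbedding F (γ : F)‖ ≤ ε ∧ ‖f j - f i - mixedEmbedding F (η : F)‖ ≤ ε := by
  set b := mixedEmbedding.latticeBasis F with hb
  have hc : IsCompact (Metric.closedBall (0 : EE F) (∑ i, ‖b i‖)) := isCompact_closedBall _ _
  obtain ⟨t, -, ht, htc⟩ := hc.finite_cover_balls (e := ε / 2) (by positivity)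
  obtain ⟨T, hT⟩ := ht.exists_finset_coe
  have hcen : ∀ x : EE F, ∃ y ∈ T, ‖ZSpan.fract b x - y‖ < ε / 2 := by
    intro x
    have h1 : ZSpan.fract b x ∈ Metric.closedBall (0 : EE F) (∑ i, ‖b i‖) := by
      rw [mem_closedBall_zero_iff]
      exact ZSpan.norm_fract_le b x
    obtain ⟨y, hy, hxy⟩ := Set.mem_iUnion₂.1 (htc h1)
    refine ⟨y, by rw [← Finset.mem_coe, hT]; exact hy, ?_⟩
    rwa [Metric.mem_ball, dist_eq_norm] at hxy
  choose c hcT hc using hcen
  have hfl : ∀ x y : EE F, c x = c y → ∃ γ : 𝓞 F, ‖x - y - mixedEmbedding F (γ : F)‖ ≤ ε := by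
    intro x y hxy
    have h1 : ((ZSpan.floor b x : EE F) - (ZSpan.floor b y : EE F)) ∈
        Submodule.span ℤ (Set.range b) :=
      Submodule.sub_mem _ (ZSpan.floor b x).2 (ZSpan.floor b y).2
    rw [hb, mixedEmbedding.mem_span_latticeBasis] at h1
    obtain ⟨γ, hγ⟩ : ∃ γ : 𝓞 F, mixedEmbedding F (γ : F) =
        (ZSpan.floor b x : EE F) - (ZSpan.floor b y : EE F) := by
      obtain ⟨γ, hγ⟩ := h1
      exact ⟨γ, hγ⟩
    refine ⟨γ, ?_⟩
    rw [hγ]
    have h2 := hc x
    have h3 := hc y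
    rw [hxy] at h2
    rw [ZSpan.fract_apply] at h2 h3
    have e1 : x - y - ((ZSpan.floor b x : EE F) - (ZSpan.floor b y : EE F)) =
        (x - (ZSpan.floor b x : EE F) - c y) - (y - (ZSpan.floor b y : EE F) - c y) := by abel
    rw [e1]
    refine (norm_sub_le _ _).trans ?_
    linarith
  refine ⟨T.card * T.card, fun e f => ?_⟩
  obtain ⟨i, hi, j, hj, hij, he⟩ := Finset.exists_ne_map_eq_of_card_lt_of_maps_to
    (s := Finset.range (T.card * T.card + 1)) (t := T ×ˢ T)
    (f := fun j => (c (e j), c (f j))) (by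
      rw [Finset.card_product, Finset.card_range]
      omega) (by
      intro j _
      exact Finset.mem_coe.2 (Finset.mem_product.2 ⟨hcT _, hcT _⟩))
  rw [Finset.mem_range] at hi hj
  have he1 : c (e i) = c (e j) := congrArg Prod.fst he
  have he2 : c (f i) = c (f j) := congrArg Prod.snd he
  rcases lt_or_gt_of_ne hij with h | h
  · obtain ⟨γ, hγ⟩ := hfl (e j) (e i) he1.symm
    obtain ⟨η, hη⟩ := hfl (f j) (f i) he2.symm
    exact ⟨i, j, h, by omega, γ, η, hγ, hη⟩
  · obtain ⟨γ, hγ⟩ := hfl (e i) (e j) he1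
    obtain ⟨η, hη⟩ := hfl (f i) (f j) he2
    exact ⟨j, i, h, by omega, γ, η, hγ, hη⟩

end Pig2

theorem pig2P (F : Type) [Field F] [NumberField F] : Pig2P F := by
  intro ε hε
  obtain ⟨K, hK⟩ := Pig2.pig F ε hε
  refine ⟨K, fun s t => ?_⟩
  obtain ⟨i, j, hij, hj, γ, η, h1, h2⟩ := hK (fun j => mixedEmbedding F ((j : F) * s))
    (fun j => mixedEmbedding F ((j : F) * t))
  refine ⟨j - i, by omega, by omega, γ, η, fun w => ⟨?_, ?_⟩⟩
  · have e : ((j - i : ℕ) : F) * s - γ = (j : F) * s - (i : F) * s - γ := by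
      rw [Nat.cast_sub hij.le]; ring
    rw [e, ← mixedEmbedding.normAtPlace_apply, map_sub (mixedEmbedding F), map_sub (mixedEmbedding F)]
    exact (Pig2.place_le _ _).trans h1
  · have e : ((j - i : ℕ) : F) * t - η = (j : F) * t - (i : F) * t - η := by
      rw [Nat.cast_sub hij.le]; ring
    rw [e, ← mixedEmbedding.normAtPlace_apply, map_sub (mixedEmbedding F), map_sub (mixedEmbedding F)]
    exact (Pig2.place_le _ _).trans h2

end Pool.Agent.N852.GR

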