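import Mathlib
import Pool.Agent.N852.GR.Stm

/-!
Project GR, part RED: minimal pairs exist (helper954).
-/

namespace Pool.Agent.N852.GR

open scoped Classical
open NumberField Module Matrix

variable {F : Type} [Field F] [NumberField F] {n : ℕ}

theorem Red_min (hfin : ∀ B : ℝ, {x : Fin n → 𝓞 F | ‖io x‖ ≤ B}.Finite) (S : Set (Fin n → 𝓞 F))
    (hS : S.Nonempty) : ∃ a ∈ S, ∀ x ∈ S, ‖io a‖ ≤ ‖io x‖ := by
  obtain ⟨x0, hx0⟩ := hS
  have h1 : {x : Fin n → 𝓞 F | x ∈ S ∧ ‖io x‖ ≤ ‖io x0‖}.Finite :=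
    (hfin ‖io x0‖).subset fun x hx => hx.2
  obtain ⟨a, ha, hmin⟩ := Set.exists_min_image _ (fun x => ‖io x‖) h1 ⟨x0, hx0, le_rfl⟩
  refine ⟨a, ha.1, fun x hx => ?_⟩
  by_cases h : ‖io x‖ ≤ ‖io x0‖
  · exact hmin x ⟨hx, h⟩
  · exact ha.2.trans (not_le.1 h).le

theorem Red_int (v : Fin n → F) : ∃ (c : F) (x : Fin n → 𝓞 F), c ≠ 0 ∧ co x = c • v := by
  obtain ⟨b, hb⟩ := IsLocalization.exist_integer_multiples_of_finite (nonZeroDivisors (𝓞 F)) v
  choose x hx using hb
  refine ⟨algebraMap (𝓞 F) F b, x, ?_, ?_⟩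
  · have := nonZeroDivisors.ne_zero b.2
    exact (map_ne_zero_iff _ (FaithfulSMul.algebraMap_injective (𝓞 F) F)).2 this
  · funext i
    have h := hx i
    rw [Algebra.smul_def] at h
    show (x i : F) = algebraMap (𝓞 F) F b * v i
    exact h

theorem redP (F : Type) [Field F] [NumberField F] (hL : LatP F) : RedP F := by
  intro n P hP
  have hfin := (hL n).2.1
  obtain ⟨a, ⟨haP, ha0⟩, hamin⟩ := Red_min hfin {x : Fin n → 𝓞 F | co x ∈ P ∧ x ≠ 0} (by
    have hne : 0 < finrank F P := by omega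
    have : Nontrivial P := finrank_pos_iff.1 hne
    obtain ⟨v, hv⟩ := exists_ne (0 : P)
    obtain ⟨c, x, hc, hx⟩ := Red_int v.1
    refine ⟨x, ?_, ?_⟩
    · show co x ∈ P
      rw [hx]; exact P.smul_mem _ v.2
    · intro h0
      rw [h0] at hx
      have h1 : co (0 : Fin n → 𝓞 F) = 0 := by funext i; simp [co]
      rw [h1] at hx
      have h2 := (smul_eq_zero.1 hx.symm).resolve_left hc
      exact hv (Subtype.ext h2))
  obtain ⟨b, ⟨hbP, hba⟩, hbmin⟩ := Red_min hfin
    {x : Fin n → 𝓞 F | co x ∈ P ∧ co x ∉ Submodule.span F {co a}} (by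
    obtain ⟨v, hv, hva⟩ : ∃ v ∈ P, v ∉ Submodule.span F ({co a} : Set (Fin n → F)) := by
      by_contra h
      push Not at h
      have h1 : finrank F P ≤ finrank F (Submodule.span F ({co a} : Set (Fin n → F))) :=
        Submodule.finrank_mono h
      have h2 : finrank F (Submodule.span F ({co a} : Set (Fin n → F))) ≤ 1 := by
        have := finrank_span_le_card (R := F) ({co a} : Set (Fin n → F))
        simpa using this
      omega
    obtain ⟨c, x, hc, hx⟩ := Red_int v
    refine ⟨x, ?_, ?_⟩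
    · show co x ∈ P
      rw [hx]; exact P.smul_mem _ hv
    · rw [hx]
      intro h
      apply hva
      have := Submodule.smul_mem _ c⁻¹ h
      rwa [smul_smul, inv_mul_cancel₀ hc, one_smul] at this)
  have hb0 : b ≠ 0 := by
    intro h
    apply hba
    rw [h]
    have h1 : co (0 : Fin n → 𝓞 F) = 0 := by funext i; simp [co]
    rw [h1]
    exact Submodule.zero_mem _
  refine ⟨a, b, ⟨haP, hbP, ha0, hba, hamin b ⟨hbP, hb0⟩, fun x h1 h2 => hamin x ⟨h1, h2⟩,
    fun x h1 h2 => hbmin x ⟨h1, h2⟩⟩, ?_⟩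
  have hca : co a ≠ 0 := by
    intro h
    apply ha0
    funext i
    have := congrFun h i
    exact RingOfIntegers.coe_eq_zero_iff.1 this
  have hind : LinearIndependent F ![co a, co b] := by
    rw [LinearIndependent.pair_iff]
    intro s t hst
    have ht : t = 0 := by
      by_contra ht
      apply hba
      rw [Submodule.mem_span_singleton]
      refine ⟨-(t⁻¹ * s), ?_⟩
      have h8 : t⁻¹ • (s • co a + t • co b) = 0 := by rw [hst, smul_zero]
      rw [smul_add, smul_smul, smul_smul, inv_mul_cancel₀ ht, one_smul] at h8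
      rw [neg_smul]
      exact (eq_neg_of_add_eq_zero_right h8).symm
    rw [ht, zero_smul, add_zero] at hst
    exact ⟨(smul_eq_zero.1 hst).resolve_right hca, ht⟩
  have hle : Submodule.span F {co a, co b} ≤ P := by
    rw [Submodule.span_le]
    rintro x (rfl | rfl)
    · exact haP
    · exact hbP
  apply Submodule.eq_of_le_of_finrank_le hle
  rw [hP]
  have h1 := finrank_span_eq_card hind
  rw [Fintype.card_fin] at h1
  have h2 : Set.range ![co a, co b] = {co a, co b} := by
    simp [Matrix.range_cons, Set.pair_comm]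
  rw [h2] at h1
  exact h1.ge

end Pool.Agent.N852.GR
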