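import Pool.Agent.N852.GR.Stm

/-!
GR/RNK: a uniform lower bound for the maps `z ↦ ∑ s_i A_i z`, `s` in a compact set.
-/

set_option autoImplicit false

namespace Pool.Agent.N852.GR

open scoped Classical
open NumberField Module Matrix Filter Topology

theorem rnk_sub {V W : Type*} [NormedAddCommGroup V] [NormedSpace ℝ V] [FiniteDimensional ℝ V]
    [NormedAddCommGroup W] [NormedSpace ℝ W] {R : ℕ} (g : V →ₗ[ℝ] W)
    (hR : R ≤ finrank ℝ (LinearMap.range g)) :
    ∃ c : ℝ, 0 < c ∧ ∃ P : Submodule ℝ V, finrank ℝ P = R ∧ ∀ p ∈ P, c * ‖p‖ ≤ ‖g p‖ := by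
  obtain ⟨v, hv⟩ := exists_linearIndependent_of_le_finrank hR
  choose p hp using fun i => (v i).2
  have hgp : LinearIndependent ℝ (fun i => g (p i)) := by
    have h1 := hv.map' (LinearMap.range g).subtype (Submodule.ker_subtype _)
    have h2 : (fun i => g (p i)) = (LinearMap.range g).subtype ∘ v := by
      funext i
      exact hp i
    rw [h2]
    exact h1
  have hpl : LinearIndependent ℝ p := LinearIndependent.of_comp g hgp
  have hker : LinearMap.ker (g.domRestrict (Submodule.span ℝ (Set.range p))) = ⊥ := by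
    rw [LinearMap.ker_eq_bot']
    rintro ⟨x, hx⟩ h
    obtain ⟨c, rfl⟩ := (Submodule.mem_span_range_iff_exists_fun ℝ).mp hx
    have h1 : ∑ i, c i • g (p i) = 0 := by
      have h2 : g (∑ i, c i • p i) = 0 := h
      rw [map_sum] at h2
      simpa only [map_smul] using h2
    have h3 := Fintype.linearIndependent_iff.mp hgp c h1
    apply Subtype.ext
    simp only [h3, zero_smul, Finset.sum_const_zero, Submodule.coe_zero]
  obtain ⟨K, hK, hanti⟩ := LinearMap.exists_antilipschitzWith _ hker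
  refine ⟨(K : ℝ)⁻¹, inv_pos.mpr hK, Submodule.span ℝ (Set.range p), ?_, ?_⟩
  · rw [finrank_span_eq_card hpl, Fintype.card_fin]
  · intro q hq
    have h1 := hanti.le_mul_dist ⟨q, hq⟩ 0
    rw [dist_zero_right, map_zero, dist_zero_right] at h1
    have h2 : ‖q‖ ≤ K * ‖g q‖ := h1
    have hK' : (0 : ℝ) < K := hK
    rw [inv_mul_le_iff₀ hK']
    exact h2

theorem rnk_cpt {X V W : Type*} [TopologicalSpace X] [NormedAddCommGroup V] [NormedSpace ℝ V]
    [FiniteDimensional ℝ V] [NormedAddCommGroup W] [NormedSpace ℝ W] {R : ℕ} {K : Set X}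
    {f : X → V →L[ℝ] W} (hK : IsCompact K) (hf : Continuous f)
    (hR : ∀ x ∈ K, R ≤ finrank ℝ (LinearMap.range (f x : V →ₗ[ℝ] W))) :
    ∃ c : ℝ, 0 < c ∧ ∀ x ∈ K, ∃ P : Submodule ℝ V, finrank ℝ P = R ∧
      ∀ p ∈ P, c * ‖p‖ ≤ ‖f x p‖ := by
  refine hK.induction_on (p := fun S => ∃ c : ℝ, 0 < c ∧ ∀ x ∈ S, ∃ P : Submodule ℝ V,
    finrank ℝ P = R ∧ ∀ p ∈ P, c * ‖p‖ ≤ ‖f x p‖) ?_ ?_ ?_ ?_
  · exact ⟨1, one_pos, fun x hx => absurd hx (Set.notMem_empty x)⟩
  · rintro S T hST ⟨c, hc, h⟩
    exact ⟨c, hc, fun x hx => h x (hST hx)⟩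
  · rintro S T ⟨c, hc, h⟩ ⟨c', hc', h'⟩
    refine ⟨min c c', lt_min hc hc', ?_⟩
    rintro x (hx | hx)
    · obtain ⟨P, h1, h2⟩ := h x hx
      exact ⟨P, h1, fun p hp => (mul_le_mul_of_nonneg_right (min_le_left _ _)
        (norm_nonneg _)).trans (h2 p hp)⟩
    · obtain ⟨P, h1, h2⟩ := h' x hx
      exact ⟨P, h1, fun p hp => (mul_le_mul_of_nonneg_right (min_le_right _ _)
        (norm_nonneg _)).trans (h2 p hp)⟩
  · intro x0 hx0
    obtain ⟨c, hc, P, hP, hb⟩ := rnk_sub _ (hR x0 hx0)
    have h1 : ∀ᶠ x in 𝓝[K] x0, dist (f x) (f x0) < c / 2 :=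
      (hf.continuousWithinAt (s := K) (x := x0)).eventually
        (Metric.ball_mem_nhds _ (half_pos hc))
    refine ⟨{x | dist (f x) (f x0) < c / 2}, h1, c / 2, half_pos hc, ?_⟩
    intro x hx
    refine ⟨P, hP, ?_⟩
    intro p hp
    have h2 : dist (f x) (f x0) < c / 2 := hx
    have h3 := hb p hp
    have h4 : ‖(f x - f x0) p‖ ≤ c / 2 * ‖p‖ := by
      refine ((f x - f x0).le_opNorm p).trans ?_
      rw [dist_eq_norm] at h2
      exact mul_le_mul_of_nonneg_right h2.le (norm_nonneg _)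
    have h5 : ‖f x0 p‖ ≤ ‖f x p‖ + ‖(f x - f x0) p‖ := by
      have h6 : f x0 p = f x p - (f x - f x0) p := by
        rw [_root_.sub_apply]
        abel
      rw [h6]
      exact norm_sub_le _ _
    have h7 : c * ‖p‖ ≤ ‖f x0 p‖ := h3
    linarith

/-- the real points of a complex subspace -/
def rnkR {n : ℕ} (K : Submodule ℂ (Fin n → ℂ)) : Submodule ℝ (Fin n → ℝ) where
  carrier := {y | (fun i => (y i : ℂ)) ∈ K}
  zero_mem' := by
    have h : (fun i => (((0 : Fin n → ℝ) i : ℝ) : ℂ)) = 0 := by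
      funext i
      simp
    change (fun i => (((0 : Fin n → ℝ) i : ℝ) : ℂ)) ∈ K
    rw [h]
    exact K.zero_mem
  add_mem' := by
    intro a b ha hb
    have h : (fun i => (((a + b) i : ℝ) : ℂ)) = (fun i => (a i : ℂ)) + fun i => (b i : ℂ) := by
      funext i
      simp
    change (fun i => (((a + b) i : ℝ) : ℂ)) ∈ K
    rw [h]
    exact K.add_mem ha hb
  smul_mem' := by
    intro c a ha
    have h : (fun i => (((c • a) i : ℝ) : ℂ)) = (c : ℂ) • (fun i => (a i : ℂ)) := by
      funext i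
      simp
    change (fun i => (((c • a) i : ℝ) : ℂ)) ∈ K
    rw [h]
    exact K.smul_mem _ ha

theorem rnk_re {n : ℕ} (K : Submodule ℂ (Fin n → ℂ)) : finrank ℝ (rnkR K) ≤ finrank ℂ K := by
  let b := Module.finBasis ℝ (rnkR K)
  let v : Fin (finrank ℝ (rnkR K)) → K := fun j => ⟨fun i => (((b j).1 i : ℝ) : ℂ), (b j).2⟩
  have hv : LinearIndependent ℂ v := by
    rw [Fintype.linearIndependent_iff]
    intro c hc
    have h1 : ∀ i, ∑ j, c j * (((b j).1 i : ℝ) : ℂ) = 0 := by
      intro i
      have := congrFun (congrArg Subtype.val hc) i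
      simpa [v, Finset.sum_apply] using this
    have hre : ∀ j, (c j).re = 0 := by
      have h2 : ∑ j, (c j).re • b j = 0 := by
        apply Subtype.ext
        funext i
        have := congrArg Complex.re (h1 i)
        rw [Complex.re_sum] at this
        simpa [Finset.sum_apply] using this
      exact Fintype.linearIndependent_iff.mp b.linearIndependent _ h2
    have him : ∀ j, (c j).im = 0 := by
      have h2 : ∑ j, (c j).im • b j = 0 := by
        apply Subtype.ext
        funext i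
        have := congrArg Complex.im (h1 i)
        rw [Complex.im_sum] at this
        simpa [Finset.sum_apply] using this
      exact Fintype.linearIndependent_iff.mp b.linearIndependent _ h2
    intro j
    exact Complex.ext (hre j) (him j)
  have := hv.fintype_card_le_finrank
  rwa [Fintype.card_fin] at this

variable {F : Type} [Field F] [NumberField F] {n k : ℕ}

/-- the combination at a place -/
noncomputable def rnkM (A : Fin k → Matrix (Fin n) (Fin n) (𝓞 F)) (w : InfinitePlace F)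
    (l : Fin k → ℂ) : Matrix (Fin n) (Fin n) ℂ := ∑ i, l i • (cm A i).map w.embedding

omit [NumberField F] in
theorem rnkM_mulVec (A : Fin k → Matrix (Fin n) (Fin n) (𝓞 F)) (w : InfinitePlace F)
    (l : Fin k → ℂ) (v : Fin n → ℂ) (j : Fin n) :
    (rnkM A w l).mulVec v j = ∑ i, l i * ∑ m, w.embedding (A i j m : F) * v m := by
  unfold rnkM Matrix.mulVec dotProduct
  simp only [Matrix.sum_apply, Matrix.smul_apply, Matrix.map_apply, smul_eq_mul,
    Finset.sum_mul, Finset.mul_sum, cm]
  rw [Finset.sum_comm]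
  refine Finset.sum_congr rfl fun i _ => Finset.sum_congr rfl fun m _ => ?_
  rw [mul_assoc]

omit [NumberField F] in
theorem rnk_ker {A : Fin k → Matrix (Fin n) (Fin n) (𝓞 F)} {R : ℕ} (hA : RC (cm A) R)
    (w : InfinitePlace F) {l : Fin k → ℂ} (hl : l ≠ 0) :
    finrank ℂ (LinearMap.ker (rnkM A w l).mulVecLin) ≤ n - R ∧ R ≤ n := by
  have h1 := LinearMap.finrank_range_add_finrank_ker (rnkM A w l).mulVecLin
  have h2 : R ≤ finrank ℂ (LinearMap.range (rnkM A w l).mulVecLin) := hA w.embedding l hl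
  rw [finrank_fin_fun] at h1
  omega

theorem rnk_real (A : Fin k → Matrix (Fin n) (Fin n) (𝓞 F)) (s : Fin k → EE F)
    {z : Fin n → EE F} (hz : AS A s z = 0) (w : {w : InfinitePlace F // w.IsReal}) :
    (fun i => (((z i).1 w : ℝ) : ℂ)) ∈
      LinearMap.ker (rnkM A w.1 (fun i => (((s i).1 w : ℝ) : ℂ))).mulVecLin := by
  rw [LinearMap.mem_ker, Matrix.mulVecLin_apply]
  funext j
  rw [rnkM_mulVec, Pi.zero_apply]
  have h1 := congrArg (fun x : EE F => ((x.1 w : ℝ) : ℂ)) (congrFun hz j)
  simp only [AS, LinearMap.coe_mk, AddHom.coe_mk, Prod.fst_sum, Finset.sum_apply, Prod.fst_mul,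
    Pi.mul_apply, Pi.zero_apply, Prod.fst_zero, Complex.ofReal_zero, Complex.ofReal_sum,
    Complex.ofReal_mul] at h1
  rw [← h1]
  refine Finset.sum_congr rfl fun i _ => ?_
  congr 1
  refine Finset.sum_congr rfl fun m _ => ?_
  rw [mixedEmbedding.mixedEmbedding_apply_isReal, InfinitePlace.embedding_of_isReal_apply]

theorem rnk_complex (A : Fin k → Matrix (Fin n) (Fin n) (𝓞 F)) (s : Fin k → EE F)
    {z : Fin n → EE F} (hz : AS A s z = 0) (w : {w : InfinitePlace F // w.IsComplex}) :
    (fun i => (z i).2 w) ∈ LinearMap.ker (rnkM A w.1 (fun i => (s i).2 w)).mulVecLin := by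
  rw [LinearMap.mem_ker, Matrix.mulVecLin_apply]
  funext j
  rw [rnkM_mulVec, Pi.zero_apply]
  have h1 := congrArg (fun x : EE F => x.2 w) (congrFun hz j)
  simp only [AS, LinearMap.coe_mk, AddHom.coe_mk, Prod.snd_sum, Finset.sum_apply, Prod.snd_mul,
    Pi.mul_apply, Pi.zero_apply, Prod.snd_zero] at h1
  rw [← h1]
  refine Finset.sum_congr rfl fun i _ => ?_
  congr 1

/-- the components of an element of the kernel -/
noncomputable def rnkPhi (A : Fin k → Matrix (Fin n) (Fin n) (𝓞 F)) (s : Fin k → EE F) :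
    LinearMap.ker (AS A s) →ₗ[ℝ]
      ((w : {w : InfinitePlace F // w.IsReal}) →
        rnkR (LinearMap.ker (rnkM A w.1 (fun i => (((s i).1 w : ℝ) : ℂ))).mulVecLin)) ×
      ((w : {w : InfinitePlace F // w.IsComplex}) →
        LinearMap.ker (rnkM A w.1 (fun i => (s i).2 w)).mulVecLin) where
  toFun z := (fun w => ⟨fun i => (z.1 i).1 w, rnk_real A s z.2 w⟩,
    fun w => ⟨fun i => (z.1 i).2 w, rnk_complex A s z.2 w⟩)
  map_add' _ _ := rfl
  map_smul' _ _ := rfl

theorem rnk_range {A : Fin k → Matrix (Fin n) (Fin n) (𝓞 F)} {R : ℕ} (hA : RC (cm A) R)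
    {s : Fin k → EE F} (hs : ∀ w : InfinitePlace F, ∃ i, 1 ≤ mixedEmbedding.normAtPlace w (s i)) :
    finrank ℚ F * R ≤ finrank ℝ (LinearMap.range (AS A s)) := by
  have hinj : Function.Injective (rnkPhi A s) := by
    intro z z' h
    apply Subtype.ext
    funext i
    have h1 := congrArg Prod.fst h
    have h2 := congrArg Prod.snd h
    apply Prod.ext
    · funext w
      exact congrFun (congrArg Subtype.val (congrFun h1 w)) i
    · funext w
      exact congrFun (congrArg Subtype.val (congrFun h2 w)) i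
  have hlr : ∀ w : {w : InfinitePlace F // w.IsReal},
      (fun i => (((s i).1 w : ℝ) : ℂ)) ≠ 0 := by
    intro w h
    obtain ⟨i, hi⟩ := hs w.1
    have h1 : (s i).1 w = 0 := by
      have h3 : (((s i).1 w : ℝ) : ℂ) = 0 := congrFun h i
      exact_mod_cast h3
    rw [mixedEmbedding.normAtPlace_apply_of_isReal w.2] at hi
    rw [show (s i).1 ⟨w.1, w.2⟩ = 0 from h1, norm_zero] at hi
    exact absurd hi (by norm_num)
  have hlc : ∀ w : {w : InfinitePlace F // w.IsComplex}, (fun i => (s i).2 w) ≠ 0 := by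
    intro w h
    obtain ⟨i, hi⟩ := hs w.1
    have h1 : (s i).2 w = 0 := congrFun h i
    rw [mixedEmbedding.normAtPlace_apply_of_isComplex w.2] at hi
    rw [show (s i).2 ⟨w.1, w.2⟩ = 0 from h1, norm_zero] at hi
    exact absurd hi (by norm_num)
  have hRn : R ≤ n := by
    obtain ⟨w⟩ : Nonempty (InfinitePlace F) := inferInstance
    rcases w.isReal_or_isComplex with hw | hw
    · exact (rnk_ker hA w (hlr ⟨w, hw⟩)).2
    · exact (rnk_ker hA w (hlc ⟨w, hw⟩)).2
  have h1 := LinearMap.finrank_le_finrank_of_injective hinj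
  rw [finrank_prod, finrank_pi_fintype, finrank_pi_fintype] at h1
  have h2 : ∑ w : {w : InfinitePlace F // w.IsReal},
      finrank ℝ (rnkR (LinearMap.ker (rnkM A w.1 (fun i => (((s i).1 w : ℝ) : ℂ))).mulVecLin)) ≤
        Fintype.card {w : InfinitePlace F // w.IsReal} * (n - R) := by
    rw [← smul_eq_mul, ← Finset.card_univ, ← Finset.sum_const]
    exact Finset.sum_le_sum fun w _ => (rnk_re _).trans (rnk_ker hA w.1 (hlr w)).1
  have h3 : ∑ w : {w : InfinitePlace F // w.IsComplex},
      finrank ℝ (LinearMap.ker (rnkM A w.1 (fun i => (s i).2 w)).mulVecLin) ≤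
        Fintype.card {w : InfinitePlace F // w.IsComplex} * (2 * (n - R)) := by
    rw [← smul_eq_mul, ← Finset.card_univ, ← Finset.sum_const]
    refine Finset.sum_le_sum fun w _ => ?_
    rw [finrank_real_of_complex]
    have := (rnk_ker hA w.1 (hlc w)).1
    omega
  have h4 := InfinitePlace.card_add_two_mul_card_eq_rank F
  have h5 : Fintype.card {w : InfinitePlace F // w.IsReal} = InfinitePlace.nrRealPlaces F := rfl
  have h6 : Fintype.card {w : InfinitePlace F // w.IsComplex} = InfinitePlace.nrComplexPlaces F :=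
    rfl
  have h7 := LinearMap.finrank_range_add_finrank_ker (AS A s)
  rw [finrank_pi_fintype, Finset.sum_const, Finset.card_univ, Fintype.card_fin, smul_eq_mul,
    mixedEmbedding.finrank] at h7
  rw [h5] at h2
  rw [h6] at h3
  have h8 : finrank ℝ (LinearMap.ker (AS A s)) ≤ finrank ℚ F * (n - R) := by
    calc _ ≤ InfinitePlace.nrRealPlaces F * (n - R) +
          InfinitePlace.nrComplexPlaces F * (2 * (n - R)) := h1.trans (add_le_add h2 h3)
      _ = (InfinitePlace.nrRealPlaces F + 2 * InfinitePlace.nrComplexPlaces F) * (n - R) := by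
          ring
      _ = _ := by rw [h4]
  have h9 : n * finrank ℚ F = finrank ℚ F * (n - R) + finrank ℚ F * R := by
    rw [← mul_add, Nat.sub_add_cancel hRn, mul_comm]
  omega

/-- the maps depend linearly on `s` -/
noncomputable def rnkL (A : Fin k → Matrix (Fin n) (Fin n) (𝓞 F)) :
    (Fin k → EE F) →ₗ[ℝ] ((Fin n → EE F) →ₗ[ℝ] (Fin n → EE F)) where
  toFun := AS A
  map_add' s t := by
    apply LinearMap.ext
    intro z
    funext j
    simp only [AS, LinearMap.coe_mk, AddHom.coe_mk, Pi.add_apply, LinearMap.add_apply, add_mul,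
      Finset.sum_add_distrib]
  map_smul' c s := by
    apply LinearMap.ext
    intro z
    funext j
    simp only [AS, LinearMap.coe_mk, AddHom.coe_mk, Pi.smul_apply, LinearMap.smul_apply,
      RingHom.id_apply, smul_mul_assoc, Finset.smul_sum]

theorem rnkP (F : Type) [Field F] [NumberField F] : RnkP F := by
  intro n k R A hA
  let f : (Fin k → EE F) →ₗ[ℝ] ((Fin n → EE F) →L[ℝ] (Fin n → EE F)) :=
    (LinearMap.toContinuousLinearMap : ((Fin n → EE F) →ₗ[ℝ] (Fin n → EE F)) ≃ₗ[ℝ]
      ((Fin n → EE F) →L[ℝ] (Fin n → EE F))).toLinearMap.comp (rnkL A)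
  have hf : Continuous f := LinearMap.continuous_of_finiteDimensional f
  have hfs : ∀ s z, f s z = AS A s z := fun _ _ => rfl
  have hc : IsCompact ({s : Fin k → EE F | ‖s‖ ≤ 5} ∩
      {s | ∀ w : InfinitePlace F, ∃ i, 1 ≤ mixedEmbedding.normAtPlace w (s i)}) := by
    have h1 : IsCompact {s : Fin k → EE F | ‖s‖ ≤ 5} := by
      have h2 : {s : Fin k → EE F | ‖s‖ ≤ 5} = Metric.closedBall 0 5 := by
        ext s
        simp
      rw [h2]
      exact isCompact_closedBall _ _
    apply h1.inter_right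
    rw [Set.ofPred_forall]
    apply isClosed_iInter
    intro w
    rw [Set.ofPred_exists]
    apply isClosed_iUnion_of_finite
    intro i
    exact isClosed_le continuous_const
      ((mixedEmbedding.continuous_normAtPlace w).comp (continuous_apply i))
  obtain ⟨c, hc0, h⟩ := rnk_cpt (R := finrank ℚ F * R) hc hf (fun s hs => rnk_range hA hs.2)
  exact ⟨c, hc0, fun s hs1 hs2 => h s ⟨hs1, hs2⟩⟩

end Pool.Agent.N852.GR
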