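import Mathlib
import Pool.Agent.N852.GR.Stm

/-!
Project GR, part SMT: smoothness gives large ranks (helper954).
-/

namespace Pool.Agent.N852.GR

open scoped Classical
open NumberField Module Matrix

/-- the linear conditions on the second vector -/
noncomputable def Smt_phi {n k : ℕ} (M : Fin k → Matrix (Fin n) (Fin n) ℂ) (i0 : Fin k) (a : Fin n → ℂ) :
    (Fin n → ℂ) →ₗ[ℂ] ({i : Fin k // i ≠ i0} → ℂ) where
  toFun b := fun i => a ⬝ᵥ (M i.1).mulVec b
  map_add' := by
    intro x y
    funext i
    simp only [Pi.add_apply, Matrix.mulVec_add, dotProduct_add]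
  map_smul' := by
    intro c x
    funext i
    simp only [Pi.smul_apply, RingHom.id_apply, Matrix.mulVec_smul, dotProduct_smul]

theorem smtP (F : Type) [Field F] [NumberField F] : SmtP F := by
  intro n k A hA hS hkn σ l hl
  by_contra hcon
  push Not at hcon
  obtain ⟨i0, hi0⟩ : ∃ i0, l i0 ≠ 0 := by
    by_contra h
    push Not at h
    exact hl (funext h)
  set M : Fin k → Matrix (Fin n) (Fin n) ℂ := fun i => (A i).map σ with hM
  set B : Matrix (Fin n) (Fin n) ℂ := ∑ i, l i • M i with hB
  have hcon' : B.rank < n - k := hcon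
  set K : Submodule ℂ (Fin n → ℂ) := LinearMap.ker B.mulVecLin with hK
  have h1 : B.rank + finrank ℂ K = n := by
    have := LinearMap.finrank_range_add_finrank_ker B.mulVecLin
    rw [finrank_fin_fun] at this
    exact this
  have hk0 : 0 < k := lt_of_le_of_lt (Nat.zero_le _) i0.2
  have h2 : k + 1 ≤ finrank ℂ K := by omega
  -- a vector of the kernel
  have hKne : 0 < finrank ℂ K := by omega
  obtain ⟨a, ha0⟩ : ∃ a : K, a ≠ 0 := by
    have : Nontrivial K := finrank_pos_iff.1 hKne
    exact exists_ne 0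
  set φ : K →ₗ[ℂ] ({i : Fin k // i ≠ i0} → ℂ) := (Smt_phi M i0 a.1).comp K.subtype with hφ
  have h3 : finrank ℂ (LinearMap.range φ) ≤ k - 1 := by
    refine (Submodule.finrank_le _).trans ?_
    rw [finrank_fintype_fun_eq_card]
    have : Fintype.card {i : Fin k // i ≠ i0} = k - 1 := by
      rw [Fintype.card_subtype_compl, Fintype.card_fin, Fintype.card_subtype_eq]
    rw [this]
  have h4 := LinearMap.finrank_range_add_finrank_ker φ
  have h5 : 2 ≤ finrank ℂ (LinearMap.ker φ) := by omega
  obtain ⟨b, hb, hba⟩ : ∃ b ∈ LinearMap.ker φ, b ∉ Submodule.span ℂ ({a} : Set K) := by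
    by_contra h
    push Not at h
    have h6 : finrank ℂ (LinearMap.ker φ) ≤ finrank ℂ (Submodule.span ℂ ({a} : Set K)) :=
      Submodule.finrank_mono h
    have h7 : finrank ℂ (Submodule.span ℂ ({a} : Set K)) ≤ 1 := by
      have := finrank_span_le_card (R := ℂ) ({a} : Set K)
      simpa using this
    omega
  have hind : LinearIndependent ℂ ![a.1, b.1] := by
    rw [LinearIndependent.pair_iff]
    intro s t hst
    have hst' : s • a + t • b = 0 := Subtype.ext hst
    have ht : t = 0 := by
      by_contra ht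
      apply hba
      rw [Submodule.mem_span_singleton]
      refine ⟨-(t⁻¹ * s), ?_⟩
      have h8 : t⁻¹ • (s • a + t • b) = 0 := by rw [hst', smul_zero]
      rw [smul_add, smul_smul, smul_smul, inv_mul_cancel₀ ht, one_smul] at h8
      rw [neg_smul]
      exact (eq_neg_of_add_eq_zero_right h8).symm
    rw [ht, zero_smul, add_zero] at hst'
    exact ⟨(smul_eq_zero.1 hst').resolve_right ha0, ht⟩
  have hBa : B.mulVec a.1 = 0 := a.2
  have hBb : B.mulVec b.1 = 0 := b.2
  have hne : ∀ i, i ≠ i0 → a.1 ⬝ᵥ (M i).mulVec b.1 = 0 := by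
    intro i hi
    have := congrFun (show φ b = 0 from hb) ⟨i, hi⟩
    exact this
  have hsum : a.1 ⬝ᵥ B.mulVec b.1 = ∑ i, l i * (a.1 ⬝ᵥ (M i).mulVec b.1) := by
    rw [hB, Matrix.sum_mulVec, dotProduct_sum]
    refine Finset.sum_congr rfl fun i _ => ?_
    rw [Matrix.smul_mulVec, dotProduct_smul, smul_eq_mul]
  have hall : ∀ i, a.1 ⬝ᵥ ((A i).map σ).mulVec b.1 = 0 := by
    intro i
    by_cases hi : i = i0
    · rw [hi]
      rw [hBb, dotProduct_zero, Finset.sum_eq_single i0] at hsum
      · have := (mul_eq_zero.1 hsum.symm).resolve_left hi0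
        exact this
      · intro j _ hj
        rw [hne j hj, mul_zero]
      · intro h; exact absurd (Finset.mem_univ _) h
    · exact hne i hi
  rcases hS σ a.1 b.1 hind hall l hl with h | h
  · exact h hBa
  · exact h hBb

end Pool.Agent.N852.GR
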