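import Mathlib
import Pool.Agent.N852.GR.Stm

/-!
Project GR, part TRK: row rank = column rank (helper954).
-/

namespace Pool.Agent.N852.GR

open scoped Classical
open NumberField Module Matrix

theorem trkP (F : Type) [Field F] [NumberField F] : TrkP F := by
  intro n k u
  let M : Matrix (Fin k) (Fin n) F := Matrix.of fun i j => (u i j : F)
  have h1 : M.rank = rk u := by
    rw [Matrix.rank_eq_finrank_span_row]
    rfl
  have h2 : M.rank = rk (fun (j : Fin n) (i : Fin k) => u i j) := by
    rw [Matrix.rank_eq_finrank_span_cols]
    rfl
  rw [← h1, h2]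

end Pool.Agent.N852.GR
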